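import Pool.Agent.H256.RD.Stm

/-!
# A real analytic function which is not locally zero vanishes to finite order nearby (RP8)
-/

open MeasureTheory Set Filter Topology
open scoped ContDiff

noncomputable section

namespace Pool.Agent.H256.RD

namespace Ana

/-- evaluation at a vector -/
def ev (v : Pl) : (Pl →L[ℝ] ℂ) →L[ℝ] ℂ := ContinuousLinearMap.apply ℝ ℂ v

lemma pd_eq (j : Fin 2) (f : Pl → ℂ) :
    pd j f = ev (EuclideanSpace.single j (1 : ℝ)) ∘ fderiv ℝ f := rfl

lemma pd_analytic {f : Pl → ℂ} {x : Pl} (hf : AnalyticAt ℝ f x) (j : Fin 2) :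
    AnalyticAt ℝ (pd j f) x := by
  rw [pd_eq]
  exact ((ev (EuclideanSpace.single j (1 : ℝ))).analyticAt _).comp hf.fderiv

lemma pd_congr {f g : Pl → ℂ} {x : Pl} (h : f =ᶠ[𝓝 x] g) (j : Fin 2) :
    pd j f =ᶠ[𝓝 x] pd j g := by
  filter_upwards [h.fderiv (𝕜 := ℝ)] with y hy
  unfold pd
  rw [hy]

lemma iter_congr {f g : Pl → ℂ} {x : Pl} (h : f =ᶠ[𝓝 x] g) (j : Fin 2) (n : ℕ) :
    (pd j)^[n] f =ᶠ[𝓝 x] (pd j)^[n] g := by
  induction n generalizing f g with
  | zero => exact h
  | succ n ih =>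
    rw [Function.iterate_succ_apply, Function.iterate_succ_apply]
    exact ih (pd_congr h j)

lemma pd_pd {f : Pl → ℂ} {x : Pl} (hf : AnalyticAt ℝ f x) (i j : Fin 2) :
    pd i (pd j f) x = fderiv ℝ (fderiv ℝ f) x (EuclideanSpace.single i (1 : ℝ))
      (EuclideanSpace.single j (1 : ℝ)) := by
  have h1 : DifferentiableAt ℝ (fderiv ℝ f) x := hf.fderiv.differentiableAt
  have h2 : HasFDerivAt (ev (EuclideanSpace.single j (1 : ℝ)) ∘ fderiv ℝ f)
      ((ev (EuclideanSpace.single j (1 : ℝ))).comp (fderiv ℝ (fderiv ℝ f) x)) x :=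
    (ev (EuclideanSpace.single j (1 : ℝ))).hasFDerivAt.comp x h1.hasFDerivAt
  show fderiv ℝ (pd j f) x _ = _
  rw [pd_eq, h2.fderiv]
  rfl

lemma comm_at {f : Pl → ℂ} {x : Pl} (hf : AnalyticAt ℝ f x) (i j : Fin 2) :
    pd i (pd j f) x = pd j (pd i f) x := by
  rw [pd_pd hf, pd_pd hf]
  have h1 : ContDiffAt ℝ ω f x := hf.contDiffAt
  have h2 : IsSymmSndFDerivAt ℝ f x := h1.isSymmSndFDerivAt (by simp)
  exact h2.eq _ _

lemma comm {f : Pl → ℂ} {x : Pl} (hf : AnalyticAt ℝ f x) (i j : Fin 2) :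
    pd i (pd j f) =ᶠ[𝓝 x] pd j (pd i f) := by
  filter_upwards [hf.eventually_analyticAt] with y hy
  exact comm_at hy i j

lemma comm_iter {f : Pl → ℂ} {x : Pl} (hf : AnalyticAt ℝ f x) (n : ℕ) :
    (pd 0)^[n] (pd 1 f) =ᶠ[𝓝 x] pd 1 ((pd 0)^[n] f) := by
  induction n generalizing f with
  | zero => exact EventuallyEq.rfl
  | succ n ih =>
    rw [Function.iterate_succ_apply, Function.iterate_succ_apply]
    exact (iter_congr (comm hf 0 1) 0 n).trans (ih (pd_analytic hf 0))

/-- the class of analytic functions with vanishing jets -/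
def JJ (x : Pl) (f : Pl → ℂ) : Prop := AnalyticAt ℝ f x ∧ ∀ i j, jt i j f x = 0

lemma JJ_zero {x : Pl} {f : Pl → ℂ} (h : JJ x f) : JJ x (pd 0 f) := by
  refine ⟨pd_analytic h.1 0, fun i j => ?_⟩
  have := h.2 (i + 1) j
  unfold jt at this ⊢
  rwa [Function.iterate_succ_apply] at this

lemma JJ_one {x : Pl} {f : Pl → ℂ} (h : JJ x f) : JJ x (pd 1 f) := by
  refine ⟨pd_analytic h.1 1, fun i j => ?_⟩
  have h1 := h.2 i (j + 1)
  unfold jt at h1 ⊢
  rw [Function.iterate_succ_apply] at h1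
  rw [← h1]
  exact (iter_congr (comm_iter h.1 i) 1 j).eq_of_nhds

lemma coeff_zero (n : ℕ) : ∀ {x : Pl} {f : Pl → ℂ}, JJ x f →
    ∀ {p : FormalMultilinearSeries ℝ Pl ℂ}, HasFPowerSeriesAt f p x → ∀ y : Pl,
      p n (fun _ => y) = 0 := by
  induction n with
  | zero =>
    intro x f hf p hp y
    rw [hp.coeff_zero]
    exact hf.2 0 0
  | succ n ih =>
    intro x f hf p hp y
    obtain ⟨r, hr⟩ := hp
    have hd : HasFPowerSeriesOnBall (fderiv ℝ f) p.derivSeries x r := hr.fderiv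
    have hj : ∀ j : Fin 2, JJ x (pd j f) := by
      intro j
      fin_cases j
      · exact JJ_zero hf
      · exact JJ_one hf
    have hc : ∀ j : Fin 2, p.derivSeries n (fun _ => y) (EuclideanSpace.single j (1 : ℝ)) = 0 := by
      intro j
      have h1 : HasFPowerSeriesAt (pd j f)
          ((ev (EuclideanSpace.single j (1 : ℝ))).compFormalMultilinearSeries p.derivSeries) x :=
        ⟨r, (ev (EuclideanSpace.single j (1 : ℝ))).comp_hasFPowerSeriesOnBall hd⟩
      exact ih (hj j) h1 y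
    have hy : y = y 0 • EuclideanSpace.single 0 (1 : ℝ) + y 1 • EuclideanSpace.single 1 (1 : ℝ) := by
      ext i
      fin_cases i <;> simp
    have h2 : p.derivSeries n (fun _ => y) y = 0 := by
      conv_lhs => rw [show (p.derivSeries n (fun _ => y)) y = (p.derivSeries n (fun _ => y))
        (y 0 • EuclideanSpace.single 0 (1 : ℝ) + y 1 • EuclideanSpace.single 1 (1 : ℝ)) from
        congrArg _ hy]
      rw [map_add, map_smul, map_smul, hc, hc, smul_zero, smul_zero, add_zero]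
    rw [p.derivSeries_apply_diag] at h2
    have h3 : ((n + 1 : ℕ) : ℝ) • (p (n + 1)) (fun _ => y) = 0 := by
      rw [Nat.cast_smul_eq_nsmul]
      exact h2
    rcases smul_eq_zero.1 h3 with h | h
    · exact absurd h (by positivity)
    · exact h

lemma locally_zero {x : Pl} {f : Pl → ℂ} (h : JJ x f) : ∀ᶠ y in 𝓝 x, f y = 0 := by
  obtain ⟨p, hp⟩ := h.1
  have h1 := hp.eventually_hasSum
  have h2 : ∀ᶠ y in 𝓝 (0 : Pl), f (x + y) = 0 := by
    filter_upwards [h1] with y hy
    have h3 : HasSum (fun n => p n fun _ => y) 0 := by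
      simp only [coeff_zero _ h hp]
      exact hasSum_zero
    exact hy.unique h3
  have h4 : Tendsto (fun y : Pl => y - x) (𝓝 x) (𝓝 0) := by
    have : Tendsto (fun y : Pl => y - x) (𝓝 x) (𝓝 (x - x)) := tendsto_id.sub_const x
    rwa [sub_self] at this
  filter_upwards [h4.eventually h2] with y hy
  rwa [add_sub_cancel] at hy

end Ana

theorem ana : AnaStm := by
  intro d x0 hd hne
  obtain ⟨r, hr, hball⟩ := Metric.eventually_nhds_iff_ball.1 hd.eventually_analyticAt
  have han : AnalyticOnNhd ℝ d (Metric.ball x0 r) := fun y hy => hball y hy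
  refine ⟨Metric.ball x0 r, Metric.isOpen_ball, Metric.mem_ball_self hr,
    han.contDiffOn Metric.isOpen_ball.uniqueDiffOn, fun x hx => ?_⟩
  by_contra hcon
  push Not at hcon
  have h1 : ∀ᶠ y in 𝓝 x, d y = 0 := Ana.locally_zero ⟨hball x hx, hcon⟩
  have h2 : EqOn d 0 (Metric.ball x0 r) :=
    han.eqOn_zero_of_preconnected_of_eventuallyEq_zero
      (convex_ball x0 r).isPreconnected hx h1
  apply hne
  filter_upwards [Metric.ball_mem_nhds x0 hr] with y hy
  exact h2 hy

end Pool.Agent.H256.RD
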