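import Pool.Agent.H256.RD.Loc

/-!
# `C¹` test functions (RP5-C1, helper308)
-/

set_option autoImplicit false

open MeasureTheory Set Filter Topology
open scoped ContDiff Convolution

noncomputable section

namespace Pool.Agent.H256.RD

/-- approximation of `C¹` test functions by smooth ones -/
lemma approx {U : Set Pl} (hU : IsOpen U) {ψ : Pl → ℂ} (hψ : ContDiff ℝ 1 ψ)
    (hc : HasCompactSupport ψ) (hs : tsupport ψ ⊆ U) :
    ∃ K : Set Pl, IsCompact K ∧ K ⊆ U ∧ tsupport ψ ⊆ K ∧ ∀ ε : ℝ, 0 < ε → ∃ φ : Pl → ℂ, Test U φ ∧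
      tsupport φ ⊆ K ∧ (∀ x, ‖φ x - ψ x‖ ≤ ε) ∧ ∀ j x, ‖pd j φ x - pd j ψ x‖ ≤ ε := by
  obtain ⟨δ, hδ, hδU⟩ := hc.exists_cthickening_subset_open hU hs
  refine ⟨Metric.cthickening δ (tsupport ψ), hc.isCompact.cthickening, hδU,
    Metric.self_subset_cthickening _, fun ε hε => ?_⟩
  -- uniform continuity
  have huc : ∀ {f : Pl → ℂ}, Continuous f → HasCompactSupport f →
      ∃ r : ℝ, 0 < r ∧ ∀ x y, dist x y < r → dist (f x) (f y) ≤ ε := by
    intro f hf hfc
    obtain ⟨r, hr, hr'⟩ := Metric.uniformContinuous_iff.1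
      (hfc.uniformContinuous_of_continuous hf) ε hε
    exact ⟨r, hr, fun x y hxy => (hr' hxy).le⟩
  obtain ⟨r0, hr0, h0⟩ := huc hψ.continuous hc
  obtain ⟨r1, hr1, h1⟩ := huc (pd_continuous hψ 0) (pd_cpt hc 0)
  obtain ⟨r2, hr2, h2⟩ := huc (pd_continuous hψ 1) (pd_cpt hc 1)
  set r : ℝ := min δ (min r0 (min r1 r2)) with hr
  have hrpos : 0 < r := lt_min hδ (lt_min hr0 (lt_min hr1 hr2))
  have hrδ : r ≤ δ := min_le_left _ _
  have hrr0 : r ≤ r0 := (min_le_right _ _).trans (min_le_left _ _)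
  have hrr1 : r ≤ r1 := (min_le_right _ _).trans ((min_le_right _ _).trans (min_le_left _ _))
  have hrr2 : r ≤ r2 := (min_le_right _ _).trans ((min_le_right _ _).trans (min_le_right _ _))
  let b : ContDiffBump (0 : Pl) := ⟨r / 2, r, by positivity, by linarith⟩
  have hbout : b.rOut = r := rfl
  set φ : Pl → ℂ := (b.normed volume) ⋆[ContinuousLinearMap.lsmul ℝ ℝ, volume] ψ with hφ
  have hbl : LocallyIntegrable (b.normed volume) volume :=
    (b.continuous_normed (μ := volume)).locallyIntegrable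
  have hsm : ContDiff ℝ ∞ φ :=
    b.hasCompactSupport_normed.contDiff_convolution_left _ b.contDiff_normed
      hψ.continuous.locallyIntegrable
  have hsupp : Function.support φ ⊆ Metric.cthickening δ (tsupport ψ) := by
    intro x hx
    have h3 := support_convolution_subset (ContinuousLinearMap.lsmul ℝ ℝ) hx
    rw [b.support_normed_eq] at h3
    obtain ⟨y, hy, z, hz, rfl⟩ := Set.mem_add.1 h3
    refine Metric.mem_cthickening_of_dist_le (y + z) z δ _ (subset_tsupport _ hz) ?_
    rw [mem_ball_zero_iff] at hy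
    rw [dist_eq_norm, add_sub_cancel_right]
    exact (hy.le.trans hbout.le).trans hrδ
  have htsupp : tsupport φ ⊆ Metric.cthickening δ (tsupport ψ) :=
    closure_minimal hsupp Metric.isClosed_cthickening
  have hcφ : HasCompactSupport φ :=
    hc.isCompact.cthickening.of_isClosed_subset (isClosed_tsupport _) htsupp
  have hpd : ∀ j, pd j φ = (b.normed volume) ⋆[ContinuousLinearMap.lsmul ℝ ℝ, volume] (pd j ψ) := by
    intro j
    funext x
    have h3 := (hc.hasFDerivAt_convolution_right (ContinuousLinearMap.lsmul ℝ ℝ) hbl hψ x).fderiv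
    show fderiv ℝ φ x (EuclideanSpace.single j (1 : ℝ)) = _
    rw [hφ, h3, convolution_precompR_apply _ hbl (hc.fderiv ℝ) (hψ.continuous_fderiv (by simp))]
    rfl
  refine ⟨φ, ⟨hsm, hcφ, htsupp.trans hδU⟩, htsupp, fun x => ?_, fun j x => ?_⟩
  · rw [← dist_eq_norm]
    refine b.dist_normed_convolution_le hψ.continuous.aestronglyMeasurable (fun y hy => ?_)
    rw [hbout, Metric.mem_ball] at hy
    exact h0 y x (hy.trans_le hrr0)
  · rw [← dist_eq_norm, hpd j]
    refine b.dist_normed_convolution_le (pd_continuous hψ j).aestronglyMeasurable (fun y hy => ?_)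
    rw [hbout, Metric.mem_ball] at hy
    fin_cases j
    · exact h1 y x (hy.trans_le hrr1)
    · exact h2 y x (hy.trans_le hrr2)

theorem c1 : C1Stm := by
  intro G0 G1 h U hU h0 h1 hh hN ψ hψ hc hs
  obtain ⟨K, hK, hKU, hψK, happ⟩ := approx hU hψ hc hs
  obtain ⟨M0, hM0⟩ := hK.exists_bound_of_continuousOn (h0.mono hKU)
  obtain ⟨M1, hM1⟩ := hK.exists_bound_of_continuousOn (h1.mono hKU)
  obtain ⟨M2, hM2⟩ := hK.exists_bound_of_continuousOn (hh.mono hKU)
  set M : ℝ := |M0| + |M1| + |M2| with hM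
  have hM' : 0 ≤ M := by positivity
  have key : ∀ ε : ℝ, 0 < ε → ‖TT G0 G1 h ψ‖ ≤ M * ε * volume.real K := by
    intro ε hε
    obtain ⟨φ, hφ, hφK, ha, hb⟩ := happ ε hε
    have e1 : TT G0 G1 h ψ = -(TT G0 G1 h φ - TT G0 G1 h ψ) := by rw [hN φ hφ]; ring
    have e2 : TT G0 G1 h φ - TT G0 G1 h ψ = ∫ x, (G0 x * (pd 0 φ x - pd 0 ψ x) +
        G1 x * (pd 1 φ x - pd 1 ψ x) + h x * (φ x - ψ x)) := by
      unfold TT
      rw [← integral_sub (TT_integrable hU h0 h1 hh hφ.c1 hφ.cpt hφ.sub)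
        (TT_integrable hU h0 h1 hh hψ hc hs)]
      refine integral_congr_ae (Eventually.of_forall fun x => ?_)
      simp only
      ring
    have e3 : ∫ x, (G0 x * (pd 0 φ x - pd 0 ψ x) + G1 x * (pd 1 φ x - pd 1 ψ x) +
        h x * (φ x - ψ x)) = ∫ x in K, (G0 x * (pd 0 φ x - pd 0 ψ x) +
        G1 x * (pd 1 φ x - pd 1 ψ x) + h x * (φ x - ψ x)) := by
      symm
      refine setIntegral_eq_integral_of_forall_compl_eq_zero (fun x hx => ?_)
      have z1 : φ x = 0 := image_eq_zero_of_notMem_tsupport fun hh' => hx (hφK hh')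
      have z2 : ψ x = 0 := image_eq_zero_of_notMem_tsupport fun hh' => hx (hψK hh')
      have z3 : ∀ j, pd j φ x = 0 := fun j =>
        image_eq_zero_of_notMem_tsupport fun hh' => hx (hφK (pd_tsupport φ j hh'))
      have z4 : ∀ j, pd j ψ x = 0 := fun j =>
        image_eq_zero_of_notMem_tsupport fun hh' => hx (hψK (pd_tsupport ψ j hh'))
      rw [z1, z2, z3, z3, z4, z4]
      ring
    rw [e1, norm_neg, e2, e3]
    refine norm_setIntegral_le_of_norm_le_const hK.measure_lt_top (fun x hx => ?_)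
    have b0 : ‖G0 x * (pd 0 φ x - pd 0 ψ x)‖ ≤ |M0| * ε := by
      rw [norm_mul]
      exact mul_le_mul ((hM0 x hx).trans (le_abs_self _)) (hb 0 x) (norm_nonneg _) (abs_nonneg _)
    have b1 : ‖G1 x * (pd 1 φ x - pd 1 ψ x)‖ ≤ |M1| * ε := by
      rw [norm_mul]
      exact mul_le_mul ((hM1 x hx).trans (le_abs_self _)) (hb 1 x) (norm_nonneg _) (abs_nonneg _)
    have b2 : ‖h x * (φ x - ψ x)‖ ≤ |M2| * ε := by
      rw [norm_mul]
      exact mul_le_mul ((hM2 x hx).trans (le_abs_self _)) (ha x) (norm_nonneg _) (abs_nonneg _)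
    calc _ ≤ ‖G0 x * (pd 0 φ x - pd 0 ψ x)‖ + ‖G1 x * (pd 1 φ x - pd 1 ψ x)‖ +
          ‖h x * (φ x - ψ x)‖ := norm_add₃_le
      _ ≤ |M0| * ε + |M1| * ε + |M2| * ε := by linarith
      _ = M * ε := by rw [hM]; ring
  have hlim : ‖TT G0 G1 h ψ‖ ≤ 0 := by
    refine le_of_forall_pos_le_add (fun η hη => ?_)
    have hV : 0 ≤ volume.real K := measureReal_nonneg
    have h3 := key (η / (M * volume.real K + 1)) (by positivity)
    have h4 : M * (η / (M * volume.real K + 1)) * volume.real K ≤ η := by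
      have : M * (η / (M * volume.real K + 1)) * volume.real K =
          η * ((M * volume.real K) / (M * volume.real K + 1)) := by ring
      rw [this]
      have h5 : (M * volume.real K) / (M * volume.real K + 1) ≤ 1 := by
        rw [div_le_one (by positivity)]
        linarith
      calc η * ((M * volume.real K) / (M * volume.real K + 1)) ≤ η * 1 :=
            mul_le_mul_of_nonneg_left h5 hη.le
        _ = η := mul_one η
    linarith
  exact norm_le_zero_iff.1 hlim

end Pool.Agent.H256.RD
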