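import Mathlib

/-!
# Radó-type removability for elliptic operators in the plane: definitions
-/

open MeasureTheory Set Filter Topology
open scoped ContDiff

noncomputable section

namespace Pool.Agent.H256.RD

/-- The plane. -/
abbrev Pl := EuclideanSpace ℝ (Fin 2)

/-- Partial derivative `∂/∂x_j` of a complex valued function on the plane. -/
def pd (j : Fin 2) (f : Pl → ℂ) : Pl → ℂ :=
  fun x => fderiv ℝ f x (EuclideanSpace.single j (1 : ℝ))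

/-- `∂₀^i ∂₁^j f`. -/
def dd (i j : ℕ) (f : Pl → ℂ) : Pl → ℂ := (pd 0)^[i] ((pd 1)^[j] f)

/-- `φ ∈ C_c^∞(U)`. -/
structure Test (U : Set Pl) (φ : Pl → ℂ) : Prop where
  smooth : ContDiff ℝ ∞ φ
  cpt : HasCompactSupport φ
  sub : tsupport φ ⊆ U

/-- The formal transpose of `P = ∑_{i+j ≤ p} a_{ij} D₀^i D₁^j`, `D_k = -√-1 ∂_k`:
`P^t φ = ∑_{i+j ≤ p} (-1)^{i+j} D₀^i D₁^j (a_{ij} φ) = ∑ (√-1)^{i+j} ∂₀^i ∂₁^j (a_{ij} φ)`. -/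
def Pt (p : ℕ) (a : ℕ → ℕ → Pl → ℂ) (φ : Pl → ℂ) : Pl → ℂ :=
  fun x => ∑ k ∈ Finset.range (p + 1), ∑ q ∈ Finset.HasAntidiagonal.antidiagonal k,
    Complex.I ^ k * dd q.1 q.2 (fun y => a q.1 q.2 y * φ y) x

/-- `P` (of order `p`) is elliptic on `X`. -/
def Elliptic (p : ℕ) (a : ℕ → ℕ → Pl → ℂ) (X : Set Pl) : Prop :=
  ∀ x ∈ X, ∀ ξ : Pl, ξ ≠ 0 →
    ∑ q ∈ Finset.HasAntidiagonal.antidiagonal p, a q.1 q.2 x * ((ξ 0 : ℝ) : ℂ) ^ q.1 * ((ξ 1 : ℝ) : ℂ) ^ q.2 ≠ 0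

/-- `P f = 0` on the open set `U` in the sense of distributions. -/
def PZero (p : ℕ) (a : ℕ → ℕ → Pl → ℂ) (f : Pl → ℂ) (U : Set Pl) : Prop :=
  ∀ φ, Test U φ → ∫ x, f x * Pt p a φ x = 0

/-- The main theorem. -/
def MainStm : Prop :=
  ∀ (p : ℕ), 1 ≤ p → ∀ (X : Set Pl), IsOpen X → ∀ (a : ℕ → ℕ → Pl → ℂ),
    (∀ i j, AnalyticOnNhd ℝ (a i j) X) → Elliptic p a X →
    ∀ (O : Set Pl), IsOpen O → O ⊆ X → ∀ f : Pl → ℂ, ContDiffOn ℝ (p - 1 : ℕ) f O →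
      PZero p a f (O \ {x | f x = 0}) → PZero p a f O

end Pool.Agent.H256.RD
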