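import Pool.Agent.H256.RD.Stm

/-!
# Energy estimate

Written by helper30 (project RP of helper256).
-/

open MeasureTheory Set Filter Topology
open scoped ContDiff

noncomputable section

namespace Pool.Agent.H256.RD

namespace EnAux

/-- cut-off function of `|g|²` -/
def FF (ε s : ℝ) : ℝ := (1 / 2) * (max (s - ε ^ 2) 0 / (ε ^ 2 + max (s - ε ^ 2) 0)) ^ 2

/-- its derivative -/
def FD (ε s : ℝ) : ℝ := max (s - ε ^ 2) 0 * ε ^ 2 / (ε ^ 2 + max (s - ε ^ 2) 0) ^ 3

theorem FF_nonneg (ε s : ℝ) : 0 ≤ FF ε s := by unfold FF; positivity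

theorem FF_low {ε s : ℝ} (h : s ≤ ε ^ 2) : FF ε s = 0 := by
  unfold FF; rw [max_eq_right (by linarith)]; simp

theorem FD_low {ε s : ℝ} (h : s ≤ ε ^ 2) : FD ε s = 0 := by
  unfold FD; rw [max_eq_right (by linarith)]; simp

theorem FF_high {ε s : ℝ} (h : ε ^ 2 ≤ s) :
    FF ε s = (1 / 2) * ((s - ε ^ 2) / s) ^ 2 := by
  unfold FF; rw [max_eq_left (by linarith)]; congr 3; ring

theorem FD_high {ε s : ℝ} (h : ε ^ 2 ≤ s) :
    FD ε s = (s - ε ^ 2) * ε ^ 2 / s ^ 3 := by
  unfold FD; rw [max_eq_left (by linarith)]; congr 2; ring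

theorem FF_hasDerivAt {ε : ℝ} (hε : 0 < ε) (s : ℝ) : HasDerivAt (FF ε) (FD ε s) s := by
  have he : 0 < ε ^ 2 := by positivity
  rcases lt_trichotomy s (ε ^ 2) with h | h | h
  · rw [FD_low h.le]
    refine (hasDerivAt_const s (0 : ℝ)).congr_of_eventuallyEq ?_
    filter_upwards [Iio_mem_nhds h] with t ht
    exact FF_low (le_of_lt ht)
  · rw [FD_low h.le]
    rw [hasDerivAt_iff_isLittleO_nhds_zero]
    refine Asymptotics.IsLittleO.of_bound fun c hc => ?_
    filter_upwards [Metric.ball_mem_nhds (0 : ℝ) (show 0 < c * ε ^ 4 by positivity)] with t ht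
    rw [Metric.mem_ball, dist_zero_right, Real.norm_eq_abs] at ht
    rw [FF_low h.le, smul_zero, sub_zero, sub_zero, Real.norm_eq_abs, Real.norm_eq_abs,
      abs_of_nonneg (FF_nonneg _ _)]
    rcases le_total t 0 with h0 | h0
    · rw [FF_low (by linarith)]; positivity
    · rw [FF_high (by linarith), h]
      have h1 : (ε ^ 2 + t - ε ^ 2) = t := by ring
      rw [h1, abs_of_nonneg h0]
      rw [abs_of_nonneg h0] at ht
      have h2 : t / (ε ^ 2 + t) ≤ t / ε ^ 2 := by
        apply div_le_div_of_nonneg_left h0 he; linarith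
      have h3 : (t / (ε ^ 2 + t)) ^ 2 ≤ (t / ε ^ 2) ^ 2 :=
        pow_le_pow_left₀ (by positivity) h2 2
      have h4 : (t / ε ^ 2) ^ 2 = t * (t / ε ^ 4) := by field_simp
      have h5 : t / ε ^ 4 ≤ c := by
        rw [div_le_iff₀ (by positivity)]; exact ht.le
      nlinarith [mul_le_mul_of_nonneg_left h5 h0]
  · rw [FD_high h.le]
    have hs : 0 < s := he.trans h
    have h0 : HasDerivAt (fun t : ℝ => (t - ε ^ 2) / t)
        ((1 * s - (s - ε ^ 2) * 1) / s ^ 2) s :=
      ((hasDerivAt_id' s).sub_const (ε ^ 2)).fun_div (hasDerivAt_id' s) hs.ne'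
    have h1 : HasDerivAt (fun t : ℝ => (1 / 2) * ((t - ε ^ 2) / t) ^ 2)
        ((1 / 2) * (2 * ((s - ε ^ 2) / s) ^ 1 * ((1 * s - (s - ε ^ 2) * 1) / s ^ 2))) s := by
      have := (h0.fun_pow 2).const_mul (1 / 2 : ℝ)
      exact this.congr_deriv (by norm_num)
    have h2 : (1 / 2) * (2 * ((s - ε ^ 2) / s) ^ 1 * ((1 * s - (s - ε ^ 2) * 1) / s ^ 2))
        = (s - ε ^ 2) * ε ^ 2 / s ^ 3 := by
      field_simp; ring
    rw [h2] at h1
    refine h1.congr_of_eventuallyEq ?_
    filter_upwards [Ioi_mem_nhds h] with t ht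
    exact FF_high (le_of_lt ht)

theorem FD_cont {ε : ℝ} (hε : 0 < ε) : Continuous (FD ε) := by
  unfold FD
  have he : 0 < ε ^ 2 := by positivity
  have h : ∀ s : ℝ, (ε ^ 2 + max (s - ε ^ 2) 0) ^ 3 ≠ 0 := fun s => by positivity
  exact Continuous.div (by fun_prop) (by fun_prop) h

theorem FF_contDiff {ε : ℝ} (hε : 0 < ε) : ContDiff ℝ 1 (FF ε) := by
  rw [contDiff_one_iff_deriv]
  refine ⟨fun s => (FF_hasDerivAt hε s).differentiableAt, ?_⟩
  have : deriv (FF ε) = FD ε := funext fun s => (FF_hasDerivAt hε s).deriv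
  rw [this]; exact FD_cont hε

/-- `Ψ = 2 (s F)'` -/
def PS (ε s : ℝ) : ℝ := 2 * FF ε s + 2 * s * FD ε s

theorem PS_low {ε s : ℝ} (h : s ≤ ε ^ 2) : PS ε s = 0 := by
  unfold PS; rw [FF_low h, FD_low h]; ring

theorem PS_high {ε s : ℝ} (hε : 0 < ε) (h : ε ^ 2 ≤ s) : PS ε s = 1 - (ε ^ 2 / s) ^ 2 := by
  have hs : 0 < s := lt_of_lt_of_le (by positivity) h
  unfold PS; rw [FF_high h, FD_high h]; field_simp; ring

theorem PS_nonneg {ε s : ℝ} (hε : 0 < ε) : 0 ≤ PS ε s := by
  rcases le_total s (ε ^ 2) with h | h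
  · rw [PS_low h]
  · rw [PS_high hε h]
    have hs : 0 < s := lt_of_lt_of_le (by positivity) h
    have h1 : ε ^ 2 / s ≤ 1 := by rw [div_le_one hs]; exact h
    have h2 : 0 ≤ ε ^ 2 / s := by positivity
    nlinarith

theorem PS_le {ε s : ℝ} (hε : 0 < ε) : PS ε s ≤ 1 := by
  rcases le_total s (ε ^ 2) with h | h
  · rw [PS_low h]; norm_num
  · rw [PS_high hε h]
    nlinarith [sq_nonneg (ε ^ 2 / s)]

theorem FF_le {ε s : ℝ} (hε : 0 < ε) : FF ε s ≤ PS ε s / 2 := by
  rcases le_total s (ε ^ 2) with h | h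
  · rw [PS_low h, FF_low h]; norm_num
  · have hs : 0 < s := lt_of_lt_of_le (by positivity) h
    unfold PS
    rw [FD_high h]
    have : 0 ≤ s * ((s - ε ^ 2) * ε ^ 2 / s ^ 3) := by
      have : 0 ≤ s - ε ^ 2 := by linarith
      positivity
    linarith

theorem PS_ge {ε s : ℝ} (hε : 0 < ε) (h : (2 * ε) ^ 2 ≤ s) : 15 / 16 ≤ PS ε s := by
  have h1 : ε ^ 2 ≤ s := by nlinarith [sq_nonneg ε]
  have hs : 0 < s := lt_of_lt_of_le (by positivity) h1
  rw [PS_high hε h1]
  have h2 : ε ^ 2 / s ≤ 1 / 4 := by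
    rw [div_le_iff₀ hs]; nlinarith
  have h3 : 0 ≤ ε ^ 2 / s := by positivity
  nlinarith

/-- directional derivative of a real function -/
def D (k : Fin 2) (f : Pl → ℝ) (x : Pl) : ℝ := fderiv ℝ f x (EuclideanSpace.single k (1 : ℝ))

theorem D_mul {k : Fin 2} {f h : Pl → ℝ} {x : Pl} (hf : DifferentiableAt ℝ f x)
    (hh : DifferentiableAt ℝ h x) :
    D k (fun y => f y * h y) x = D k f x * h x + f x * D k h x := by
  unfold D
  rw [fderiv_fun_mul hf hh]
  simp
  ring

theorem D_sub {k : Fin 2} {f h : Pl → ℝ} {x : Pl} (hf : DifferentiableAt ℝ f x)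
    (hh : DifferentiableAt ℝ h x) :
    D k (fun y => f y - h y) x = D k f x - D k h x := by
  unfold D
  rw [fderiv_fun_sub hf hh]
  simp

theorem D_add {k : Fin 2} {f h : Pl → ℝ} {x : Pl} (hf : DifferentiableAt ℝ f x)
    (hh : DifferentiableAt ℝ h x) :
    D k (fun y => f y + h y) x = D k f x + D k h x := by
  unfold D
  rw [fderiv_fun_add hf hh]
  simp

theorem D_smooth {k : Fin 2} {f : Pl → ℝ} (hf : ContDiff ℝ ∞ f) : ContDiff ℝ ∞ (D k f) := by
  unfold D
  exact (hf.fderiv_right (m := ∞) (by simp)).clm_apply contDiff_const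

theorem D_comm {f : Pl → ℝ} (hf : ContDiff ℝ ∞ f) (x : Pl) :
    D 0 (D 1 f) x = D 1 (D 0 f) x := by
  have hsym : IsSymmSndFDerivAt ℝ f x :=
    (hf.contDiffAt (x := x)).isSymmSndFDerivAt (by
      rw [minSmoothness_of_isRCLikeNormedField]; exact ENat.LEInfty.out)
  have hd : DifferentiableAt ℝ (fderiv ℝ f) x :=
    ((hf.fderiv_right (m := ∞) (by simp)).differentiable (by simp)) x
  have key : ∀ (a b : Fin 2), D a (D b f) x
      = fderiv ℝ (fderiv ℝ f) x (EuclideanSpace.single a (1 : ℝ))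
          (EuclideanSpace.single b (1 : ℝ)) := by
    intro a b
    unfold D
    rw [fderiv_clm_apply hd (differentiableAt_const _)]
    simp
  rw [key, key]
  exact hsym _ _

theorem D_int {k : Fin 2} {f : Pl → ℝ} (hf : ContDiff ℝ 1 f) (hc : HasCompactSupport f) :
    ∫ x, D k f x = 0 := by
  have hcont : Continuous (D k f) := by
    unfold D
    exact (hf.continuous_fderiv (by simp)).clm_apply continuous_const
  have hcs : HasCompactSupport (D k f) := hc.fderiv_apply (𝕜 := ℝ) _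
  have h1 : Integrable (fun x : Pl => fderiv ℝ (fun _ : Pl => (1 : ℝ)) x
      (EuclideanSpace.single k (1 : ℝ)) * f x) volume := by
    have e : (fun x : Pl => fderiv ℝ (fun _ : Pl => (1 : ℝ)) x
      (EuclideanSpace.single k (1 : ℝ)) * f x) = fun _ => (0 : ℝ) := by
      funext x; simp
    rw [e]; exact integrable_zero _ _ _
  have h2 : Integrable (fun x : Pl => (1 : ℝ) * fderiv ℝ f x
      (EuclideanSpace.single k (1 : ℝ))) volume := by
    have e : (fun x : Pl => (1 : ℝ) * fderiv ℝ f x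
      (EuclideanSpace.single k (1 : ℝ))) = D k f := by
      funext x; simp [D]
    rw [e]; exact hcont.integrable_of_hasCompactSupport hcs
  have h3 : Integrable (fun x : Pl => (1 : ℝ) * f x) volume := by
    have e : (fun x : Pl => (1 : ℝ) * f x) = f := by
      funext x; simp
    rw [e]; exact hf.continuous.integrable_of_hasCompactSupport hc
  have h := integral_mul_fderiv_eq_neg_fderiv_mul_of_integrable (μ := (volume : Measure Pl))
    (f := fun _ : Pl => (1 : ℝ)) (g := f) (v := EuclideanSpace.single k (1 : ℝ))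
    h1 h2 h3 (fun x _ => differentiableAt_const _) (fun x _ => hf.differentiable (by simp) x)
  have e1 : ∀ x : Pl, (1 : ℝ) * fderiv ℝ f x (EuclideanSpace.single k (1 : ℝ)) = D k f x :=
    fun x => by simp [D]
  have e2 : ∀ x : Pl, fderiv ℝ (fun _ : Pl => (1 : ℝ)) x
      (EuclideanSpace.single k (1 : ℝ)) * f x = 0 := fun x => by simp
  simp only [e1, e2] at h
  rw [h]; simp

theorem D_comp {ε : ℝ} (hε : 0 < ε) {k : Fin 2} {s : Pl → ℝ} {x : Pl}
    (hs : DifferentiableAt ℝ s x) :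
    D k (fun y => FF ε (s y)) x = FD ε (s x) * D k s x := by
  have h : HasFDerivAt (fun y => FF ε (s y)) (FD ε (s x) • fderiv ℝ s x) x :=
    (FF_hasDerivAt hε (s x)).comp_hasFDerivAt x hs.hasFDerivAt
  unfold D
  rw [h.fderiv]
  simp

/-- the flux -/
def AA (ε : ℝ) (χ u v : Pl → ℝ) (j : Fin 2) (x : Pl) : ℝ :=
  (χ x * χ x) * FF ε (u x * u x + v x * v x) * (u x * D j v x - v x * D j u x)

/-- its curl -/
def EE (ε : ℝ) (χ u v : Pl → ℝ) (x : Pl) : ℝ :=
  (χ x * χ x) * PS ε (u x * u x + v x * v x) * (D 0 u x * D 1 v x - D 1 u x * D 0 v x)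
  + 2 * χ x * D 0 χ x * FF ε (u x * u x + v x * v x) * (u x * D 1 v x - v x * D 1 u x)
  - 2 * χ x * D 1 χ x * FF ε (u x * u x + v x * v x) * (u x * D 0 v x - v x * D 0 u x)

theorem D_AA {ε : ℝ} (hε : 0 < ε) {χ u v : Pl → ℝ} (hχ : ContDiff ℝ ∞ χ) (hu : ContDiff ℝ ∞ u)
    (hv : ContDiff ℝ ∞ v) (j k : Fin 2) (x : Pl) :
    D k (AA ε χ u v j) x =
      2 * χ x * D k χ x * FF ε (u x * u x + v x * v x) * (u x * D j v x - v x * D j u x)
      + (χ x * χ x) * (FD ε (u x * u x + v x * v x) * (2 * u x * D k u x + 2 * v x * D k v x))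
          * (u x * D j v x - v x * D j u x)
      + (χ x * χ x) * FF ε (u x * u x + v x * v x) *
          ((D k u x * D j v x + u x * D k (D j v) x) - (D k v x * D j u x + v x * D k (D j u) x)) := by
  have dχ : DifferentiableAt ℝ χ x := hχ.differentiable (by simp) x
  have du : DifferentiableAt ℝ u x := hu.differentiable (by simp) x
  have dv : DifferentiableAt ℝ v x := hv.differentiable (by simp) x
  have duj : DifferentiableAt ℝ (D j u) x := (D_smooth hu).differentiable (by simp) x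
  have dvj : DifferentiableAt ℝ (D j v) x := (D_smooth hv).differentiable (by simp) x
  have ds : DifferentiableAt ℝ (fun y => u y * u y + v y * v y) x :=
    (du.mul du).add (dv.mul dv)
  have dF : DifferentiableAt ℝ (fun y => FF ε (u y * u y + v y * v y)) x := by
    exact DifferentiableAt.comp x (g := FF ε) (f := fun y => u y * u y + v y * v y)
      ((FF_hasDerivAt hε _).differentiableAt) ds
  have e1 : D k (AA ε χ u v j) x
      = D k (fun y => ((χ y * χ y) * FF ε (u y * u y + v y * v y))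
          * (u y * D j v y - v y * D j u y)) x := rfl
  rw [e1, D_mul ((dχ.fun_mul dχ).fun_mul dF) ((du.fun_mul dvj).fun_sub (dv.fun_mul duj)),
    D_mul (dχ.fun_mul dχ) dF, D_mul dχ dχ, D_comp hε ds,
    D_add (du.fun_mul du) (dv.fun_mul dv), D_mul du du, D_mul dv dv,
    D_sub (du.fun_mul dvj) (dv.fun_mul duj), D_mul du dvj, D_mul dv duj]
  ring

theorem EE_eq {ε : ℝ} (hε : 0 < ε) {χ u v : Pl → ℝ} (hχ : ContDiff ℝ ∞ χ) (hu : ContDiff ℝ ∞ u)
    (hv : ContDiff ℝ ∞ v) (x : Pl) :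
    EE ε χ u v x = D 0 (AA ε χ u v 1) x - D 1 (AA ε χ u v 0) x := by
  rw [D_AA hε hχ hu hv, D_AA hε hχ hu hv, D_comm hu, D_comm hv]
  unfold EE PS
  ring

theorem AA_contDiff {ε : ℝ} (hε : 0 < ε) {χ u v : Pl → ℝ} (hχ : ContDiff ℝ ∞ χ)
    (hu : ContDiff ℝ ∞ u) (hv : ContDiff ℝ ∞ v) (j : Fin 2) : ContDiff ℝ 1 (AA ε χ u v j) := by
  have hχ' : ContDiff ℝ 1 χ := hχ.of_le (by exact ENat.LEInfty.out)
  have hu' : ContDiff ℝ 1 u := hu.of_le (by exact ENat.LEInfty.out)
  have hv' : ContDiff ℝ 1 v := hv.of_le (by exact ENat.LEInfty.out)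
  have huj : ContDiff ℝ 1 (D j u) := (D_smooth hu).of_le (by exact ENat.LEInfty.out)
  have hvj : ContDiff ℝ 1 (D j v) := (D_smooth hv).of_le (by exact ENat.LEInfty.out)
  have hF : ContDiff ℝ 1 (fun y => FF ε (u y * u y + v y * v y)) :=
    (FF_contDiff hε).comp ((hu'.mul hu').add (hv'.mul hv'))
  exact ((hχ'.mul hχ').mul hF).mul ((hu'.mul hvj).sub (hv'.mul huj))

theorem AA_cs {ε : ℝ} {χ u v : Pl → ℝ} (hc : HasCompactSupport χ) (j : Fin 2) :
    HasCompactSupport (AA ε χ u v j) := by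
  have h1 : HasCompactSupport (fun x => χ x * (χ x * FF ε (u x * u x + v x * v x)
      * (u x * D j v x - v x * D j u x))) := hc.mul_right
  have e : AA ε χ u v j = (fun x => χ x * (χ x * FF ε (u x * u x + v x * v x)
      * (u x * D j v x - v x * D j u x))) := by
    funext x; unfold AA; ring
  rw [e]; exact h1

theorem D_continuous {k : Fin 2} {f : Pl → ℝ} (hf : ContDiff ℝ 1 f) : Continuous (D k f) := by
  unfold D
  exact (hf.continuous_fderiv (by simp)).clm_apply continuous_const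

theorem D_integrable {k : Fin 2} {f : Pl → ℝ} (hf : ContDiff ℝ 1 f) (hc : HasCompactSupport f) :
    Integrable (D k f) (volume : Measure Pl) :=
  (D_continuous hf).integrable_of_hasCompactSupport (hc.fderiv_apply (𝕜 := ℝ) _)

theorem EE_int {ε : ℝ} (hε : 0 < ε) {χ u v : Pl → ℝ} (hχ : ContDiff ℝ ∞ χ)
    (hc : HasCompactSupport χ) (hu : ContDiff ℝ ∞ u) (hv : ContDiff ℝ ∞ v) :
    Integrable (EE ε χ u v) (volume : Measure Pl) ∧ ∫ x, EE ε χ u v x = 0 := by
  have e : EE ε χ u v = fun x => D 0 (AA ε χ u v 1) x - D 1 (AA ε χ u v 0) x :=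
    funext fun x => EE_eq hε hχ hu hv x
  have h0 := D_integrable (k := 0) (AA_contDiff hε hχ hu hv 1) (AA_cs hc 1)
  have h1 := D_integrable (k := 1) (AA_contDiff hε hχ hu hv 0) (AA_cs hc 0)
  rw [e]
  refine ⟨h0.sub h1, ?_⟩
  rw [integral_sub h0 h1, D_int (AA_contDiff hε hχ hu hv 1) (AA_cs hc 1),
    D_int (AA_contDiff hε hχ hu hv 0) (AA_cs hc 0), sub_zero]

/-- The algebra of the estimate. -/
theorem alg {c X c0 c1 L ψ F β A M p0 q1 J J0 J1 sg : ℝ} (hsg : sg = 1 ∨ sg = -1)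
    (hβ : 0 < β) (hA : 0 ≤ A) (hM : 0 ≤ M) (hL : 0 ≤ L) (hψ0 : 0 ≤ ψ) (hψ1 : ψ ≤ 1)
    (hF0 : 0 ≤ F) (hF : F ≤ ψ / 2) (hc : |c| ≤ X) (hc0 : |c0| ≤ L) (hc1 : |c1| ≤ L)
    (hp0 : 0 ≤ p0) (hq1 : q1 ≤ A * p0 + M) (hJ : β * p0 ^ 2 - M * p0 ≤ sg * J)
    (hJ0 : |J0| ≤ A * p0) (hJ1 : |J1| ≤ A * q1) :
    β / 2 * ((c * c) * ψ * p0 ^ 2) ≤
      sg * ((c * c) * ψ * J + 2 * c * c0 * F * J1 - 2 * c * c1 * F * J0)
        + ((M * X + L * A ^ 2 + L * A) ^ 2 / (2 * β) + L * A * M * X) := by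
  have hX : 0 ≤ X := (abs_nonneg c).trans hc
  have hsg1 : |sg| = 1 := by rcases hsg with rfl | rfl <;> simp
  have h1 : |2 * c * c0 * F * J1| ≤ |c| * L * ψ * (A * (A * p0 + M)) := by
    have e : |2 * c * c0 * F * J1| = 2 * |c| * |c0| * F * |J1| := by
      simp only [abs_mul, abs_of_nonneg hF0, abs_two]
    rw [e]
    have h2 : |J1| ≤ A * (A * p0 + M) := hJ1.trans (mul_le_mul_of_nonneg_left hq1 hA)
    have h3 : 0 ≤ A * (A * p0 + M) := (abs_nonneg _).trans h2
    calc 2 * |c| * |c0| * F * |J1| ≤ 2 * |c| * L * (ψ / 2) * (A * (A * p0 + M)) := by gcongr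
      _ = _ := by ring
  have h2 : |2 * c * c1 * F * J0| ≤ |c| * L * ψ * (A * p0) := by
    have e : |2 * c * c1 * F * J0| = 2 * |c| * |c1| * F * |J0| := by
      simp only [abs_mul, abs_of_nonneg hF0, abs_two]
    rw [e]
    calc 2 * |c| * |c1| * F * |J0| ≤ 2 * |c| * L * (ψ / 2) * (A * p0) := by gcongr
      _ = _ := by ring
  have h3 : -(|c| * L * ψ * (A * (A * p0 + M))) ≤ sg * (2 * c * c0 * F * J1) := by
    have := neg_abs_le (sg * (2 * c * c0 * F * J1))
    rw [abs_mul, hsg1, one_mul] at this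
    linarith
  have h4 : -(|c| * L * ψ * (A * p0)) ≤ -(sg * (2 * c * c1 * F * J0)) := by
    have := le_abs_self (sg * (2 * c * c1 * F * J0))
    rw [abs_mul, hsg1, one_mul] at this
    linarith
  have h5 : (c * c) * ψ * (β * p0 ^ 2 - M * p0) ≤ sg * ((c * c) * ψ * J) := by
    have : 0 ≤ (c * c) * ψ := mul_nonneg (mul_self_nonneg c) hψ0
    nlinarith [mul_le_mul_of_nonneg_left hJ this]
  set a : ℝ := |c| * p0 with ha
  have ha0 : 0 ≤ a := by positivity
  have hcc : c * c = |c| * |c| := (abs_mul_abs_self c).symm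
  set Q : ℝ := M * X + L * A ^ 2 + L * A with hQ
  have hQ0 : 0 ≤ Q := by positivity
  have key : ψ * (β / 2 * a ^ 2) ≤ ψ * (β * a ^ 2 - Q * a - L * A * M * X)
      + (Q ^ 2 / (2 * β) + L * A * M * X) := by
    have h6 : 0 ≤ β / 2 * a ^ 2 - Q * a + Q ^ 2 / (2 * β) := by
      have : β / 2 * a ^ 2 - Q * a + Q ^ 2 / (2 * β) = (β * a - Q) ^ 2 / (2 * β) := by
        field_simp; ring
      rw [this]; positivity
    have h7 : 0 ≤ Q ^ 2 / (2 * β) := by positivity
    have h8 : 0 ≤ L * A * M * X := by positivity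
    have h9 : 0 ≤ 1 - ψ := by linarith
    nlinarith [mul_nonneg hψ0 h6, mul_nonneg h9 h7, mul_nonneg h9 h8]
  have e1 : β / 2 * ((c * c) * ψ * p0 ^ 2) = ψ * (β / 2 * a ^ 2) := by
    rw [ha, hcc]; ring
  have e2 : ψ * (β * a ^ 2 - Q * a - L * A * M * X) ≤
      (c * c) * ψ * (β * p0 ^ 2 - M * p0) - |c| * L * ψ * (A * (A * p0 + M))
        - |c| * L * ψ * (A * p0) := by
    have e3 : (c * c) * ψ * (β * p0 ^ 2 - M * p0) - |c| * L * ψ * (A * (A * p0 + M))
        - |c| * L * ψ * (A * p0)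
        = ψ * (β * a ^ 2 - (M * |c| + L * A ^ 2 + L * A) * a - L * A * M * |c|) := by
      rw [ha, hcc]; ring
    rw [e3]
    refine mul_le_mul_of_nonneg_left ?_ hψ0
    have h6 : M * |c| ≤ M * X := mul_le_mul_of_nonneg_left hc hM
    have h7 : L * A * M * |c| ≤ L * A * M * X := mul_le_mul_of_nonneg_left hc (by positivity)
    nlinarith [mul_le_mul_of_nonneg_right h6 ha0]
  rw [e1]
  calc ψ * (β / 2 * a ^ 2) ≤ _ := key
    _ ≤ _ := by
      have : sg * ((c * c) * ψ * J + 2 * c * c0 * F * J1 - 2 * c * c1 * F * J0)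
        = sg * ((c * c) * ψ * J) + sg * (2 * c * c0 * F * J1)
          - sg * (2 * c * c1 * F * J0) := by ring
      rw [this]
      linarith

end EnAux

theorem pd_re {g : Pl → ℂ} (hg : ContDiff ℝ ∞ g) (k : Fin 2) (x : Pl) :
    (pd k g x).re = EnAux.D k (fun y => (g y).re) x ∧
      (pd k g x).im = EnAux.D k (fun y => (g y).im) x := by
  have hd : HasFDerivAt g (fderiv ℝ g x) x := (hg.differentiable (by simp) x).hasFDerivAt
  have h1 : HasFDerivAt (fun y => (g y).re) (Complex.reCLM.comp (fderiv ℝ g x)) x :=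
    Complex.reCLM.hasFDerivAt.comp x hd
  have h2 : HasFDerivAt (fun y => (g y).im) (Complex.imCLM.comp (fderiv ℝ g x)) x :=
    Complex.imCLM.hasFDerivAt.comp x hd
  unfold pd EnAux.D
  rw [h1.fderiv, h2.fderiv]
  simp

open EnAux in
theorem en : EnStm := by
  intro χ hχ hχc τ s β A M hs hβ hA hM hτ
  -- bounds for the cut-off function
  obtain ⟨X, hX⟩ := hχ.continuous.bounded_above_of_compact_support hχc
  have hX' : ∀ x, |χ x| ≤ X := hX
  have hX0 : 0 ≤ X := (abs_nonneg _).trans (hX' 0)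
  have hL : ∀ k : Fin 2, ∃ C, ∀ x, |D k χ x| ≤ C := by
    intro k
    have h1 : ContDiff ℝ 1 χ := hχ.of_le (by exact ENat.LEInfty.out)
    obtain ⟨C, hC⟩ := (D_continuous (k := k) h1).bounded_above_of_compact_support
      (hχc.fderiv_apply (𝕜 := ℝ) _)
    exact ⟨C, hC⟩
  obtain ⟨L0, hL0⟩ := hL 0
  obtain ⟨L1, hL1⟩ := hL 1
  set L : ℝ := max L0 L1 with hLdef
  have hLL0 : ∀ x, |D 0 χ x| ≤ L := fun x => (hL0 x).trans (le_max_left _ _)
  have hLL1 : ∀ x, |D 1 χ x| ≤ L := fun x => (hL1 x).trans (le_max_right _ _)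
  have hLnn : 0 ≤ L := (abs_nonneg _).trans (hLL0 0)
  set K : Set Pl := tsupport χ with hK
  have hKc : IsCompact K := hχc
  have hKm : MeasurableSet K := hKc.measurableSet
  set C1 : ℝ := (M * X + L * A ^ 2 + L * A) ^ 2 / (2 * β) + L * A * M * X with hC1
  have hC10 : 0 ≤ C1 := by positivity
  set c2 : ℝ := 16 / 15 * (1 + 2 * A ^ 2) * (2 / β) with hc2
  have hc20 : 0 ≤ c2 := by positivity
  set C3 : ℝ := c2 * C1 + 2 * M ^ 2 * X ^ 2 with hC3
  have hC30 : 0 ≤ C3 := by positivity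
  refine ⟨C3 * (volume : Measure Pl).real K, ?_⟩
  intro g ε hg hε hgA hgM
  set u : Pl → ℝ := fun y => (g y).re with hu
  set v : Pl → ℝ := fun y => (g y).im with hv
  have hus : ContDiff ℝ ∞ u := Complex.reCLM.contDiff.comp hg
  have hvs : ContDiff ℝ ∞ v := Complex.imCLM.contDiff.comp hg
  have hsq : ∀ x, u x * u x + v x * v x = ‖g x‖ ^ 2 := by
    intro x
    rw [← Complex.normSq_eq_norm_sq, Complex.normSq_apply]
  -- pointwise inequality for the density
  have hpt : ∀ x, β / 2 * ((χ x * χ x) * PS ε (u x * u x + v x * v x) * ‖pd 0 g x‖ ^ 2) ≤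
      s * EE ε χ u v x + K.indicator (fun _ => C1) x := by
    intro x
    by_cases hx : x ∈ K
    · rw [indicator_of_mem hx]
      rcases lt_or_ge (‖g x‖) ε with hlt | hge
      · have h1 : u x * u x + v x * v x ≤ ε ^ 2 := by
          rw [hsq]; exact pow_le_pow_left₀ (norm_nonneg _) hlt.le 2
        unfold EE
        rw [PS_low h1, FF_low h1]
        simpa using hC10
      · unfold EE
        have hr := hgM x hx hge
        set r : ℂ := pd 1 g x - τ x * pd 0 g x with hrdef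
        have h0 := pd_re hg 0 x
        have h1 := pd_re hg 1 x
        have hp0 : ‖pd 0 g x‖ ^ 2 = (pd 0 g x).re * (pd 0 g x).re
            + (pd 0 g x).im * (pd 0 g x).im := by
          rw [← Complex.normSq_eq_norm_sq, Complex.normSq_apply]
        have hg1 : pd 1 g x = τ x * pd 0 g x + r := by rw [hrdef]; ring
        have hq1 : ‖pd 1 g x‖ ≤ A * ‖pd 0 g x‖ + M := by
          rw [hg1]
          refine (norm_add_le _ _).trans (add_le_add ?_ hr)
          rw [norm_mul]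
          exact mul_le_mul_of_nonneg_right (hτ x hx).2 (norm_nonneg _)
        have him : ∀ a b : ℂ, |a.re * b.im - a.im * b.re| ≤ ‖a‖ * ‖b‖ := by
          intro a b
          have e : a.re * b.im - a.im * b.re = ((starRingEnd ℂ) a * b).im := by
            simp [Complex.mul_im]; ring
          rw [e]
          refine (Complex.abs_im_le_norm _).trans ?_
          rw [norm_mul, Complex.norm_conj]
        refine alg (q1 := ‖pd 1 g x‖) hs hβ hA hM hLnn (PS_nonneg hε) (PS_le hε) (FF_nonneg _ _)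
          (FF_le hε) (hX' x) (hLL0 x) (hLL1 x) (norm_nonneg _) hq1 ?_ ?_ ?_
        · -- the Jacobian
          have e1 : D 0 u x * D 1 v x - D 1 u x * D 0 v x
              = (τ x).im * ‖pd 0 g x‖ ^ 2
                + ((pd 0 g x).re * r.im - (pd 0 g x).im * r.re) := by
            rw [hp0, ← h0.1, ← h0.2, ← h1.1, ← h1.2, hg1]
            simp only [Complex.add_re, Complex.add_im, Complex.mul_re, Complex.mul_im]
            ring
          rw [e1]
          have h2 := him (pd 0 g x) r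
          have h3 : ‖pd 0 g x‖ * ‖r‖ ≤ ‖pd 0 g x‖ * M :=
            mul_le_mul_of_nonneg_left hr (norm_nonneg _)
          have h4 := (hτ x hx).1
          have h5 : β * ‖pd 0 g x‖ ^ 2 ≤ s * (τ x).im * ‖pd 0 g x‖ ^ 2 :=
            mul_le_mul_of_nonneg_right h4 (by positivity)
          have h6 : -(‖pd 0 g x‖ * M) ≤ s * ((pd 0 g x).re * r.im - (pd 0 g x).im * r.re) := by
            have hs1 : |s| = 1 := by rcases hs with h | h <;> simp [h]
            have := neg_abs_le (s * ((pd 0 g x).re * r.im - (pd 0 g x).im * r.re))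
            rw [abs_mul, hs1, one_mul] at this
            linarith
          linarith
        · have e1 : u x * D 0 v x - v x * D 0 u x
              = (g x).re * (pd 0 g x).im - (g x).im * (pd 0 g x).re := by
            rw [h0.1, h0.2]
          rw [e1]
          exact (him _ _).trans (mul_le_mul_of_nonneg_right (hgA x hx) (norm_nonneg _))
        · have e1 : u x * D 1 v x - v x * D 1 u x
              = (g x).re * (pd 1 g x).im - (g x).im * (pd 1 g x).re := by
            rw [h1.1, h1.2]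
          rw [e1]
          exact (him _ _).trans (mul_le_mul_of_nonneg_right (hgA x hx) (norm_nonneg _))
    · rw [indicator_of_notMem hx]
      have h0 : χ x = 0 := image_eq_zero_of_notMem_tsupport hx
      unfold EE
      rw [h0]
      simp
  -- the comparison function
  set R : Pl → ℝ := fun x => c2 * s * EE ε χ u v x + K.indicator (fun _ => C3) x with hR
  have hEE := EE_int hε hχ hχc hus hvs
  have hKint : Integrable (K.indicator (fun _ => C3)) (volume : Measure Pl) := by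
    rw [integrable_indicator_iff hKm]
    exact integrableOn_const hKc.measure_lt_top.ne
  have hRint : Integrable R (volume : Measure Pl) := (hEE.1.const_mul (c2 * s)).add hKint
  have hind : ∀ x, K.indicator (fun _ => C3) x
      = c2 * K.indicator (fun _ => C1) x + K.indicator (fun _ => 2 * M ^ 2 * X ^ 2) x := by
    intro x
    by_cases hx : x ∈ K
    · simp only [indicator_of_mem hx, hC3]
    · simp only [indicator_of_notMem hx]; ring
  have hRge : ∀ x, c2 * (β / 2 * ((χ x * χ x) * PS ε (u x * u x + v x * v x)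
      * ‖pd 0 g x‖ ^ 2)) + K.indicator (fun _ => 2 * M ^ 2 * X ^ 2) x ≤ R x := by
    intro x
    have h := mul_le_mul_of_nonneg_left (hpt x) hc20
    simp only [hR]
    rw [hind x]
    linarith
  have hR0 : ∀ x, 0 ≤ R x := by
    intro x
    refine le_trans ?_ (hRge x)
    have h1 : 0 ≤ K.indicator (fun _ => 2 * M ^ 2 * X ^ 2) x :=
      indicator_nonneg (fun _ _ => by positivity) x
    have h2 : 0 ≤ PS ε (u x * u x + v x * v x) := PS_nonneg hε
    have h3 : 0 ≤ χ x * χ x := mul_self_nonneg _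
    positivity
  have hcont : Continuous (fun x => χ x ^ 2 * (‖pd 0 g x‖ ^ 2 + ‖pd 1 g x‖ ^ 2)) := by
    have hp : ∀ k : Fin 2, Continuous (pd k g) := by
      intro k
      unfold pd
      exact (hg.continuous_fderiv (by simp)).clm_apply continuous_const
    exact (hχ.continuous.pow 2).mul (((hp 0).norm.pow 2).add ((hp 1).norm.pow 2))
  have hcs : HasCompactSupport (fun x => χ x ^ 2 * (‖pd 0 g x‖ ^ 2 + ‖pd 1 g x‖ ^ 2)) := by
    have h1 : HasCompactSupport (fun x => χ x * (χ x * (‖pd 0 g x‖ ^ 2 + ‖pd 1 g x‖ ^ 2))) :=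
      hχc.mul_right
    have e : (fun x => χ x ^ 2 * (‖pd 0 g x‖ ^ 2 + ‖pd 1 g x‖ ^ 2))
        = (fun x => χ x * (χ x * (‖pd 0 g x‖ ^ 2 + ‖pd 1 g x‖ ^ 2))) := by
      funext x; ring
    rw [e]; exact h1
  have hSm : MeasurableSet {x : Pl | 2 * ε ≤ ‖g x‖} :=
    (isClosed_le continuous_const hg.continuous.norm).measurableSet
  have hle : ∀ x ∈ {x : Pl | 2 * ε ≤ ‖g x‖},
      χ x ^ 2 * (‖pd 0 g x‖ ^ 2 + ‖pd 1 g x‖ ^ 2) ≤ R x := by
    intro x hx
    have hx : 2 * ε ≤ ‖g x‖ := hx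
    by_cases hxK : x ∈ K
    · refine le_trans ?_ (hRge x)
      rw [indicator_of_mem hxK]
      have hge : ε ≤ ‖g x‖ := by linarith
      have h15 : 15 / 16 ≤ PS ε (u x * u x + v x * v x) := by
        apply PS_ge hε
        rw [hsq]; exact pow_le_pow_left₀ (by positivity) hx 2
      have hr := hgM x hxK hge
      have hq1 : ‖pd 1 g x‖ ≤ A * ‖pd 0 g x‖ + M := by
        have hg1 : pd 1 g x = τ x * pd 0 g x + (pd 1 g x - τ x * pd 0 g x) := by ring
        rw [hg1]
        refine (norm_add_le _ _).trans (add_le_add ?_ hr)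
        rw [norm_mul]
        exact mul_le_mul_of_nonneg_right (hτ x hxK).2 (norm_nonneg _)
      have hq2 : ‖pd 1 g x‖ ^ 2 ≤ 2 * A ^ 2 * ‖pd 0 g x‖ ^ 2 + 2 * M ^ 2 := by
        have h1 : ‖pd 1 g x‖ ^ 2 ≤ (A * ‖pd 0 g x‖ + M) ^ 2 :=
          pow_le_pow_left₀ (norm_nonneg _) hq1 2
        nlinarith [sq_nonneg (A * ‖pd 0 g x‖ - M)]
      have hXX : χ x ^ 2 ≤ X ^ 2 := by
        have := pow_le_pow_left₀ (abs_nonneg _) (hX' x) 2
        rwa [sq_abs] at this
      have hχ0 : 0 ≤ χ x ^ 2 := sq_nonneg _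
      have e1 : c2 * (β / 2 * ((χ x * χ x) * PS ε (u x * u x + v x * v x) * ‖pd 0 g x‖ ^ 2))
          = (1 + 2 * A ^ 2) * (χ x ^ 2 * ‖pd 0 g x‖ ^ 2)
            * (16 / 15 * PS ε (u x * u x + v x * v x)) := by
        rw [hc2]; field_simp
      rw [e1]
      have h1 : (1 + 2 * A ^ 2) * (χ x ^ 2 * ‖pd 0 g x‖ ^ 2) * 1 ≤
          (1 + 2 * A ^ 2) * (χ x ^ 2 * ‖pd 0 g x‖ ^ 2)
            * (16 / 15 * PS ε (u x * u x + v x * v x)) :=
        mul_le_mul_of_nonneg_left (by linarith) (by positivity)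
      have h2 : χ x ^ 2 * (2 * M ^ 2) ≤ X ^ 2 * (2 * M ^ 2) :=
        mul_le_mul_of_nonneg_right hXX (by positivity)
      have h3 := mul_le_mul_of_nonneg_left hq2 hχ0
      nlinarith
    · have h0 : χ x = 0 := image_eq_zero_of_notMem_tsupport hxK
      rw [h0]
      simpa using hR0 x
  calc ∫ x in {x | 2 * ε ≤ ‖g x‖}, χ x ^ 2 * (‖pd 0 g x‖ ^ 2 + ‖pd 1 g x‖ ^ 2)
      ≤ ∫ x in {x | 2 * ε ≤ ‖g x‖}, R x :=
        setIntegral_mono_on (hcont.integrable_of_hasCompactSupport hcs).integrableOn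
          hRint.integrableOn hSm hle
    _ ≤ ∫ x, R x := setIntegral_le_integral hRint (Eventually.of_forall hR0)
    _ = C3 * (volume : Measure Pl).real K := by
        simp only [hR]
        rw [integral_add (hEE.1.const_mul (c2 * s)) hKint, integral_const_mul, hEE.2, mul_zero,
          zero_add, integral_indicator hKm, setIntegral_const, smul_eq_mul, mul_comm]

end Pool.Agent.H256.RD
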