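import Pool.Agent.H256.RD.Stm

/-!
# A `C¹` curve is removable for first order functionals with continuous coefficients
-/

open MeasureTheory Set Filter Topology
open scoped ContDiff

noncomputable section

namespace Pool.Agent.H256.RD

namespace Hyp982

/-- real partial derivative -/
def pr (j : Fin 2) (g : Pl → ℝ) (x : Pl) : ℝ := fderiv ℝ g x (EuclideanSpace.single j (1 : ℝ))

theorem int_pd_zero (j : Fin 2) (P : Pl → ℂ) (hP : ContDiff ℝ 1 P) (hc : HasCompactSupport P) :
    ∫ x, pd j P x = 0 := by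
  have hcd : Continuous (fderiv ℝ P) := hP.continuous_fderiv (by norm_num)
  have h := integral_mul_fderiv_eq_neg_fderiv_mul_of_integrable (𝕜 := ℂ) (μ := (volume : Measure Pl))
    (f := fun _ : Pl => (1 : ℂ)) (g := P) (v := EuclideanSpace.single j (1 : ℝ)) ?_ ?_ ?_
    (fun x _ => differentiableAt_const _) (fun x _ => hP.differentiable (by norm_num) x)
  · simpa [pd] using h
  · simp
  · simp only [one_mul]
    exact (hcd.clm_apply continuous_const).integrable_of_hasCompactSupport (hc.fderiv_apply ℝ _)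
  · simp only [one_mul]
    exact hP.continuous.integrable_of_hasCompactSupport hc

/-- products of a function supported in an open set with a function continuous there -/
theorem cont_mul {U : Set Pl} (hU : IsOpen U) {χ k : Pl → ℂ} (hχ : Continuous χ)
    (hs : tsupport χ ⊆ U) (hk : ContinuousOn k U) : Continuous (fun x => χ x * k x) := by
  rw [continuous_iff_continuousAt]
  intro x
  by_cases hx : x ∈ tsupport χ
  · exact hχ.continuousAt.mul (hk.continuousAt (hU.mem_nhds (hs hx)))
  · have h0 : χ =ᶠ[𝓝 x] 0 := notMem_tsupport_iff_eventuallyEq.1 hx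
    have : (fun x => χ x * k x) =ᶠ[𝓝 x] fun _ => 0 := by
      filter_upwards [h0] with y hy
      simp [hy]
    exact (continuousAt_congr this).2 continuousAt_const

theorem cd_mul {U : Set Pl} (hU : IsOpen U) {χ k : Pl → ℂ} (hχ : ContDiff ℝ 1 χ)
    (hs : tsupport χ ⊆ U) (hk : ContDiffOn ℝ 1 k U) : ContDiff ℝ 1 (fun x => χ x * k x) := by
  rw [contDiff_iff_contDiffAt]
  intro x
  by_cases hx : x ∈ tsupport χ
  · exact hχ.contDiffAt.mul (hk.contDiffAt (hU.mem_nhds (hs hx)))
  · have h0 : χ =ᶠ[𝓝 x] 0 := notMem_tsupport_iff_eventuallyEq.1 hx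
    have : (fun x => χ x * k x) =ᶠ[𝓝 x] fun _ => 0 := by
      filter_upwards [h0] with y hy
      simp [hy]
    exact contDiffAt_const.congr_of_eventuallyEq this

theorem pd_mul {U : Set Pl} (hU : IsOpen U) (j : Fin 2) {χ k : Pl → ℂ} (hχ : ContDiff ℝ 1 χ)
    (hs : tsupport χ ⊆ U) (hk : ContDiffOn ℝ 1 k U) (x : Pl) :
    pd j (fun x => χ x * k x) x = pd j χ x * k x + χ x * pd j k x := by
  by_cases hx : x ∈ tsupport χ
  · have h1 : DifferentiableAt ℝ χ x := hχ.differentiable (by norm_num) x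
    have h2 : DifferentiableAt ℝ k x :=
      (hk.contDiffAt (hU.mem_nhds (hs hx))).differentiableAt (by norm_num)
    unfold pd
    rw [fderiv_fun_mul h1 h2]
    simp [smul_eq_mul]
    ring
  · have h0 : χ =ᶠ[𝓝 x] 0 := notMem_tsupport_iff_eventuallyEq.1 hx
    have : (fun x => χ x * k x) =ᶠ[𝓝 x] fun _ => 0 := by
      filter_upwards [h0] with y hy
      simp [hy]
    have h3 : χ x = 0 := h0.self_of_nhds
    unfold pd
    rw [this.fderiv_eq, h3]
    have h4 : fderiv ℝ χ x = 0 := by
      rw [h0.fderiv_eq]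
      simp
    rw [h4]
    simp

theorem cont_pd (j : Fin 2) {χ : Pl → ℂ} (hχ : ContDiff ℝ 1 χ) : Continuous (pd j χ) := by
  have hcd : Continuous (fderiv ℝ χ) := hχ.continuous_fderiv (by norm_num)
  exact hcd.clm_apply continuous_const

theorem supp_pd (j : Fin 2) (χ : Pl → ℂ) : tsupport (pd j χ) ⊆ tsupport χ :=
  tsupport_fderiv_apply_subset ℝ _

/-- primitives of compactly supported functions are bounded -/
theorem prim (A : ℝ → ℝ) (hA : Continuous A) (hc : HasCompactSupport A) :
    ∃ (P : ℝ → ℝ) (M : ℝ), (∀ u, HasDerivAt P (A u) u) ∧ ∀ u, |P u| ≤ M := by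
  refine ⟨fun u => ∫ v in (0 : ℝ)..u, A v, ∫ v, ‖A v‖, fun u => ?_, fun u => ?_⟩
  · exact (hA.integral_hasStrictDerivAt 0 u).hasDerivAt
  · have h1 := intervalIntegral.norm_integral_le_integral_norm_uIoc (f := A) (a := 0) (b := u)
      (μ := volume)
    refine (Real.norm_eq_abs _ ▸ h1).trans ?_
    exact setIntegral_le_integral (hA.integrable_of_hasCompactSupport hc).norm
      (ae_of_all _ fun _ => norm_nonneg _)

theorem pd_comp {U : Set Pl} (hU : IsOpen U) {g : Pl → ℝ} (hg : ContDiffOn ℝ 1 g U) (j : Fin 2)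
    {A P : ℝ → ℝ} (hP : ∀ u, HasDerivAt P (A u) u) {t : ℝ} {x : Pl} (hx : x ∈ U) :
    pd j (fun x => ((P (g x / t) : ℝ) : ℂ)) x = ((A (g x / t) / t * pr j g x : ℝ) : ℂ) := by
  have hgd : DifferentiableAt ℝ g x := (hg.contDiffAt (hU.mem_nhds hx)).differentiableAt (by norm_num)
  have h1 : HasFDerivAt (fun x => g x / t) ((1 / t) • fderiv ℝ g x) x := by
    have := hgd.hasFDerivAt.const_mul (1 / t)
    refine this.congr_of_eventuallyEq (Eventually.of_forall fun y => ?_)
    simp only
    ring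
  have h2 : HasFDerivAt (fun x => P (g x / t)) (A (g x / t) • ((1 / t) • fderiv ℝ g x)) x :=
    (hP (g x / t)).comp_hasFDerivAt x h1
  have h3 : HasFDerivAt (fun x => ((P (g x / t) : ℝ) : ℂ))
      (Complex.ofRealCLM.comp (A (g x / t) • ((1 / t) • fderiv ℝ g x))) x :=
    Complex.ofRealCLM.hasFDerivAt.comp x h2
  unfold pd pr
  rw [h3.fderiv]
  simp
  ring

/-- the basic integration by parts -/
theorem key {U : Set Pl} (hU : IsOpen U) {g : Pl → ℝ} (hg : ContDiffOn ℝ 1 g U) (j : Fin 2)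
    {χ : Pl → ℂ} (hχ : ContDiff ℝ 1 χ) (hc : HasCompactSupport χ) (hs : tsupport χ ⊆ U)
    {A P : ℝ → ℝ} (hA : Continuous A) (hP : ∀ u, HasDerivAt P (A u) u) {t : ℝ} :
    ∫ x, χ x * ((A (g x / t) / t * pr j g x : ℝ) : ℂ) = - ∫ x, pd j χ x * ((P (g x / t) : ℝ) : ℂ) := by
  have hPc : ContDiff ℝ 1 P := by
    rw [contDiff_one_iff_deriv]
    refine ⟨fun u => (hP u).differentiableAt, ?_⟩
    have : deriv P = A := funext fun u => (hP u).deriv
    rw [this]
    exact hA
  have hk : ContDiffOn ℝ 1 (fun x => ((P (g x / t) : ℝ) : ℂ)) U :=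
    Complex.ofRealCLM.contDiff.comp_contDiffOn (hPc.comp_contDiffOn (hg.div_const t))
  have hpr : ContinuousOn (pr j g) U :=
    (hg.continuousOn_fderiv_of_isOpen hU le_rfl).clm_apply continuousOn_const
  have hpk : ∀ x ∈ U, pd j (fun x => ((P (g x / t) : ℝ) : ℂ)) x
      = ((A (g x / t) / t * pr j g x : ℝ) : ℂ) := fun x hx => pd_comp hU hg j hP hx
  have h0 := int_pd_zero j _ (cd_mul hU hχ hs hk) hc.mul_right
  have h1 : ∀ x, pd j (fun x => χ x * ((P (g x / t) : ℝ) : ℂ)) x
      = pd j χ x * ((P (g x / t) : ℝ) : ℂ) + χ x * ((A (g x / t) / t * pr j g x : ℝ) : ℂ) := by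
    intro x
    rw [pd_mul hU j hχ hs hk x]
    by_cases hx : x ∈ tsupport χ
    · rw [hpk x (hs hx)]
    · have : χ x = 0 := image_eq_zero_of_notMem_tsupport hx
      rw [this]
      simp
  rw [integral_congr_ae (ae_of_all _ h1)] at h0
  have i1 : Integrable (fun x => pd j χ x * ((P (g x / t) : ℝ) : ℂ)) := by
    refine (cont_mul hU (cont_pd j hχ) ((supp_pd j χ).trans hs)
      hk.continuousOn).integrable_of_hasCompactSupport ?_
    exact (HasCompactSupport.mul_right (hc.fderiv_apply ℝ _))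
  have i2 : Integrable (fun x => χ x * ((A (g x / t) / t * pr j g x : ℝ) : ℂ)) := by
    refine (cont_mul hU hχ.continuous hs ?_).integrable_of_hasCompactSupport hc.mul_right
    refine Complex.continuous_ofReal.comp_continuousOn ?_
    exact ((hA.comp_continuousOn (hg.continuousOn.div_const t)).div_const t).mul hpr
  rw [integral_add i1 i2] at h0
  linear_combination h0

/-- the weight `χ B(g/t)` has integral `O(t)` -/
theorem small {U : Set Pl} (hU : IsOpen U) {g : Pl → ℝ} (hg : ContDiffOn ℝ 1 g U) (j : Fin 2)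
    {χ : Pl → ℝ} (hχ : ContDiff ℝ 1 χ) (hc : HasCompactSupport χ) (hs : tsupport χ ⊆ U)
    (hχ0 : ∀ x, 0 ≤ χ x) {A : ℝ → ℝ} (hA : Continuous A) (hAc : HasCompactSupport A)
    (hA0 : ∀ u, 0 ≤ A u) :
    ∃ C : ℝ, ∀ t : ℝ, ∫ x, χ x * (A (g x / t) / t * pr j g x) ≤ C := by
  obtain ⟨P, M, hP, hM⟩ := prim A hA hAc
  have hχ' : ContDiff ℝ 1 (fun x => ((χ x : ℝ) : ℂ)) := Complex.ofRealCLM.contDiff.comp hχ
  have hc' : HasCompactSupport (fun x => ((χ x : ℝ) : ℂ)) :=
    hc.comp_left (g := fun r : ℝ => (r : ℂ)) (by simp)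
  have hs' : tsupport (fun x => ((χ x : ℝ) : ℂ)) ⊆ U :=
    (tsupport_comp_subset (g := fun r : ℝ => (r : ℂ)) (by simp) χ).trans hs
  refine ⟨∫ x, ‖pd j (fun x => ((χ x : ℝ) : ℂ)) x‖ * M, fun t => ?_⟩
  have h := key hU hg j hχ' hc' hs' hA hP (t := t)
  have h1 : ((∫ x, χ x * (A (g x / t) / t * pr j g x) : ℝ) : ℂ)
      = ∫ x, ((χ x : ℝ) : ℂ) * ((A (g x / t) / t * pr j g x : ℝ) : ℂ) := by
    rw [← integral_complex_ofReal]
    refine integral_congr_ae (ae_of_all _ fun x => ?_)
    simp only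
    push_cast
    ring
  rw [h] at h1
  have h2 : ∫ x, χ x * (A (g x / t) / t * pr j g x)
      ≤ ‖((∫ x, χ x * (A (g x / t) / t * pr j g x) : ℝ) : ℂ)‖ := by
    rw [Complex.norm_real]
    exact Real.le_norm_self _
  refine h2.trans ?_
  rw [h1, norm_neg]
  have hcp : HasCompactSupport (pd j (fun x => ((χ x : ℝ) : ℂ))) := hc'.fderiv_apply ℝ _
  have hint : Integrable (fun x => ‖pd j (fun x => ((χ x : ℝ) : ℂ)) x‖ * M) :=
    (((cont_pd j hχ').integrable_of_hasCompactSupport hcp).norm).mul_const M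
  refine norm_integral_le_of_norm_le hint (ae_of_all _ fun x => ?_)
  rw [norm_mul, Complex.norm_real, Real.norm_eq_abs (P _)]
  exact mul_le_mul_of_nonneg_left (hM _) (norm_nonneg _)

/-- the bump on the line -/
def bb : ContDiffBump (0 : ℝ) := ⟨1, 2, zero_lt_one, one_lt_two⟩

theorem bb_deriv (u : ℝ) : HasDerivAt (fun u => bb u) (deriv bb u) u :=
  ((bb.contDiff (n := 1)).differentiable (by norm_num) u).hasDerivAt

theorem bb_deriv' (u : ℝ) : HasDerivAt (fun u => 1 - bb u) (-deriv bb u) u := by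
  simpa using (bb_deriv u).const_sub 1

theorem bb_dcont : Continuous (deriv bb) := (bb.contDiff (n := 1)).continuous_deriv (by norm_num)

theorem int_TT {U : Set Pl} (hU : IsOpen U) {G0 G1 h : Pl → ℂ} (hG0 : ContinuousOn G0 U)
    (hG1 : ContinuousOn G1 U) (hh : ContinuousOn h U) {ψ : Pl → ℂ} (hψ : ContDiff ℝ 1 ψ)
    (hc : HasCompactSupport ψ) (hs : tsupport ψ ⊆ U) :
    Continuous (fun x => G0 x * pd 0 ψ x + G1 x * pd 1 ψ x + h x * ψ x) ∧
    HasCompactSupport (fun x => G0 x * pd 0 ψ x + G1 x * pd 1 ψ x + h x * ψ x) ∧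
    Integrable (fun x => G0 x * pd 0 ψ x + G1 x * pd 1 ψ x + h x * ψ x) := by
  have e0 : Continuous (fun x => G0 x * pd 0 ψ x) := by
    have := cont_mul hU (cont_pd 0 hψ) ((supp_pd 0 ψ).trans hs) hG0
    simpa only [mul_comm] using this
  have e1 : Continuous (fun x => G1 x * pd 1 ψ x) := by
    have := cont_mul hU (cont_pd 1 hψ) ((supp_pd 1 ψ).trans hs) hG1
    simpa only [mul_comm] using this
  have e2 : Continuous (fun x => h x * ψ x) := by
    have := cont_mul hU hψ.continuous hs hh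
    simpa only [mul_comm] using this
  have hcont : Continuous (fun x => G0 x * pd 0 ψ x + G1 x * pd 1 ψ x + h x * ψ x) :=
    (e0.add e1).add e2
  have c0 : HasCompactSupport (fun x => G0 x * pd 0 ψ x) :=
    HasCompactSupport.mul_left (hc.fderiv_apply ℝ _)
  have c1 : HasCompactSupport (fun x => G1 x * pd 1 ψ x) :=
    HasCompactSupport.mul_left (hc.fderiv_apply ℝ _)
  have c2 : HasCompactSupport (fun x => h x * ψ x) := HasCompactSupport.mul_left hc
  have hsupp : HasCompactSupport (fun x => G0 x * pd 0 ψ x + G1 x * pd 1 ψ x + h x * ψ x) :=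
    (c0.add c1).add c2
  exact ⟨hcont, hsupp, hcont.integrable_of_hasCompactSupport hsupp⟩

/-- the test function cut off near the curve -/
theorem psi_facts {U : Set Pl} (hU : IsOpen U) {g : Pl → ℝ} (hg : ContDiffOn ℝ 1 g U)
    {φ : Pl → ℂ} (hφ : ContDiff ℝ 1 φ) (hc : HasCompactSupport φ) (hs : tsupport φ ⊆ U) {t : ℝ}
    (ht : 0 < t) :
    ContDiff ℝ 1 (fun x => φ x * ((1 - bb (g x / t) : ℝ) : ℂ)) ∧
    HasCompactSupport (fun x => φ x * ((1 - bb (g x / t) : ℝ) : ℂ)) ∧
    tsupport (fun x => φ x * ((1 - bb (g x / t) : ℝ) : ℂ)) ⊆ U ∩ {x | g x ≠ 0} ∧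
    ContDiffOn ℝ 1 (fun x => ((1 - bb (g x / t) : ℝ) : ℂ)) U := by
  have hk : ContDiffOn ℝ 1 (fun x => ((1 - bb (g x / t) : ℝ) : ℂ)) U := by
    refine Complex.ofRealCLM.contDiff.comp_contDiffOn ?_
    exact contDiffOn_const.sub ((bb.contDiff (n := 1)).comp_contDiffOn (hg.div_const t))
  refine ⟨cd_mul hU hφ hs hk, hc.mul_right, ?_, hk⟩
  intro x hx
  have hxφ : x ∈ tsupport φ := tsupport_mul_subset_left hx
  refine ⟨hs hxφ, fun h0 => ?_⟩
  refine absurd hx ?_
  rw [notMem_tsupport_iff_eventuallyEq]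
  have hcg : ContinuousAt g x := hg.continuousOn.continuousAt (hU.mem_nhds (hs hxφ))
  have : ∀ᶠ y in 𝓝 x, |g y| < t := by
    have h2 : ContinuousAt (fun y => |g y|) x := hcg.abs
    refine h2.eventually_lt_const ?_
    have h0' : g x = 0 := h0
    show |g x| < t
    rw [h0', abs_zero]
    exact ht
  filter_upwards [this] with y hy
  have : bb (g y / t) = 1 := by
    refine bb.one_of_mem_closedBall ?_
    rw [Metric.mem_closedBall, dist_zero_right, Real.norm_eq_abs, abs_div, abs_of_pos ht]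
    show |g y| / t ≤ 1
    rw [div_le_one ht]
    exact hy.le
  simp [this]

theorem hyp_pos (h1 : C1Stm) (G0 G1 h : Pl → ℂ) (U : Set Pl) (hU : IsOpen U)
    (hG0 : ContinuousOn G0 U) (hG1 : ContinuousOn G1 U) (hh : ContinuousOn h U) (g : Pl → ℝ)
    (hg : ContDiffOn ℝ 1 g U) (x0 : Pl) (hx0 : x0 ∈ U) (j : Fin 2) (hj : 0 < pr j g x0)
    (hN : Null (TT G0 G1 h) (U ∩ {x | g x ≠ 0})) :
    ∃ V : Set Pl, IsOpen V ∧ x0 ∈ V ∧ V ⊆ U ∧ Null (TT G0 G1 h) V := by
  have hprc : ∀ i, ContinuousOn (pr i g) U := fun i =>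
    (hg.continuousOn_fderiv_of_isOpen hU le_rfl).clm_apply continuousOn_const
  obtain ⟨c, hc0, hcj⟩ : ∃ c, 0 < c ∧ c < pr j g x0 := exists_between hj
  have hev : ∀ᶠ x in 𝓝 x0, c < pr j g x ∧ x ∈ U :=
    (((hprc j).continuousAt (hU.mem_nhds hx0)).eventually_const_lt hcj).and (hU.mem_nhds hx0)
  obtain ⟨r, hr, hball⟩ := Metric.eventually_nhds_iff_ball.1 hev
  have hVU : Metric.ball x0 r ⊆ U := fun x hx => (hball x hx).2
  have hcV : ∀ x ∈ Metric.ball x0 r, c < pr j g x := fun x hx => (hball x hx).1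
  refine ⟨Metric.ball x0 r, Metric.isOpen_ball, Metric.mem_ball_self hr, hVU, ?_⟩
  intro φ hφ
  have hφ1 : ContDiff ℝ 1 φ := hφ.smooth.of_le (by exact_mod_cast le_top)
  have hφU : tsupport φ ⊆ U := hφ.sub.trans hVU
  obtain ⟨ρ, hρ, hK⟩ := exists_pos_lt_subset_ball hr (isClosed_tsupport φ) hφ.sub
  let χ : ContDiffBump x0 := ⟨ρ, (ρ + r) / 2, hρ.1, by linarith [hρ.2]⟩
  have hχ1 : ∀ x ∈ tsupport φ, χ x = 1 := fun x hx =>
    χ.one_of_mem_closedBall (Metric.ball_subset_closedBall (hK hx))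
  have hχV : tsupport χ ⊆ Metric.ball x0 r := by
    rw [χ.tsupport_eq]
    exact Metric.closedBall_subset_ball (show (ρ + r) / 2 < r by linarith [hρ.2])
  have hχU : tsupport χ ⊆ U := hχV.trans hVU
  have hχ0 : ∀ x, 0 ≤ χ x := fun x => χ.nonneg
  obtain ⟨C1, hC1⟩ := small hU hg j (χ.contDiff (n := 1)) χ.hasCompactSupport hχU hχ0
    bb.continuous bb.hasCompactSupport (fun u => bb.nonneg)
  obtain ⟨C2, hC2⟩ := small hU hg j (χ.contDiff (n := 1)) χ.hasCompactSupport hχU hχ0
    bb_dcont.abs (bb.hasCompactSupport.deriv.comp_left (g := fun r : ℝ => |r|) (by simp))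
    (fun u => abs_nonneg _)
  -- the integral of `χ B(g/t)`
  have hBc : ∀ t : ℝ, ContinuousOn (fun x => bb (g x / t)) U := fun t =>
    bb.continuous.comp_continuousOn (hg.continuousOn.div_const t)
  have contr : ∀ k : Pl → ℝ, ContinuousOn k U → Continuous (fun x => χ x * k x) := by
    intro k hk
    rw [continuous_iff_continuousAt]
    intro x
    by_cases hx : x ∈ tsupport χ
    · exact χ.continuous.continuousAt.mul (hk.continuousAt (hU.mem_nhds (hχU hx)))
    · have h0 : (χ : Pl → ℝ) =ᶠ[𝓝 x] 0 := notMem_tsupport_iff_eventuallyEq.1 hx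
      have : (fun x => χ x * k x) =ᶠ[𝓝 x] fun _ => 0 := by
        filter_upwards [h0] with y hy
        simp [hy]
      exact (continuousAt_congr this).2 continuousAt_const
  have intr : ∀ k : Pl → ℝ, ContinuousOn k U → Integrable (fun x => χ x * k x) := fun k hk =>
    (contr k hk).integrable_of_hasCompactSupport χ.hasCompactSupport.mul_right
  have hm : ∀ t : ℝ, 0 < t → ∫ x, χ x * bb (g x / t) ≤ |C1| / c * t := by
    intro t ht
    have h2 : ∫ x, c / t * (χ x * bb (g x / t)) ≤ ∫ x, χ x * (bb (g x / t) / t * pr j g x) := by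
      refine integral_mono ((intr _ (hBc t)).const_mul _)
        (intr _ (((hBc t).div_const t).mul (hprc j))) fun x => ?_
      by_cases hx : x ∈ tsupport χ
      · have h3 := hcV x (hχV hx)
        have h4 : 0 ≤ χ x * (bb (g x / t) / t) :=
          mul_nonneg (hχ0 x) (div_nonneg bb.nonneg ht.le)
        calc c / t * (χ x * bb (g x / t)) = (χ x * (bb (g x / t) / t)) * c := by ring
          _ ≤ (χ x * (bb (g x / t) / t)) * pr j g x := mul_le_mul_of_nonneg_left h3.le h4
          _ = χ x * (bb (g x / t) / t * pr j g x) := by ring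
      · have : χ x = 0 := image_eq_zero_of_notMem_tsupport hx
        simp [this]
    rw [integral_const_mul] at h2
    have h3 := (h2.trans (hC1 t)).trans (le_abs_self C1)
    rw [div_mul_eq_mul_div, div_le_iff₀ ht] at h3
    rw [div_mul_eq_mul_div, le_div_iff₀ hc0]
    linarith
  -- the functions
  obtain ⟨hFc, hFs, hFi⟩ := int_TT hU hG0 hG1 hh hφ1 hφ.cpt hφU
  obtain ⟨CF, hCF⟩ := hFs.exists_bound_of_continuous hFc
  have hF0 : ∀ x, x ∉ tsupport φ → G0 x * pd 0 φ x + G1 x * pd 1 φ x + h x * φ x = 0 := by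
    intro x hx
    have e0 : φ x = 0 := image_eq_zero_of_notMem_tsupport hx
    have e1 : ∀ i, pd i φ x = 0 := fun i =>
      image_eq_zero_of_notMem_tsupport (fun hh => hx (supp_pd i φ hh))
    simp [e0, e1]
  have hprV : ∀ x ∈ Metric.ball x0 r, ((pr j g x : ℝ) : ℂ) ≠ 0 := fun x hx => by
    exact_mod_cast (hc0.trans (hcV x hx)).ne'
  have hcc : ∀ i, ContinuousOn (fun x => ((pr i g x : ℝ) : ℂ)) (Metric.ball x0 r) := fun i =>
    Complex.continuous_ofReal.comp_continuousOn ((hprc i).mono hVU)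
  have hHc : Continuous (fun x => φ x *
      ((G0 x * ((pr 0 g x : ℝ) : ℂ) + G1 x * ((pr 1 g x : ℝ) : ℂ)) / ((pr j g x : ℝ) : ℂ))) := by
    refine cont_mul Metric.isOpen_ball hφ1.continuous hφ.sub ?_
    exact (((hG0.mono hVU).mul (hcc 0)).add ((hG1.mono hVU).mul (hcc 1))).div (hcc j) hprV
  set H : Pl → ℂ := fun x => φ x *
      ((G0 x * ((pr 0 g x : ℝ) : ℂ) + G1 x * ((pr 1 g x : ℝ) : ℂ)) / ((pr j g x : ℝ) : ℂ)) with hH
  have hHz : ∀ x, x ∉ tsupport φ → H x = 0 := by
    intro x hx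
    have e0 : φ x = 0 := image_eq_zero_of_notMem_tsupport hx
    simp [hH, e0]
  -- the identity
  have hid : ∀ t : ℝ, 0 < t → TT G0 G1 h φ =
      (∫ x, ((bb (g x / t) : ℝ) : ℂ) * (G0 x * pd 0 φ x + G1 x * pd 1 φ x + h x * φ x))
        + ∫ x, H x * ((deriv bb (g x / t) / t * pr j g x : ℝ) : ℂ) := by
    intro t ht
    obtain ⟨hψ1, hψc, hψs, hk⟩ := psi_facts hU hg hφ1 hφ.cpt hφU ht
    have hW : IsOpen (U ∩ {x | g x ≠ 0}) :=
      hg.continuousOn.isOpen_inter_preimage hU isOpen_ne
    have hz := h1 G0 G1 h _ hW (hG0.mono inter_subset_left) (hG1.mono inter_subset_left)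
      (hh.mono inter_subset_left) hN _ hψ1 hψc hψs
    obtain ⟨-, -, hPi⟩ := int_TT hU hG0 hG1 hh hψ1 hψc (hψs.trans inter_subset_left)
    have hBF : Integrable (fun x => ((bb (g x / t) : ℝ) : ℂ) *
        (G0 x * pd 0 φ x + G1 x * pd 1 φ x + h x * φ x)) := by
      have h5 : Continuous (fun x => (G0 x * pd 0 φ x + G1 x * pd 1 φ x + h x * φ x) *
          ((bb (g x / t) : ℝ) : ℂ)) := by
        refine cont_mul hU hFc ?_ (Complex.continuous_ofReal.comp_continuousOn (hBc t))
        refine (closure_minimal (fun x hx => ?_) (isClosed_tsupport φ)).trans hφU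
        by_contra hc
        exact hx (hF0 x hc)
      have h6 : Integrable (fun x => (G0 x * pd 0 φ x + G1 x * pd 1 φ x + h x * φ x) *
          ((bb (g x / t) : ℝ) : ℂ)) := h5.integrable_of_hasCompactSupport hFs.mul_right
      refine h6.congr (ae_of_all _ fun x => ?_)
      exact mul_comm _ _
    have hHi : Integrable (fun x => H x * ((deriv bb (g x / t) / t * pr j g x : ℝ) : ℂ)) := by
      have hHs : HasCompactSupport H := hφ.cpt.mul_right
      refine (cont_mul hU hHc ?_ ?_).integrable_of_hasCompactSupport hHs.mul_right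
      · refine (closure_minimal (fun x hx => ?_) (isClosed_tsupport φ)).trans hφU
        by_contra hc
        exact hx (hHz x hc)
      · refine Complex.continuous_ofReal.comp_continuousOn ?_
        exact ((bb_dcont.comp_continuousOn (hg.continuousOn.div_const t)).div_const t).mul (hprc j)
    rw [← integral_add hBF hHi]
    have h7 : TT G0 G1 h φ = TT G0 G1 h φ -
        TT G0 G1 h (fun x => φ x * ((1 - bb (g x / t) : ℝ) : ℂ)) := by rw [hz, sub_zero]
    rw [h7]
    unfold TT
    rw [← integral_sub hFi hPi]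
    refine integral_congr_ae (ae_of_all _ fun x => ?_)
    simp only
    rw [pd_mul hU 0 hφ1 hφU hk x, pd_mul hU 1 hφ1 hφU hk x]
    by_cases hx : x ∈ tsupport φ
    · rw [pd_comp hU hg 0 bb_deriv' (hφU hx), pd_comp hU hg 1 bb_deriv' (hφU hx)]
      have h8 := hprV x (hφ.sub hx)
      simp only [hH]
      push_cast
      field_simp
      ring
    · have e0 : φ x = 0 := image_eq_zero_of_notMem_tsupport hx
      have e1 : ∀ i, pd i φ x = 0 := fun i =>
        image_eq_zero_of_notMem_tsupport (fun hh => hx (supp_pd i φ hh))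
      simp [hH, e0, e1]
  -- conclusion
  by_contra hne
  have ha : 0 < ‖TT G0 G1 h φ‖ := norm_pos_iff.2 hne
  set a := ‖TT G0 G1 h φ‖ with hadef
  have hκ : 0 < a / (2 * (|C2| + 1)) := by positivity
  obtain ⟨H', hH'1, hH'2, hH'3⟩ := hHc.exists_contDiff_approx (ε := fun _ => a / (2 * (|C2| + 1))) 1
    continuous_const (fun _ => hκ)
  have hH's : tsupport H' ⊆ tsupport φ := by
    refine closure_minimal (fun x hx => ?_) (isClosed_tsupport φ)
    by_contra hc
    exact (hH'3 hx) (hHz x hc)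
  have hH'c : HasCompactSupport H' := hφ.cpt.of_isClosed_subset (isClosed_tsupport _) hH's
  have hH'0 : ∀ x, x ∉ tsupport φ → H' x = 0 := fun x hx =>
    image_eq_zero_of_notMem_tsupport (fun hh => hx (hH's hh))
  have hH'1' : ContDiff ℝ 1 H' := hH'1
  obtain ⟨CH, hCH⟩ := (hH'c.fderiv_apply ℝ (EuclideanSpace.single j (1 : ℝ))
    : HasCompactSupport (pd j H')).exists_bound_of_continuous (cont_pd j hH'1')
  have hfin : ∀ t : ℝ, 0 < t → a ≤ (|CF| + |CH|) * (|C1| / c * t) + a / 2 := by
    intro t ht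
    have hmt := hm t ht
    have hm0 : Integrable (fun x => χ x * bb (g x / t)) := intr _ (hBc t)
    have E1 : ‖∫ x, ((bb (g x / t) : ℝ) : ℂ) * (G0 x * pd 0 φ x + G1 x * pd 1 φ x + h x * φ x)‖
        ≤ ∫ x, |CF| * (χ x * bb (g x / t)) := by
      refine norm_integral_le_of_norm_le (hm0.const_mul _) (ae_of_all _ fun x => ?_)
      by_cases hx : x ∈ tsupport φ
      · rw [norm_mul, Complex.norm_real, Real.norm_eq_abs, abs_of_nonneg bb.nonneg, hχ1 x hx]
        have := (hCF x).trans (le_abs_self CF)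
        have h9 : 0 ≤ bb (g x / t) := bb.nonneg
        nlinarith [mul_le_mul_of_nonneg_left this h9]
      · rw [hF0 x hx]
        simp only [mul_zero, norm_zero]
        exact mul_nonneg (abs_nonneg _) (mul_nonneg (hχ0 x) bb.nonneg)
    have i1 : Integrable (fun x => χ x * (|deriv bb (g x / t)| / t * pr j g x)) :=
      intr _ ((((bb_dcont.comp_continuousOn (hg.continuousOn.div_const t)).abs).div_const t).mul
        (hprc j))
    have E2 : ‖∫ x, (H x - H' x) * ((deriv bb (g x / t) / t * pr j g x : ℝ) : ℂ)‖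
        ≤ ∫ x, a / (2 * (|C2| + 1)) * (χ x * (|deriv bb (g x / t)| / t * pr j g x)) := by
      refine norm_integral_le_of_norm_le (i1.const_mul _) (ae_of_all _ fun x => ?_)
      by_cases hx : x ∈ tsupport φ
      · have h10 := hc0.trans (hcV x (hφ.sub hx))
        rw [norm_mul, Complex.norm_real, Real.norm_eq_abs, abs_mul, abs_div, abs_of_pos ht,
          abs_of_pos h10, hχ1 x hx, one_mul]
        refine mul_le_mul_of_nonneg_right ?_ (by positivity)
        have := hH'2 x
        rw [dist_comm, dist_eq_norm] at this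
        exact this.le
      · have : χ x = χ x := rfl
        rw [hHz x hx, hH'0 x hx]
        simp only [sub_self, zero_mul, norm_zero]
        by_cases hx2 : x ∈ tsupport χ
        · have h10 := hc0.trans (hcV x (hχV hx2))
          have := hχ0 x
          positivity
        · have : χ x = 0 := image_eq_zero_of_notMem_tsupport hx2
          simp [this]
    have E3 : ‖∫ x, H' x * ((deriv bb (g x / t) / t * pr j g x : ℝ) : ℂ)‖
        ≤ ∫ x, |CH| * (χ x * bb (g x / t)) := by
      rw [key hU hg j hH'1' hH'c (hH's.trans hφU) bb_dcont bb_deriv, norm_neg]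
      refine norm_integral_le_of_norm_le (hm0.const_mul _) (ae_of_all _ fun x => ?_)
      by_cases hx : x ∈ tsupport φ
      · rw [norm_mul, Complex.norm_real, Real.norm_eq_abs, abs_of_nonneg bb.nonneg, hχ1 x hx]
        have h20 : ‖pd j H' x‖ ≤ |CH| := (hCH x).trans (le_abs_self CH)
        rw [one_mul]
        exact mul_le_mul_of_nonneg_right h20 bb.nonneg
      · have : pd j H' x = 0 :=
          image_eq_zero_of_notMem_tsupport (fun hh => hx (hH's (supp_pd j H' hh)))
        rw [this]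
        simp only [zero_mul, norm_zero]
        exact mul_nonneg (abs_nonneg _) (mul_nonneg (hχ0 x) bb.nonneg)
    rw [integral_const_mul] at E1 E2 E3
    have hkc : ContinuousOn (fun x => ((deriv bb (g x / t) / t * pr j g x : ℝ) : ℂ)) U := by
      refine Complex.continuous_ofReal.comp_continuousOn ?_
      exact ((bb_dcont.comp_continuousOn (hg.continuousOn.div_const t)).div_const t).mul (hprc j)
    have iH' : Integrable (fun x => H' x * ((deriv bb (g x / t) / t * pr j g x : ℝ) : ℂ)) :=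
      (cont_mul hU hH'1'.continuous (hH's.trans hφU) hkc).integrable_of_hasCompactSupport
        hH'c.mul_right
    have iHH : Integrable (fun x => (H x - H' x) * ((deriv bb (g x / t) / t * pr j g x : ℝ) : ℂ)) := by
      have hs2 : tsupport (fun x => H x - H' x) ⊆ tsupport φ := by
        refine closure_minimal (fun x hx => ?_) (isClosed_tsupport φ)
        by_contra hc
        exact hx (by simp [hHz x hc, hH'0 x hc])
      refine (cont_mul hU (hHc.sub hH'1'.continuous) (hs2.trans hφU)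
        hkc).integrable_of_hasCompactSupport ?_
      have hcs : HasCompactSupport (fun x => H x - H' x) :=
        hφ.cpt.of_isClosed_subset (isClosed_tsupport _) hs2
      exact hcs.mul_right
    have hsplit : ∫ x, H x * ((deriv bb (g x / t) / t * pr j g x : ℝ) : ℂ)
        = (∫ x, (H x - H' x) * ((deriv bb (g x / t) / t * pr j g x : ℝ) : ℂ))
          + ∫ x, H' x * ((deriv bb (g x / t) / t * pr j g x : ℝ) : ℂ) := by
      rw [← integral_add iHH iH']
      refine integral_congr_ae (ae_of_all _ fun x => ?_)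
      simp only
      ring
    have hb := hid t ht
    rw [hsplit] at hb
    have hnorm : a ≤ |CF| * (∫ x, χ x * bb (g x / t))
        + (a / (2 * (|C2| + 1)) * (∫ x, χ x * (|deriv bb (g x / t)| / t * pr j g x))
          + |CH| * (∫ x, χ x * bb (g x / t))) := by
      refine (le_of_eq (congrArg norm hb)).trans ?_
      exact (norm_add_le _ _).trans (add_le_add E1 ((norm_add_le _ _).trans (add_le_add E2 E3)))
    have h11 : a / (2 * (|C2| + 1)) * (∫ x, χ x * (|deriv bb (g x / t)| / t * pr j g x)) ≤ a / 2 := by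
      have h12 : (∫ x, χ x * (|deriv bb (g x / t)| / t * pr j g x)) ≤ |C2| + 1 :=
        ((hC2 t).trans (le_abs_self _)).trans (by linarith)
      calc a / (2 * (|C2| + 1)) * (∫ x, χ x * (|deriv bb (g x / t)| / t * pr j g x))
          ≤ a / (2 * (|C2| + 1)) * (|C2| + 1) := mul_le_mul_of_nonneg_left h12 hκ.le
        _ = a / 2 := by
            have : |C2| + 1 ≠ 0 := by positivity
            field_simp
    have h13 := mul_le_mul_of_nonneg_left hmt (abs_nonneg CF)
    have h14 := mul_le_mul_of_nonneg_left hmt (abs_nonneg CH)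
    nlinarith
  set D := (|CF| + |CH|) * (|C1| / c) with hD
  have hD0 : 0 ≤ D := by positivity
  have ht0 : 0 < a / (4 * (D + 1)) := by positivity
  have h15 := hfin _ ht0
  have h16 : (|CF| + |CH|) * (|C1| / c * (a / (4 * (D + 1)))) = D * a / (4 * (D + 1)) := by
    rw [hD]
    ring
  rw [h16] at h15
  have h17 : D * a / (4 * (D + 1)) ≤ a / 4 := by
    rw [div_le_div_iff₀ (by positivity) (by norm_num)]
    nlinarith
  linarith

end Hyp982

open Hyp982 in
/-- A `C¹` curve is removable. -/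
theorem hyp (h1 : C1Stm) : HypStm := by
  intro G0 G1 h U hU hG0 hG1 hh g hg x0 hx0 hne hN
  obtain ⟨j, hj⟩ : ∃ j : Fin 2, pr j g x0 ≠ 0 := by
    by_contra hcon
    push Not at hcon
    refine hne ?_
    ext v
    have hv : v = v 0 • EuclideanSpace.single (0 : Fin 2) (1 : ℝ)
        + v 1 • EuclideanSpace.single (1 : Fin 2) (1 : ℝ) := by
      ext i
      fin_cases i <;> simp
    have h0 : fderiv ℝ g x0 (EuclideanSpace.single (0 : Fin 2) (1 : ℝ)) = 0 := hcon 0
    have h1 : fderiv ℝ g x0 (EuclideanSpace.single (1 : Fin 2) (1 : ℝ)) = 0 := hcon 1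
    rw [hv, map_add, map_smul, map_smul, h0, h1]
    simp
  rcases lt_or_gt_of_ne hj with hlt | hgt
  · have hneg : pr j (fun x => - g x) x0 = - pr j g x0 := by
      unfold pr
      rw [fderiv_fun_neg]
      simp
    refine hyp_pos h1 G0 G1 h U hU hG0 hG1 hh (fun x => - g x) hg.neg x0 hx0 j ?_ ?_
    · rw [hneg]
      linarith
    · have : {x : Pl | -g x ≠ 0} = {x | g x ≠ 0} := by
        ext x
        simp
      rw [this]
      exact hN
  · exact hyp_pos h1 G0 G1 h U hU hG0 hG1 hh g hg x0 hx0 j hgt hN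

end Pool.Agent.H256.RD
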