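import Pool.Agent.H256.RD.Stm

/-!
# Regularity of the iterated partial derivatives (helper96, job 7320)
-/

open MeasureTheory Set Filter Topology
open scoped ContDiff

noncomputable section

namespace Pool.Agent.H256.RD

theorem contDiffOn_pd {U : Set Pl} (hU : IsOpen U) {n m : WithTop ℕ∞} {f : Pl → ℂ} (l : Fin 2)
    (hf : ContDiffOn ℝ m f U) (hnm : n + 1 ≤ m) : ContDiffOn ℝ n (pd l f) U :=
  (hf.fderiv_of_isOpen hU hnm).clm_apply contDiffOn_const

theorem contDiffOn_pd_iter {U : Set Pl} (hU : IsOpen U) {n : WithTop ℕ∞} (l : Fin 2) (k : ℕ) :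
    ∀ {f : Pl → ℂ}, ContDiffOn ℝ (n + (k : ℕ)) f U → ContDiffOn ℝ n ((pd l)^[k] f) U := by
  induction k with
  | zero =>
    intro f hf
    simpa using hf
  | succ k ih =>
    intro f hf
    rw [Function.iterate_succ_apply]
    apply ih
    apply contDiffOn_pd hU l hf
    push_cast
    rw [add_assoc]

/-- regularity of the iterated partial derivatives -/
theorem contDiffOn_jt {U : Set Pl} (hU : IsOpen U) {n : WithTop ℕ∞} {f : Pl → ℂ} (i j : ℕ)
    (hf : ContDiffOn ℝ (n + ((i + j : ℕ) : WithTop ℕ∞)) f U) : ContDiffOn ℝ n (jt i j f) U := by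
  unfold jt
  apply contDiffOn_pd_iter hU
  apply contDiffOn_pd_iter hU
  rw [show n + ((j : ℕ) : WithTop ℕ∞) + ((i : ℕ) : WithTop ℕ∞) =
    n + ((i + j : ℕ) : WithTop ℕ∞) by push_cast; rw [add_assoc, add_comm (j : WithTop ℕ∞)]]
  exact hf

theorem continuousOn_jt {U : Set Pl} (hU : IsOpen U) {f : Pl → ℂ} {m : WithTop ℕ∞} (i j : ℕ)
    (hf : ContDiffOn ℝ m f U) (h : ((i + j : ℕ) : WithTop ℕ∞) ≤ m) :
    ContinuousOn (jt i j f) U := by
  have h1 : ContDiffOn ℝ (0 + ((i + j : ℕ) : WithTop ℕ∞)) f U := by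
    rw [zero_add]
    exact hf.of_le h
  exact (contDiffOn_jt hU i j h1).continuousOn

theorem contDiffOn_one_jt {U : Set Pl} (hU : IsOpen U) {f : Pl → ℂ} {m : WithTop ℕ∞} (i j : ℕ)
    (hf : ContDiffOn ℝ m f U) (h : ((i + j + 1 : ℕ) : WithTop ℕ∞) ≤ m) :
    ContDiffOn ℝ 1 (jt i j f) U := by
  apply contDiffOn_jt hU i j
  refine hf.of_le (le_trans (le_of_eq ?_) h)
  push_cast
  rw [add_comm]

theorem jt_succ_right (i j : ℕ) (f : Pl → ℂ) : jt i (j + 1) f = pd 1 (jt i j f) := by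
  unfold jt
  rw [Function.iterate_succ_apply']

theorem jt_succ_left (i : ℕ) (f : Pl → ℂ) : jt (i + 1) 0 f = pd 0 (jt i 0 f) := by
  unfold jt
  rw [Function.iterate_zero, Function.iterate_succ_apply']
  rfl

theorem Test.mono {U V : Set Pl} (h : V ⊆ U) {φ : Pl → ℂ} (hφ : Test V φ) : Test U φ :=
  ⟨hφ.smooth, hφ.cpt, hφ.sub.trans h⟩

theorem Null.mono {T : (Pl → ℂ) → ℂ} {U V : Set Pl} (h : V ⊆ U) (hU : Null T U) : Null T V :=
  fun φ hφ => hU φ (hφ.mono h)

end Pool.Agent.H256.RD
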