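import Pool.Agent.H256.RD.Stm

/-!
# Localization of first order functionals (RP4-LOC, helper308)
-/

set_option autoImplicit false

open MeasureTheory Set Filter Topology
open scoped ContDiff Manifold

noncomputable section

namespace Pool.Agent.H256.RD

variable {U : Set Pl} {G0 G1 h : Pl → ℂ}

lemma mul_continuous {G ψ : Pl → ℂ} (hU : IsOpen U) (hG : ContinuousOn G U) (hψ : Continuous ψ)
    (hs : tsupport ψ ⊆ U) : Continuous (fun x => G x * ψ x) := by
  rw [continuous_iff_continuousAt]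
  intro x
  by_cases hx : x ∈ U
  · exact (hG.continuousAt (hU.mem_nhds hx)).mul hψ.continuousAt
  · have h1 : ψ =ᶠ[𝓝 x] 0 := notMem_tsupport_iff_eventuallyEq.1 fun h => hx (hs h)
    have h2 : (fun x => G x * ψ x) =ᶠ[𝓝 x] fun _ => 0 := by
      filter_upwards [h1] with y hy
      simp [hy]
    exact continuousAt_const.congr h2.symm

lemma mul_integrable {G ψ : Pl → ℂ} (hU : IsOpen U) (hG : ContinuousOn G U) (hψ : Continuous ψ)
    (hc : HasCompactSupport ψ) (hs : tsupport ψ ⊆ U) : Integrable (fun x => G x * ψ x) :=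
  (mul_continuous hU hG hψ hs).integrable_of_hasCompactSupport hc.mul_left

lemma pd_continuous {ψ : Pl → ℂ} (hψ : ContDiff ℝ 1 ψ) (j : Fin 2) : Continuous (pd j ψ) :=
  (hψ.continuous_fderiv (by simp)).clm_apply continuous_const

lemma pd_tsupport (ψ : Pl → ℂ) (j : Fin 2) : tsupport (pd j ψ) ⊆ tsupport ψ :=
  tsupport_fderiv_apply_subset ℝ _

lemma pd_cpt {ψ : Pl → ℂ} (hc : HasCompactSupport ψ) (j : Fin 2) : HasCompactSupport (pd j ψ) :=
  hc.of_isClosed_subset (isClosed_tsupport _) (pd_tsupport ψ j)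

/-- the integrand of `TT` is integrable for `C¹` test functions -/
lemma TT_integrable (hU : IsOpen U) (h0 : ContinuousOn G0 U) (h1 : ContinuousOn G1 U)
    (hh : ContinuousOn h U) {ψ : Pl → ℂ} (hψ : ContDiff ℝ 1 ψ) (hc : HasCompactSupport ψ)
    (hs : tsupport ψ ⊆ U) :
    Integrable (fun x => G0 x * pd 0 ψ x + G1 x * pd 1 ψ x + h x * ψ x) :=
  ((mul_integrable hU h0 (pd_continuous hψ 0) (pd_cpt hc 0) ((pd_tsupport ψ 0).trans hs)).add
    (mul_integrable hU h1 (pd_continuous hψ 1) (pd_cpt hc 1) ((pd_tsupport ψ 1).trans hs))).add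
    (mul_integrable hU hh hψ.continuous hc hs)

lemma Test.c1 {φ : Pl → ℂ} (hφ : Test U φ) : ContDiff ℝ 1 φ := hφ.smooth.of_le (by simp)

lemma pd_add {φ ψ : Pl → ℂ} (hφ : ContDiff ℝ 1 φ) (hψ : ContDiff ℝ 1 ψ) (j : Fin 2) (x : Pl) :
    pd j (fun y => φ y + ψ y) x = pd j φ x + pd j ψ x := by
  unfold pd
  rw [fderiv_fun_add ((hφ.differentiable (by simp)) x) ((hψ.differentiable (by simp)) x)]
  rfl

lemma pd_smul {φ : Pl → ℂ} (hφ : ContDiff ℝ 1 φ) (c : ℂ) (j : Fin 2) (x : Pl) :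
    pd j (fun y => c * φ y) x = c * pd j φ x := by
  unfold pd
  rw [fderiv_const_mul ((hφ.differentiable (by simp)) x)]
  rfl

lemma pd_sum {ι : Type*} (s : Finset ι) {φ : ι → Pl → ℂ} (hφ : ∀ i ∈ s, ContDiff ℝ 1 (φ i))
    (j : Fin 2) (x : Pl) : pd j (fun y => ∑ i ∈ s, φ i y) x = ∑ i ∈ s, pd j (φ i) x := by
  unfold pd
  rw [fderiv_fun_sum (fun i hi => (hφ i hi).differentiable (by simp) x)]
  rw [sum_apply]

theorem TT_add (hU : IsOpen U) (h0 : ContinuousOn G0 U) (h1 : ContinuousOn G1 U)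
    (hh : ContinuousOn h U) {φ ψ : Pl → ℂ} (hφ : Test U φ) (hψ : Test U ψ) :
    TT G0 G1 h (fun y => φ y + ψ y) = TT G0 G1 h φ + TT G0 G1 h ψ := by
  unfold TT
  rw [← integral_add (TT_integrable hU h0 h1 hh hφ.c1 hφ.cpt hφ.sub)
    (TT_integrable hU h0 h1 hh hψ.c1 hψ.cpt hψ.sub)]
  refine integral_congr_ae (Eventually.of_forall fun x => ?_)
  simp only
  rw [pd_add hφ.c1 hψ.c1, pd_add hφ.c1 hψ.c1]
  ring

theorem TT_smul {φ : Pl → ℂ} (hφ : Test U φ) (c : ℂ) :
    TT G0 G1 h (fun y => c * φ y) = c * TT G0 G1 h φ := by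
  unfold TT
  rw [← integral_const_mul]
  refine integral_congr_ae (Eventually.of_forall fun x => ?_)
  simp only
  rw [pd_smul hφ.c1, pd_smul hφ.c1]
  ring

theorem TT_sum (hU : IsOpen U) (h0 : ContinuousOn G0 U) (h1 : ContinuousOn G1 U)
    (hh : ContinuousOn h U) {ι : Type*} (s : Finset ι) {φ : ι → Pl → ℂ}
    (hφ : ∀ i ∈ s, Test U (φ i)) :
    TT G0 G1 h (fun y => ∑ i ∈ s, φ i y) = ∑ i ∈ s, TT G0 G1 h (φ i) := by
  unfold TT
  rw [← integral_finsetSum s (fun i hi =>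
    TT_integrable hU h0 h1 hh (hφ i hi).c1 (hφ i hi).cpt (hφ i hi).sub)]
  refine integral_congr_ae (Eventually.of_forall fun x => ?_)
  simp only
  rw [pd_sum s (fun i hi => (hφ i hi).c1), pd_sum s (fun i hi => (hφ i hi).c1),
    Finset.mul_sum, Finset.mul_sum, Finset.mul_sum, ← Finset.sum_add_distrib,
    ← Finset.sum_add_distrib]

theorem loc : LocStm := by
  intro G0 G1 h U hU h0 h1 hh hV φ hφ
  classical
  choose! V hVo hVm hVn using hV
  obtain ⟨t, htK, hcov⟩ := hφ.cpt.elim_nhds_subcover V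
    (fun x hx => (hVo x (hφ.sub hx)).mem_nhds (hVm x (hφ.sub hx)))
  have hcov' : tsupport φ ⊆ ⋃ i : t, V i := by
    intro x hx
    obtain ⟨i, hi, hxi⟩ := mem_iUnion₂.1 (hcov hx)
    exact mem_iUnion.2 ⟨⟨i, hi⟩, hxi⟩
  obtain ⟨f, hf⟩ := SmoothPartitionOfUnity.exists_isSubordinate 𝓘(ℝ, Pl) (isClosed_tsupport φ)
    (fun i : t => V i) (fun i => hVo i (hφ.sub (htK i i.2))) hcov'
  have hTe : ∀ i : t, Test (V i ∩ U) (fun x => ((f i x : ℝ) : ℂ) * φ x) := by
    intro i
    have hsm : ContDiff ℝ ∞ (fun x => ((f i x : ℝ) : ℂ)) :=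
      Complex.ofRealCLM.contDiff.comp (f i).contMDiff.contDiff
    refine ⟨hsm.mul hφ.smooth, hφ.cpt.mul_left, ?_⟩
    refine subset_inter ?_ ?_
    · refine Subset.trans ?_ (hf i)
      refine closure_mono (fun x hx => ?_)
      rw [Function.mem_support] at hx ⊢
      intro h0
      apply hx
      rw [h0]
      simp
    · refine Subset.trans ?_ hφ.sub
      refine closure_mono (fun x hx => ?_)
      rw [Function.mem_support] at hx ⊢
      intro h0
      apply hx
      rw [h0]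
      simp
  have hTU : ∀ i ∈ (Finset.univ : Finset t), Test U (fun x => ((f i x : ℝ) : ℂ) * φ x) :=
    fun i _ => ⟨(hTe i).smooth, (hTe i).cpt, (hTe i).sub.trans inter_subset_right⟩
  have hsum : φ = fun x => ∑ i : t, ((f i x : ℝ) : ℂ) * φ x := by
    funext x
    by_cases hx : x ∈ tsupport φ
    · have h2 := f.sum_eq_one hx
      rw [finsum_eq_sum_of_fintype] at h2
      rw [← Finset.sum_mul, ← Complex.ofReal_sum, h2]
      simp
    · have h2 : φ x = 0 := image_eq_zero_of_notMem_tsupport hx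
      simp [h2]
  rw [hsum, TT_sum hU h0 h1 hh Finset.univ hTU]
  exact Finset.sum_eq_zero fun i _ => hVn i (hφ.sub (htK i i.2)) _ (hTe i)

end Pool.Agent.H256.RD
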