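import Pool.Agent.H256.RD.Jt

open MeasureTheory Set Filter Topology
open scoped ContDiff

noncomputable section

namespace Pool.Agent.H256.RD

theorem cdo_pd {n : ℕ} {U : Set Pl} (hU : IsOpen U) {f : Pl → ℂ} (l : Fin 2)
    (hf : ContDiffOn ℝ (n + 1 : ℕ) f U) : ContDiffOn ℝ n (pd l f) U := by
  have h1 : ContDiffOn ℝ n (fderiv ℝ f) U :=
    hf.fderiv_of_isOpen hU (by norm_cast)
  exact h1.clm_apply contDiffOn_const

theorem cdo_pd_iter {n : ℕ} {U : Set Pl} (hU : IsOpen U) (l : Fin 2) :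
    ∀ (k : ℕ) {f : Pl → ℂ}, ContDiffOn ℝ (n + k : ℕ) f U → ContDiffOn ℝ n ((pd l)^[k] f) U := by
  intro k
  induction k with
  | zero => intro f hf; simpa using hf
  | succ k ih =>
    intro f hf
    rw [Function.iterate_succ_apply]
    exact ih (cdo_pd hU l (by rw [← add_assoc] at hf; exact hf))

theorem cdo_jt {n i j : ℕ} {U : Set Pl} (hU : IsOpen U) {f : Pl → ℂ}
    (hf : ContDiffOn ℝ (n + (i + j) : ℕ) f U) : ContDiffOn ℝ n (jt i j f) U := by
  unfold jt
  apply cdo_pd_iter hU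
  apply cdo_pd_iter hU
  convert hf using 2
  norm_cast
  omega

theorem main (hL : LocStm) (hOrd : OrdStm) (hA : AnaStm) (hR : RadStm) (hRep : RepStm)
    (hRep2 : Rep2Stm) (hRoot : RootStm) : MainStm := by
  intro p hp X hX a ha hell O hO hOX f hf hz
  have haO : ∀ i j, ContDiffOn ℝ ∞ (a i j) O := fun i j =>
    ((ha i j).mono hOX).contDiffOn (hO.uniqueDiffOn)
  obtain ⟨G0, G1, h, c0, c1, ch, hrep⟩ := hRep p hp O hO f hf a haO
  have hcf : ContinuousOn f O := hf.continuousOn
  set T := TT G0 G1 h with hT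
  -- the open set where some derivative of order `< p` does not vanish
  set U1 : Set Pl := {x | x ∈ O ∧ ∃ i j, i + j < p ∧ jt i j f x ≠ 0} with hU1
  have hcj : ∀ i j, i + j < p → ContinuousOn (jt i j f) O := by
    intro i j hij
    have : ContDiffOn ℝ (0 : ℕ) (jt i j f) O := by
      apply cdo_jt hO
      apply hf.of_le
      norm_cast
      omega
    exact this.continuousOn
  have hU1o : IsOpen U1 := by
    rw [isOpen_iff_mem_nhds]
    rintro x ⟨hxO, i, j, hij, hx⟩
    have h1 : ContinuousAt (jt i j f) x := (hcj i j hij).continuousAt (hO.mem_nhds hxO)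
    filter_upwards [h1.eventually_ne hx, hO.mem_nhds hxO] with y hy hyO
    exact ⟨hyO, i, j, hij, hy⟩
  have hU1O : U1 ⊆ O := fun x hx => hx.1
  have hfo : IsOpen (O \ {x | f x = 0}) := by
    have : O \ {x | f x = 0} = O ∩ f ⁻¹' {0}ᶜ := by
      ext x; simp
    rw [this]
    exact hcf.isOpen_inter_preimage hO isOpen_compl_singleton
  have hnull0 : Null T (O \ {x | f x = 0}) := by
    intro φ hφ
    rw [← hrep φ (hφ.mono diff_subset)]
    exact hz φ hφ
  have hnullU1 : Null T U1 := by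
    apply hOrd G0 G1 h U1 hU1o (c0.mono hU1O) (c1.mono hU1O) (ch.mono hU1O) ((p - 1 : ℕ) : ℕ∞) f
      (by exact_mod_cast hf.mono hU1O)
    · intro x hx hs
      by_contra hne
      exact hs _ hfo ⟨hx.1, hne⟩ hnull0
    · rintro x ⟨-, i, j, hij, hne⟩ -
      exact ⟨i, j, by norm_cast; omega, hne⟩
  suffices hmain : Null T O by
    intro φ hφ
    rw [hrep φ hφ]
    exact hmain φ hφ
  by_contra hcon
  set S : Set Pl := {x | x ∈ O ∧ Sp T x} with hS
  have hSne : S.Nonempty := by
    by_contra hemp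
    rw [not_nonempty_iff_eq_empty] at hemp
    apply hcon
    apply hL G0 G1 h O hO c0 c1 ch
    intro x hx
    have hns : ¬ Sp T x := by
      intro hs
      have : x ∈ S := ⟨hx, hs⟩
      rw [hemp] at this
      exact this
    unfold Sp at hns
    push Not at hns
    obtain ⟨V, hVo, hxV, hV⟩ := hns
    exact ⟨V, hVo, hxV, hV.mono inter_subset_left⟩
  have hSX : S ⊆ X := fun x hx => hOX hx.1
  have hyp : ∀ x0 ∈ S, ∀ d : Pl → ℂ, AnalyticAt ℝ d x0 → (∀ᶠ x in 𝓝 x0, x ∈ S → d x = 0) →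
      ∀ᶠ x in 𝓝 x0, d x = 0 := by
    intro x0 hx0 d hd hev
    by_contra hne
    obtain ⟨U, hUo, hxU, hdU, hUj⟩ := hA d x0 hd hne
    obtain ⟨W, hW, hWo, hxW⟩ := eventually_nhds_iff.1 hev
    set V := U ∩ W ∩ O with hV
    have hVo : IsOpen V := (hUo.inter hWo).inter hO
    have hVO : V ⊆ O := inter_subset_right
    have hVn : Null T V := by
      apply hOrd G0 G1 h V hVo (c0.mono hVO) (c1.mono hVO) (ch.mono hVO) ⊤ d
        (hdU.mono (fun x hx => hx.1.1))
      · intro x hx hs
        exact hW x hx.1.2 ⟨hx.2, hs⟩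
      · intro x hx _
        obtain ⟨i, j, hij⟩ := hUj x hx.1.1
        exact ⟨i, j, le_top, hij⟩
    exact hx0.2 V hVo ⟨⟨hxU, hxW⟩, hx0.1⟩ hVn
  obtain ⟨x0, hx0, r, hr, hball, τ, q, hτ, hq, hsign, hfac⟩ :=
    hRoot p hp X hX a ha hell S hSne hSX hyp
  set B : Set Pl := Metric.ball x0 r ∩ O with hB
  have hBo : IsOpen B := Metric.isOpen_ball.inter hO
  have hBO : B ⊆ O := inter_subset_right
  have hBb : B ⊆ Metric.ball x0 r := inter_subset_left
  obtain ⟨h', ch', hz', hrep'⟩ := hRep2 p hp B hBo f (hf.mono hBO) a (fun i j => (haO i j).mono hBO)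
    τ q (hτ.mono hBb) (fun j => (hq j).mono hBb) (fun x hx => hfac x (hBb hx))
  set G : Pl → ℂ := fun x => Complex.I ^ p * (-1) ^ (p - 1) *
            ∑ j ∈ Finset.range p, q j x * jt (p - 1 - j) j f x with hG
  have cG : ContinuousOn G B := by
    apply continuousOn_const.mul
    apply continuousOn_finsetSum
    intro j hj
    have hj' := Finset.mem_range.1 hj
    exact (((hq j).mono hBb).continuousOn).mul ((hcj _ _ (by omega)).mono hBO)
  have hBZ : B \ (O \ U1) = B ∩ U1 := by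
    ext x
    constructor
    · rintro ⟨hx, hx2⟩
      refine ⟨hx, ?_⟩
      by_contra hx3
      exact hx2 ⟨hBO hx, hx3⟩
    · rintro ⟨hx, hx2⟩
      exact ⟨hx, fun h3 => h3.2 hx2⟩
  have key : Null (TL τ G h') B := by
    apply hR B hBo τ G h' (hτ.mono hBb) _ cG ch' (O \ U1)
    · rw [hBZ]; exact hBo.inter hU1o
    · rintro x ⟨hxB, hxO, hxU⟩
      have hjets : ∀ i j, i + j < p → jt i j f x = 0 := by
        intro i j hij
        by_contra hne
        exact hxU ⟨hxO, i, j, hij, hne⟩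
      refine ⟨?_, hz' x hxB hjets⟩
      simp only [hG]
      rw [Finset.sum_eq_zero, mul_zero]
      intro j hj
      rw [hjets _ _ (by have := Finset.mem_range.1 hj; omega), mul_zero]
    · intro φ hφ
      rw [hBZ] at hφ
      have h1 : Test B φ := hφ.mono inter_subset_left
      rw [← hrep' φ h1, hrep φ (h1.mono hBO)]
      exact hnullU1 φ (hφ.mono inter_subset_right)
    · rcases hsign with hs | hs
      · exact Or.inl fun x hx => hs x (hBb hx)
      · exact Or.inr fun x hx => hs x (hBb hx)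
  have hTB : Null T B := by
    intro φ hφ
    rw [← hrep φ (hφ.mono hBO), hrep' φ hφ]
    exact key φ hφ
  exact hx0.2 B hBo ⟨Metric.mem_ball_self hr, hx0.1⟩ hTB

end Pool.Agent.H256.RD
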