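import Pool.Agent.H256.RD.Stm

/-!
# Mollification with a commutator bound
-/

open MeasureTheory Set Filter Topology
open scoped ContDiff Convolution

noncomputable section

namespace Pool.Agent.H256.RD

theorem pd_zero_of_nhds {j : Fin 2} {f : Pl → ℂ} {x : Pl} (h : f =ᶠ[𝓝 x] fun _ => 0) :
    pd j f x = 0 := by
  simp only [pd, h.fderiv_eq]
  simp

theorem mol_exists_rho : ∃ ρ : Pl → ℂ, ContDiff ℝ ∞ ρ ∧ tsupport ρ ⊆ Metric.closedBall 0 1 ∧
    ∫ x, ρ x = 1 := by
  let φ : ContDiffBump (0 : Pl) := ⟨1 / 2, 1, by norm_num, by norm_num⟩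
  refine ⟨fun x => ((φ.normed volume x : ℝ) : ℂ), ?_, ?_, ?_⟩
  · exact Complex.ofRealCLM.contDiff.comp φ.contDiff_normed
  · have h1 : tsupport (fun x => ((φ.normed volume x : ℝ) : ℂ)) ⊆ tsupport (φ.normed volume) := by
      apply closure_mono
      intro x hx
      simpa [Function.mem_support] using hx
    refine h1.trans ?_
    rw [φ.tsupport_normed_eq]
  · rw [integral_complex_ofReal, φ.integral_normed]
    simp

theorem mol_rho : ∃ R : ℝ, 0 ≤ R ∧ ∀ δ : ℝ, 0 < δ → ∃ ρ : Pl → ℂ, ContDiff ℝ ∞ ρ ∧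
    tsupport ρ ⊆ Metric.closedBall 0 δ ∧ (∫ x, ρ x = 1) ∧ (∀ x, ‖ρ x‖ ≤ R / δ ^ 2) ∧
    ∀ j x, ‖pd j ρ x‖ ≤ R / δ ^ 3 := by
  obtain ⟨ρ, hs, ht, hi⟩ := mol_exists_rho
  have hc : HasCompactSupport ρ :=
    HasCompactSupport.of_support_subset_isCompact (isCompact_closedBall 0 1)
      ((subset_tsupport ρ).trans ht)
  obtain ⟨R0, hR0⟩ := hs.continuous.bounded_above_of_compact_support hc
  obtain ⟨R1, hR1⟩ := (hs.continuous_fderiv (by simp)).bounded_above_of_compact_support
    (hc.fderiv (𝕜 := ℝ))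
  have hR00 : 0 ≤ R0 := (norm_nonneg _).trans (hR0 0)
  have hR10 : 0 ≤ R1 := (norm_nonneg _).trans (hR1 0)
  refine ⟨max R0 R1, le_max_of_le_left hR00, ?_⟩
  intro δ hδ
  refine ⟨fun x => (((δ ^ 2)⁻¹ : ℝ) : ℂ) * ρ (δ⁻¹ • x), ?_, ?_, ?_, ?_, ?_⟩
  · exact contDiff_const.mul (hs.comp (contDiff_const_smul _))
  · apply closure_minimal _ Metric.isClosed_closedBall
    intro x hx
    rw [Function.mem_support] at hx
    have h1 : ρ (δ⁻¹ • x) ≠ 0 := right_ne_zero_of_mul hx
    have h2 := ht (subset_tsupport ρ h1)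
    rw [mem_closedBall_zero_iff, norm_smul, norm_inv, Real.norm_of_nonneg hδ.le] at h2
    rw [mem_closedBall_zero_iff]
    rw [inv_mul_le_iff₀ hδ, mul_one] at h2
    exact h2
  · rw [integral_const_mul, Measure.integral_comp_smul, hi]
    simp only [finrank_euclideanSpace, Fintype.card_fin]
    rw [Complex.real_smul, mul_one, ← Complex.ofReal_mul]
    norm_cast
    rw [abs_of_nonneg (by positivity)]
    field_simp
  · intro x
    rw [norm_mul, Complex.norm_real, Real.norm_of_nonneg (by positivity), div_eq_inv_mul]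
    exact mul_le_mul_of_nonneg_left ((hR0 _).trans (le_max_left _ _)) (by positivity)
  · intro j x
    have hd : DifferentiableAt ℝ ρ (δ⁻¹ • x) := hs.differentiable (by simp) _
    have h1 : HasFDerivAt (fun x : Pl => (((δ ^ 2)⁻¹ : ℝ) : ℂ) * ρ (δ⁻¹ • x))
        ((((δ ^ 2)⁻¹ : ℝ) : ℂ) • ((fderiv ℝ ρ (δ⁻¹ • x)).comp
          (δ⁻¹ • ContinuousLinearMap.id ℝ Pl))) x := by
      have h2 : HasFDerivAt (fun x : Pl => δ⁻¹ • x) (δ⁻¹ • ContinuousLinearMap.id ℝ Pl) x :=
        (hasFDerivAt_id x).const_smul δ⁻¹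
      exact (hd.hasFDerivAt.comp x h2).const_mul _
    have h3 : pd j (fun x : Pl => (((δ ^ 2)⁻¹ : ℝ) : ℂ) * ρ (δ⁻¹ • x)) x =
        (((δ ^ 2)⁻¹ : ℝ) : ℂ) * (δ⁻¹ • (fderiv ℝ ρ (δ⁻¹ • x)) (EuclideanSpace.single j (1 : ℝ))) := by
      simp only [pd, h1.fderiv]
      simp
    rw [h3, norm_mul, norm_smul, Complex.norm_real, Real.norm_of_nonneg (by positivity),
      Real.norm_of_nonneg (by positivity)]
    have h4 : ‖(fderiv ℝ ρ (δ⁻¹ • x)) (EuclideanSpace.single j (1 : ℝ))‖ ≤ max R0 R1 := by
      refine ((fderiv ℝ ρ (δ⁻¹ • x)).le_opNorm _).trans ?_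
      rw [PiLp.norm_single, norm_one, mul_one]
      exact (hR1 _).trans (le_max_right _ _)
    calc (δ ^ 2)⁻¹ * (δ⁻¹ * ‖(fderiv ℝ ρ (δ⁻¹ • x)) (EuclideanSpace.single j (1 : ℝ))‖)
        ≤ (δ ^ 2)⁻¹ * (δ⁻¹ * max R0 R1) := by gcongr
      _ = max R0 R1 / δ ^ 3 := by field_simp

theorem mol_integrable {S : Set Pl} (hS : IsCompact S) {F : Pl → ℂ} (h0 : ∀ y, y ∉ S → F y = 0)
    (hc : ContinuousOn F S) : Integrable F := by
  have h1 : IntegrableOn F S := hc.integrableOn_compact hS
  rwa [integrableOn_iff_integrable_of_support_subset] at h1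
  intro y hy
  by_contra h
  exact hy (h0 y h)

theorem mol_bound {x : Pl} {δ b : ℝ} (hδ : 0 ≤ δ) {F : Pl → ℂ}
    (h0 : ∀ y, y ∉ Metric.closedBall x δ → F y = 0)
    (hb : ∀ y ∈ Metric.closedBall x δ, ‖F y‖ ≤ b) :
    ‖∫ y, F y‖ ≤ b * (δ ^ 2 * volume.real (Metric.closedBall (0 : Pl) 1)) := by
  rw [← setIntegral_eq_integral_of_forall_compl_eq_zero h0]
  refine (norm_setIntegral_le_of_norm_le_const measure_closedBall_lt_top hb).trans ?_
  rw [Measure.addHaar_real_closedBall' volume x hδ]
  simp only [finrank_euclideanSpace, Fintype.card_fin]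
  exact le_rfl

theorem mol : MolStm := by
  intro B hB τ G h hτ hG hh Z hBZ hZ hN K hK hKB
  obtain ⟨δ₀, hδ₀, hsub⟩ := hK.exists_cthickening_subset_open hB hKB
  have hK' : IsCompact (Metric.cthickening δ₀ K) := hK.cthickening
  set K' := Metric.cthickening δ₀ K with hK'def
  obtain ⟨A, hA⟩ := hK'.exists_bound_of_continuousOn (hG.mono hsub)
  obtain ⟨H, hH⟩ := hK'.exists_bound_of_continuousOn (hh.mono hsub)
  have hτd : ContinuousOn (fderiv ℝ τ) B := hτ.continuousOn_fderiv_of_isOpen hB (by simp)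
  obtain ⟨D, hD⟩ := hK'.exists_bound_of_continuousOn (hτd.mono hsub)
  obtain ⟨R, hR, hρ⟩ := mol_rho
  set c := volume.real (Metric.closedBall (0 : Pl) 1) with hc
  have hc0 : 0 ≤ c := measureReal_nonneg
  set A' := max A 0 with hA'
  set H' := max H 0 with hH'
  set D' := max D 0 with hD'
  have hA'0 : 0 ≤ A' := le_max_right _ _
  have hH'0 : 0 ≤ H' := le_max_right _ _
  have hD'0 : 0 ≤ D' := le_max_right _ _
  refine ⟨(2 * (A' * D' * R) + H' * R) * c, ?_⟩
  intro ε hε
  set ε' := min (ε / 2) (ε / (c * R + 1)) with hε'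
  have hcR : 0 < c * R + 1 := by positivity
  have hε'0 : 0 < ε' := lt_min (by positivity) (by positivity)
  have huc := hK'.uniformContinuousOn_of_continuous (hG.mono hsub)
  rw [Metric.uniformContinuousOn_iff] at huc
  obtain ⟨δ₁, hδ₁, hunif⟩ := huc ε' hε'0
  set δ := min δ₀ (δ₁ / 2) with hδdef
  have hδ : 0 < δ := lt_min hδ₀ (by positivity)
  obtain ⟨ρ, hρs, hρt, hρi, hρb, hρd⟩ := hρ δ hδ
  have hρc : HasCompactSupport ρ :=
    HasCompactSupport.of_support_subset_isCompact (isCompact_closedBall 0 δ)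
      ((subset_tsupport ρ).trans hρt)
  have hball : ∀ x ∈ K, Metric.closedBall x δ ⊆ K' := by
    intro x hx
    exact (Metric.closedBall_subset_cthickening hx δ).trans
      (Metric.cthickening_mono (min_le_left _ _) K)
  have hKK' : K ⊆ K' := Metric.self_subset_cthickening K
  have hnear : ∀ x ∈ K, ∀ y ∈ Metric.closedBall x δ, ‖G y - G x‖ < ε' := by
    intro x hx y hy
    rw [← dist_eq_norm]
    apply hunif y (hball x hx hy) x (hKK' hx)
    rw [Metric.mem_closedBall] at hy
    have : δ ≤ δ₁ / 2 := min_le_right _ _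
    linarith
  set Gt : Pl → ℂ := K'.indicator G with hGt
  have hGtloc : LocallyIntegrable Gt := by
    apply Integrable.locallyIntegrable
    rw [hGt, integrable_indicator_iff hK'.measurableSet]
    exact (hG.mono hsub).integrableOn_compact hK'
  set g : Pl → ℂ := Gt ⋆[ContinuousLinearMap.mul ℝ ℂ, volume] ρ with hg
  have hgs : ContDiff ℝ ∞ g := hρc.contDiff_convolution_right _ hGtloc hρs
  have hgx : ∀ x, g x = ∫ y, Gt y * ρ (x - y) := fun x => rfl
  have hgd : ∀ j x, pd j g x = ∫ y, Gt y * pd j ρ (x - y) := by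
    intro j x
    have h1 := hρc.hasFDerivAt_convolution_right (ContinuousLinearMap.mul ℝ ℂ) hGtloc
      (hρs.of_le (by simp)) x
    simp only [pd]
    rw [h1.fderiv, convolution_precompR_apply (ContinuousLinearMap.mul ℝ ℂ) hGtloc
      (hρc.fderiv (𝕜 := ℝ))
      (hρs.continuous_fderiv (by simp))]
    rfl
  have hρ0 : ∀ x y, y ∉ Metric.closedBall x δ → ρ (x - y) = 0 := by
    intro x y hy
    apply image_eq_zero_of_notMem_tsupport
    intro h1
    have h2 := hρt h1
    rw [mem_closedBall_zero_iff, ← dist_eq_norm, dist_comm] at h2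
    exact hy h2
  have hρd0 : ∀ j x y, y ∉ Metric.closedBall x δ → pd j ρ (x - y) = 0 := by
    intro j x y hy
    have h3 : x - y ∉ tsupport ρ := by
      intro h1
      have h2 := hρt h1
      rw [mem_closedBall_zero_iff, ← dist_eq_norm, dist_comm] at h2
      exact hy h2
    apply pd_zero_of_nhds
    filter_upwards [(isClosed_tsupport ρ).isOpen_compl.mem_nhds h3] with z hz
    exact image_eq_zero_of_notMem_tsupport hz
  refine ⟨g, hgs, ?_, ?_⟩
  · intro x hx
    have hi1 : Integrable (fun y => ρ (x - y)) := by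
      apply mol_integrable (isCompact_closedBall x δ) (hρ0 x)
      exact (hρs.continuous.comp (continuous_const.sub continuous_id)).continuousOn
    have hi2 : Integrable (fun y => Gt y * ρ (x - y)) := by
      apply mol_integrable (isCompact_closedBall x δ)
      · intro y hy
        rw [hρ0 x y hy, mul_zero]
      · refine ContinuousOn.congr (f := fun y => G y * ρ (x - y)) ?_ ?_
        · exact ((hG.mono hsub).mono (hball x hx)).mul
            (hρs.continuous.comp (continuous_const.sub continuous_id)).continuousOn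
        · intro y hy
          simp only [hGt, indicator_of_mem (hball x hx hy)]
    have h1 : g x - G x = ∫ y, (Gt y * ρ (x - y) - G x * ρ (x - y)) := by
      rw [integral_sub hi2 (hi1.const_mul _), integral_const_mul, ← hgx]
      congr 1
      rw [integral_sub_left_eq_self (fun y => ρ y) volume x, hρi, mul_one]
    rw [h1]
    have hb := mol_bound (b := ε' * (R / δ ^ 2)) (x := x) hδ.le
      (F := fun y => Gt y * ρ (x - y) - G x * ρ (x - y))
      (fun y hy => by simp only [hρ0 x y hy, mul_zero, sub_zero])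
      (fun y hy => by
        simp only [hGt, indicator_of_mem (hball x hx hy)]
        rw [← sub_mul, norm_mul]
        exact mul_le_mul (hnear x hx y hy).le (hρb _) (norm_nonneg _) hε'0.le)
    refine hb.trans ?_
    have h2 : ε' * (R / δ ^ 2) * (δ ^ 2 * volume.real (Metric.closedBall (0 : Pl) 1))
        = ε' * (c * R) := by
      rw [← hc]
      field_simp
    rw [h2]
    have h3 : ε' ≤ ε / (c * R + 1) := min_le_right _ _
    calc ε' * (c * R) ≤ ε / (c * R + 1) * (c * R + 1) := by
          apply mul_le_mul h3 (by linarith) (by positivity) (by positivity)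
      _ = ε := by field_simp
  · intro x hx hGx
    set S := Metric.closedBall x δ with hS
    have hScpt : IsCompact S := isCompact_closedBall x δ
    have hSB : S ⊆ B := (hball x hx).trans hsub
    have hSZ : S ⊆ B \ Z := by
      intro y hy
      refine ⟨hSB hy, fun hyZ => ?_⟩
      have h1 := hZ y ⟨hSB hy, hyZ⟩
      have h2 := hnear x hx y hy
      rw [h1, zero_sub, norm_neg] at h2
      have h3 : ε' ≤ ε / 2 := min_le_left _ _
      linarith
    -- the test function
    set φ : Pl → ℂ := fun y => ρ (x - y) with hφ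
    have hφs : ContDiff ℝ ∞ φ := hρs.comp (contDiff_const.sub contDiff_id)
    have hφt : tsupport φ ⊆ S := by
      apply closure_minimal _ Metric.isClosed_closedBall
      intro y hy
      by_contra h1
      exact hy (hρ0 x y h1)
    have hφtest : Test (B \ Z) φ := ⟨hφs,
      HasCompactSupport.of_support_subset_isCompact hScpt ((subset_tsupport φ).trans hφt),
      hφt.trans hSZ⟩
    have hTL := hN φ hφtest
    have hpdφ : ∀ j y, pd j φ y = - pd j ρ (x - y) := by
      intro j y
      have hd : DifferentiableAt ℝ ρ (x - y) := hρs.differentiable (by simp) _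
      have h1 : HasFDerivAt (fun y : Pl => x - y) (-ContinuousLinearMap.id ℝ Pl) y := by
        simpa using (hasFDerivAt_id y).const_sub x
      have h2 : HasFDerivAt φ ((fderiv ℝ ρ (x - y)).comp (-ContinuousLinearMap.id ℝ Pl)) y :=
        hd.hasFDerivAt.comp y h1
      simp only [pd, h2.fderiv]
      simp
    have hτφ : ∀ y, pd 0 (fun z => τ z * φ z) y = pd 0 τ y * φ y - τ y * pd 0 ρ (x - y) := by
      intro y
      by_cases hy : y ∈ S
      · have hyB := hSB hy
        have hd1 : DifferentiableAt ℝ τ y :=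
          (hτ.contDiffAt (hB.mem_nhds hyB)).differentiableAt (by simp)
        have hd2 : DifferentiableAt ℝ φ y := hφs.differentiable (by simp) _
        have h1 : HasFDerivAt (fun z => τ z * φ z) (τ y • fderiv ℝ φ y + φ y • fderiv ℝ τ y) y :=
          hd1.hasFDerivAt.mul hd2.hasFDerivAt
        have h2 : pd 0 (fun z => τ z * φ z) y = τ y * pd 0 φ y + φ y * pd 0 τ y := by
          simp only [pd, h1.fderiv]
          simp
        rw [h2, hpdφ]
        ring
      · have h1 : φ y = 0 := hρ0 x y hy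
        rw [h1, hρd0 0 x y hy]
        simp only [mul_zero, sub_zero]
        apply pd_zero_of_nhds
        filter_upwards [Metric.isClosed_closedBall.isOpen_compl.mem_nhds hy] with z hz
        have : φ z = 0 := hρ0 x z hz
        rw [this, mul_zero]
    have hcρ : ∀ j, ContinuousOn (fun y => pd j ρ (x - y)) S := by
      intro j
      have h1 : Continuous (fun z => pd j ρ z) :=
        (hρs.continuous_fderiv (by simp)).clm_apply continuous_const
      exact (h1.comp (continuous_const.sub continuous_id)).continuousOn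
    have hGS : ContinuousOn G S := hG.mono hSB
    have hi : ∀ j, Integrable (fun y => Gt y * pd j ρ (x - y)) := by
      intro j
      apply mol_integrable hScpt
      · intro y hy
        rw [hρd0 j x y hy, mul_zero]
      · refine ContinuousOn.congr (f := fun y => G y * pd j ρ (x - y)) (hGS.mul (hcρ j)) ?_
        intro y hy
        simp only [hGt, indicator_of_mem (hball x hx hy)]
    have hTLi : Integrable (fun y => G y * (pd 1 φ y - pd 0 (fun y => τ y * φ y) y) + h y * φ y) := by
      apply mol_integrable hScpt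
      · intro y hy
        rw [hτφ, hpdφ, hρd0 0 x y hy, hρd0 1 x y hy]
        have : φ y = 0 := hρ0 x y hy
        rw [this]
        simp
      · have h1 : ContinuousOn (fun y => G y * (-pd 1 ρ (x - y) -
            (pd 0 τ y * φ y - τ y * pd 0 ρ (x - y))) + h y * φ y) S := by
          have h2 : ContinuousOn (fun y => pd 0 τ y) S :=
            (hτd.mono hSB).clm_apply continuousOn_const
          have h3 : ContinuousOn φ S := hφs.continuous.continuousOn
          have h4 : ContinuousOn τ S := hτ.continuousOn.mono hSB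
          have h5 : ContinuousOn h S := hh.mono hSB
          exact (hGS.mul (((hcρ 1).neg).sub ((h2.mul h3).sub (h4.mul (hcρ 0))))).add (h5.mul h3)
        refine h1.congr ?_
        intro y _
        simp only
        rw [hτφ, hpdφ]
    have hkey : pd 1 g x - τ x * pd 0 g x = ∫ y, (Gt y * pd 1 ρ (x - y) -
        τ x * (Gt y * pd 0 ρ (x - y)) +
          (G y * (pd 1 φ y - pd 0 (fun y => τ y * φ y) y) + h y * φ y)) := by
      have hsb : Integrable (fun y => Gt y * pd 1 ρ (x - y) - τ x * (Gt y * pd 0 ρ (x - y))) :=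
        (hi 1).sub ((hi 0).const_mul _)
      rw [integral_add hsb hTLi, integral_sub (hi 1) ((hi 0).const_mul _), integral_const_mul,
        ← hgd, ← hgd]
      have : (∫ y, (G y * (pd 1 φ y - pd 0 (fun y => τ y * φ y) y) + h y * φ y)) = 0 := hTL
      rw [this, add_zero]
    rw [hkey]
    have hlip : ∀ y ∈ S, ‖τ y - τ x‖ ≤ D' * δ := by
      intro y hy
      have h1 : ∀ z ∈ S, DifferentiableAt ℝ τ z := fun z hz =>
        (hτ.contDiffAt (hB.mem_nhds (hSB hz))).differentiableAt (by simp)
      have h2 : ∀ z ∈ S, ‖fderiv ℝ τ z‖ ≤ D' := fun z hz =>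
        (hD z (hball x hx hz)).trans (le_max_left _ _)
      have h3 := (convex_closedBall x δ).norm_image_sub_le_of_norm_fderiv_le h1 h2
        (Metric.mem_closedBall_self hδ.le) hy
      refine h3.trans ?_
      apply mul_le_mul_of_nonneg_left _ hD'0
      rw [← dist_eq_norm]
      exact Metric.mem_closedBall.mp hy
    have hb := mol_bound (b := (2 * (A' * D' * R) + H' * R) / δ ^ 2) (x := x) hδ.le
      (F := fun y => Gt y * pd 1 ρ (x - y) - τ x * (Gt y * pd 0 ρ (x - y)) +
          (G y * (pd 1 φ y - pd 0 (fun y => τ y * φ y) y) + h y * φ y))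
      (fun y hy => by
        have h1 : φ y = 0 := hρ0 x y hy
        simp only [hτφ, hpdφ, hρd0 0 x y hy, hρd0 1 x y hy, h1]
        simp)
      (fun y hy => by
        have hGty : Gt y = G y := by simp only [hGt, indicator_of_mem (hball x hx hy)]
        have hAy : ‖G y‖ ≤ A' := (hA y (hball x hx hy)).trans (le_max_left _ _)
        have hHy : ‖h y‖ ≤ H' := (hH y (hball x hx hy)).trans (le_max_left _ _)
        have hDy : ‖pd 0 τ y‖ ≤ D' := by
          refine ((fderiv ℝ τ y).le_opNorm _).trans ?_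
          rw [PiLp.norm_single, norm_one, mul_one]
          exact (hD y (hball x hx hy)).trans (le_max_left _ _)
        have hφy : ‖φ y‖ ≤ R / δ ^ 2 := hρb _
        have hρy : ‖pd 0 ρ (x - y)‖ ≤ R / δ ^ 3 := hρd 0 _
        have heq : Gt y * pd 1 ρ (x - y) - τ x * (Gt y * pd 0 ρ (x - y)) +
            (G y * (pd 1 φ y - pd 0 (fun y => τ y * φ y) y) + h y * φ y)
            = G y * ((τ y - τ x) * pd 0 ρ (x - y)) - G y * (pd 0 τ y * φ y) + h y * φ y := by
          rw [hτφ, hpdφ, hGty]
          ring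
        rw [heq]
        have e1 : ‖G y * ((τ y - τ x) * pd 0 ρ (x - y))‖ ≤ A' * ((D' * δ) * (R / δ ^ 3)) := by
          rw [norm_mul, norm_mul]
          have := hlip y hy
          gcongr
        have e2 : ‖G y * (pd 0 τ y * φ y)‖ ≤ A' * (D' * (R / δ ^ 2)) := by
          rw [norm_mul, norm_mul]
          gcongr
        have e3 : ‖h y * φ y‖ ≤ H' * (R / δ ^ 2) := by
          rw [norm_mul]
          gcongr
        have e4 : A' * ((D' * δ) * (R / δ ^ 3)) + A' * (D' * (R / δ ^ 2)) + H' * (R / δ ^ 2)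
            = (2 * (A' * D' * R) + H' * R) / δ ^ 2 := by
          field_simp
          ring
        calc ‖G y * ((τ y - τ x) * pd 0 ρ (x - y)) - G y * (pd 0 τ y * φ y) + h y * φ y‖
            ≤ ‖G y * ((τ y - τ x) * pd 0 ρ (x - y)) - G y * (pd 0 τ y * φ y)‖ + ‖h y * φ y‖ :=
              norm_add_le _ _
          _ ≤ ‖G y * ((τ y - τ x) * pd 0 ρ (x - y))‖ + ‖G y * (pd 0 τ y * φ y)‖ + ‖h y * φ y‖ := by
              gcongr
              exact norm_sub_le _ _
          _ ≤ _ := by rw [← e4]; linarith)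
    refine hb.trans (le_of_eq ?_)
    rw [← hc]
    field_simp

end Pool.Agent.H256.RD
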