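import Pool.Agent.H256.RD.Jt

/-!
# The finite order argument (helper96, job 7320)
-/

open MeasureTheory Set Filter Topology
open scoped ContDiff

noncomputable section

namespace Pool.Agent.H256.RD

/-- localization: if no point of the open set `U` is in the support then `T = 0` on `U` -/
theorem null_of_not_sp (hL : LocStm) {G0 G1 h : Pl → ℂ} {U : Set Pl} (hU : IsOpen U)
    (h0 : ContinuousOn G0 U) (h1 : ContinuousOn G1 U) (h2 : ContinuousOn h U)
    (hS : ∀ x ∈ U, ¬ Sp (TT G0 G1 h) x) : Null (TT G0 G1 h) U := by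
  apply hL G0 G1 h U hU h0 h1 h2
  intro x hx
  have h3 := hS x hx
  unfold Sp at h3
  push Not at h3
  obtain ⟨V, hV, hxV, hN⟩ := h3
  exact ⟨V, hV, hxV, hN.mono inter_subset_left⟩

/-- the contradiction at a point at which some derivative of `u` does not vanish -/
theorem ord_step (hL : LocStm) (hH : HypStm) {G0 G1 h : Pl → ℂ} {U : Set Pl} (hU : IsOpen U)
    (h0 : ContinuousOn G0 U) (h1 : ContinuousOn G1 U) (h2 : ContinuousOn h U) {u : Pl → ℂ}
    (hu : ContDiffOn ℝ 1 u U) (huS : ∀ x ∈ U, Sp (TT G0 G1 h) x → u x = 0) {x0 : Pl}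
    (hx0 : x0 ∈ U) (hS : Sp (TT G0 G1 h) x0) (l : Fin 2) (hl : pd l u x0 ≠ 0) : False := by
  have hdiff : DifferentiableAt ℝ u x0 :=
    (hu.contDiffAt (hU.mem_nhds hx0)).differentiableAt (by simp)
  -- a real valued function
  have key : ∀ g : Pl → ℝ, ContDiffOn ℝ 1 g U → (∀ x, u x = 0 → g x = 0) →
      fderiv ℝ g x0 ≠ 0 → False := by
    intro g hg hgu hgx
    have hopen : IsOpen (U ∩ {x | g x ≠ 0}) := by
      have := hg.continuousOn.isOpen_inter_preimage hU (isOpen_compl_singleton (x := (0 : ℝ)))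
      exact this
    have hN : Null (TT G0 G1 h) (U ∩ {x | g x ≠ 0}) := by
      apply null_of_not_sp hL hopen (h0.mono inter_subset_left) (h1.mono inter_subset_left)
        (h2.mono inter_subset_left)
      rintro x ⟨hxU, hxg⟩ hxS
      exact hxg (hgu x (huS x hxU hxS))
    obtain ⟨V, hV, hxV, _, hVN⟩ := hH G0 G1 h U hU h0 h1 h2 g hg x0 hx0 hgx hN
    exact hS V hV hxV hVN
  by_cases hre : (pd l u x0).re = 0
  · have him : (pd l u x0).im ≠ 0 := by
      intro h
      exact hl (Complex.ext hre h)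
    refine key (fun x => (u x).im) ?_ (fun x hx => by simp [hx]) ?_
    · exact Complex.imCLM.contDiff.comp_contDiffOn hu
    · intro h3
      apply him
      have h4 : fderiv ℝ (fun x => (u x).im) x0 = Complex.imCLM.comp (fderiv ℝ u x0) :=
        (Complex.imCLM.hasFDerivAt.comp x0 hdiff.hasFDerivAt).fderiv
      have h5 := congrArg (fun L : Pl →L[ℝ] ℝ => L (EuclideanSpace.single l (1 : ℝ))) (h4.symm.trans h3)
      simpa [pd] using h5
  · refine key (fun x => (u x).re) ?_ (fun x hx => by simp [hx]) ?_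
    · exact Complex.reCLM.contDiff.comp_contDiffOn hu
    · intro h3
      apply hre
      have h4 : fderiv ℝ (fun x => (u x).re) x0 = Complex.reCLM.comp (fderiv ℝ u x0) :=
        (Complex.reCLM.hasFDerivAt.comp x0 hdiff.hasFDerivAt).fderiv
      have h5 := congrArg (fun L : Pl →L[ℝ] ℝ => L (EuclideanSpace.single l (1 : ℝ))) (h4.symm.trans h3)
      simpa [pd] using h5

theorem ord (hL : LocStm) (hH : HypStm) : OrdStm := by
  classical
  intro G0 G1 h U hU h0 h1 h2 m d hd hd0 hdo
  apply null_of_not_sp hL hU h0 h1 h2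
  intro y hyU hyS
  have hex : ∃ k : ℕ, ∃ x ∈ U, Sp (TT G0 G1 h) x ∧ ∃ i j : ℕ, i + j = k ∧
      ((i + j : ℕ) : ℕ∞) ≤ m ∧ jt i j d x ≠ 0 := by
    obtain ⟨i, j, hij, hne⟩ := hdo y hyU hyS
    exact ⟨i + j, y, hyU, hyS, i, j, rfl, hij, hne⟩
  obtain ⟨x0, hx0U, hx0S, i, j, hij, hijm, hne⟩ := Nat.find_spec hex
  have hmin : ∀ i' j' : ℕ, i' + j' < Nat.find hex → ∀ x ∈ U, Sp (TT G0 G1 h) x →
      jt i' j' d x = 0 := by
    intro i' j' hlt x hx hxS
    by_contra hc
    refine Nat.find_min hex hlt ⟨x, hx, hxS, i', j', rfl, ?_, hc⟩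
    refine le_trans ?_ hijm
    exact_mod_cast (by omega : i' + j' ≤ i + j)
  have hcast : ((i + j : ℕ) : WithTop ℕ∞) ≤ (m : WithTop ℕ∞) := by
    exact_mod_cast hijm
  rcases j with _ | j
  · rcases i with _ | i
    · exact hne (hd0 x0 hx0U hx0S)
    · have hu : ContDiffOn ℝ 1 (jt i 0 d) U := contDiffOn_one_jt hU i 0 hd (by
        refine le_trans (le_of_eq ?_) hcast
        push_cast
        ring)
      exact ord_step hL hH hU h0 h1 h2 hu (hmin i 0 (by omega)) hx0U hx0S 0
        (by rw [← jt_succ_left]; exact hne)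
  · have hu : ContDiffOn ℝ 1 (jt i j d) U := contDiffOn_one_jt hU i j hd (by
      refine le_trans (le_of_eq ?_) hcast
      push_cast
      ring)
    exact ord_step hL hH hU h0 h1 h2 hu (hmin i j (by omega)) hx0U hx0S 1
      (by rw [← jt_succ_right]; exact hne)

end Pool.Agent.H256.RD
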