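import Pool.Agent.H256.RD.Rad1

/-!
# Radó's theorem for `∂₁ - τ ∂₀` with bounded right hand side
-/

open MeasureTheory Set Filter Topology
open scoped ContDiff

noncomputable section

namespace Pool.Agent.H256.RD

namespace Rad

/-- the integrand of `TL` -/
def FF (τ G h φ : Pl → ℂ) : Pl → ℂ :=
  fun x => G x * (pd 1 φ x - pd 0 (fun y => τ y * φ y) x) + h x * φ x

theorem TL_eq (τ G h φ : Pl → ℂ) : TL τ G h φ = ∫ x, FF τ G h φ x := rfl

theorem pd_mul {u v : Pl → ℂ} {x : Pl} (l : Fin 2) (hu : DifferentiableAt ℝ u x)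
    (hv : DifferentiableAt ℝ v x) :
    pd l (fun y => u y * v y) x = pd l u x * v x + u x * pd l v x := by
  unfold pd
  have := (hu.hasFDerivAt.mul hv.hasFDerivAt).fderiv
  have h2 : fderiv ℝ (fun y => u y * v y) x = u x • fderiv ℝ v x + v x • fderiv ℝ u x := this
  rw [h2]
  simp
  ring

theorem pd_zero_of_ev {u : Pl → ℂ} {x : Pl} (l : Fin 2) (h : u =ᶠ[𝓝 x] fun _ => 0) :
    pd l u x = 0 := by
  unfold pd
  rw [h.fderiv_eq]
  simp

theorem ev_zero {φ : Pl → ℂ} {x : Pl} (hx : x ∉ tsupport φ) : φ =ᶠ[𝓝 x] fun _ => 0 :=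
  notMem_tsupport_iff_eventuallyEq.1 hx

variable {B : Set Pl} {τ G h : Pl → ℂ}

theorem FF_off {φ : Pl → ℂ} {x : Pl} (hx : x ∉ tsupport φ) : FF τ G h φ x = 0 := by
  have h0 := ev_zero hx
  unfold FF
  rw [pd_zero_of_ev 1 h0, pd_zero_of_ev 0 (u := fun y => τ y * φ y), h0.eq_of_nhds]
  · simp
  · filter_upwards [h0] with y hy
    rw [hy, mul_zero]

theorem FF_mul (hB : IsOpen B) (hτ : ContDiffOn ℝ ∞ τ B) {φ θ : Pl → ℂ} (hφ : Test B φ)
    (hθ : ContDiff ℝ ∞ θ) (x : Pl) :
    FF τ G h (fun y => φ y * θ y) x =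
      θ x * FF τ G h φ x + G x * φ x * (pd 1 θ x - τ x * pd 0 θ x) := by
  by_cases hx : x ∈ tsupport φ
  · have hxB : x ∈ B := hφ.sub hx
    have dτ : DifferentiableAt ℝ τ x :=
      (hτ.contDiffAt (hB.mem_nhds hxB)).differentiableAt (by simp)
    have dφ : DifferentiableAt ℝ φ x := (hφ.smooth.differentiable (by simp)).differentiableAt
    have dθ : DifferentiableAt ℝ θ x := (hθ.differentiable (by simp)).differentiableAt
    have e1 : pd 1 (fun y => φ y * θ y) x = pd 1 φ x * θ x + φ x * pd 1 θ x := pd_mul 1 dφ dθ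
    have e2 : pd 0 (fun y => τ y * (φ y * θ y)) x =
        pd 0 (fun y => τ y * φ y) x * θ x + (τ x * φ x) * pd 0 θ x := by
      have := pd_mul (u := fun y => τ y * φ y) (v := θ) (x := x) 0 (dτ.mul dφ) dθ
      rw [← this]
      congr 1
      ext y; ring
    unfold FF
    rw [e1, e2]
    ring
  · have h0 := ev_zero hx
    have hx' : x ∉ tsupport (fun y => φ y * θ y) := by
      rw [notMem_tsupport_iff_eventuallyEq]
      filter_upwards [h0] with y hy
      simp [hy]
    rw [FF_off hx, FF_off hx', h0.eq_of_nhds]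
    simp

theorem FF_continuous (hB : IsOpen B) (hτ : ContDiffOn ℝ ∞ τ B) (hG : ContinuousOn G B)
    (hh : ContinuousOn h B) {φ : Pl → ℂ} (hφ : Test B φ) : Continuous (FF τ G h φ) := by
  rw [continuous_iff_continuousAt]
  intro x
  by_cases hx : x ∈ tsupport φ
  · have hxB : x ∈ B := hφ.sub hx
    have hn := hB.mem_nhds hxB
    have c1 : Continuous (pd 1 φ) := by
      unfold pd
      exact (hφ.smooth.continuous_fderiv (by simp)).clm_apply continuous_const
    have c2 : ContinuousOn (pd 0 (fun y => τ y * φ y)) B := by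
      have h1 : ContDiffOn ℝ 0 (fderiv ℝ (fun y => τ y * φ y)) B :=
        (hτ.mul hφ.smooth.contDiffOn).fderiv_of_isOpen hB (by simp)
      exact h1.continuousOn.clm_apply continuousOn_const
    unfold FF
    exact ((hG.continuousAt hn).mul (c1.continuousAt.sub (c2.continuousAt hn))).add
      ((hh.continuousAt hn).mul hφ.smooth.continuous.continuousAt)
  · have : FF τ G h φ =ᶠ[𝓝 x] fun _ => 0 := by
      have ho : IsOpen (tsupport φ)ᶜ := (isClosed_tsupport φ).isOpen_compl
      filter_upwards [ho.mem_nhds hx] with y hy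
      exact FF_off hy
    exact this.continuousAt

theorem FF_compact {φ : Pl → ℂ} (hφ : Test B φ) : HasCompactSupport (FF τ G h φ) :=
  HasCompactSupport.intro hφ.cpt (fun _ hx => FF_off hx)

theorem FF_integrable (hB : IsOpen B) (hτ : ContDiffOn ℝ ∞ τ B) (hG : ContinuousOn G B)
    (hh : ContinuousOn h B) {φ : Pl → ℂ} (hφ : Test B φ) : Integrable (FF τ G h φ) :=
  (FF_continuous hB hτ hG hh hφ).integrable_of_hasCompactSupport (FF_compact hφ)

theorem Test_mul {B : Set Pl} {φ θ : Pl → ℂ} (hφ : Test B φ) (hθ : ContDiff ℝ ∞ θ) :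
    Test B (fun y => φ y * θ y) :=
  ⟨hφ.smooth.mul hθ, hφ.cpt.mul_right, (tsupport_mul_subset_left).trans hφ.sub⟩

/-- the first step: `T φ = ∫_{G = 0} h φ`. -/
theorem step1 (hE : EnStm) (hM : MolStm) (hB : IsOpen B) (hτ : ContDiffOn ℝ ∞ τ B)
    (hsign : (∀ x ∈ B, 0 < (τ x).im) ∨ (∀ x ∈ B, (τ x).im < 0)) (hG : ContinuousOn G B)
    (hh : ContinuousOn h B) {Z : Set Pl} (hZo : IsOpen (B \ Z)) (hZ : ∀ x ∈ B ∩ Z, G x = 0)
    (hnull : Null (TL τ G h) (B \ Z)) {φ : Pl → ℂ} (hφ : Test B φ) :
    TL τ G h φ = ∫ x, (if G x = 0 then h x * φ x else 0) := by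
  classical
  set K := tsupport φ with hK
  have hKc : IsCompact K := hφ.cpt
  have hKB : K ⊆ B := hφ.sub
  obtain ⟨χ, hχ, hχc, hχB, hχ1, hχr⟩ := exists_cutoff hKc hB hKB
  set K' := tsupport χ with hK'
  have hK'c : IsCompact K' := hχc
  have hKK' : K ⊆ K' := by
    intro x hx
    apply subset_tsupport
    rw [Function.mem_support, hχ1 x hx]
    exact one_ne_zero
  obtain ⟨s, β, hs, hβ, hsβ⟩ : ∃ s β : ℝ, (s = 1 ∨ s = -1) ∧ 0 < β ∧
      ∀ x ∈ K', β ≤ s * (τ x).im := by
    have : ∃ s : ℝ, (s = 1 ∨ s = -1) ∧ ∀ x ∈ B, 0 < s * (τ x).im := by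
      rcases hsign with h1 | h1
      · exact ⟨1, Or.inl rfl, fun x hx => by simpa using h1 x hx⟩
      · exact ⟨-1, Or.inr rfl, fun x hx => by simpa using h1 x hx⟩
    obtain ⟨s, hs, hs'⟩ := this
    rcases K'.eq_empty_or_nonempty with he | hne
    · exact ⟨s, 1, hs, one_pos, by rw [he]; simp⟩
    · have hc : ContinuousOn (fun x => s * (τ x).im) K' :=
        (continuousOn_const.mul (Complex.continuous_im.comp_continuousOn
          (hτ.continuousOn.mono hχB)))
      obtain ⟨x0, hx0, hmin⟩ := hK'c.exists_isMinOn hne hc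
      exact ⟨s, s * (τ x0).im, hs, hs' x0 (hχB hx0), fun x hx => hmin hx⟩
  obtain ⟨A1, hA1⟩ := hK'c.exists_bound_of_continuousOn (hG.mono hχB)
  obtain ⟨A2, hA2⟩ := hK'c.exists_bound_of_continuousOn (hτ.continuousOn.mono hχB)
  set A := max 0 (max (A1 + 1) A2) with hA
  have hA0 : 0 ≤ A := le_max_left _ _
  have hAG : ∀ x ∈ K', ‖G x‖ + 1 ≤ A := fun x hx => by
    have := hA1 x hx
    exact (by linarith : ‖G x‖ + 1 ≤ A1 + 1).trans ((le_max_left _ _).trans (le_max_right _ _))
  have hAτ : ∀ x ∈ K', ‖τ x‖ ≤ A := fun x hx =>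
    (hA2 x hx).trans ((le_max_right _ _).trans (le_max_right _ _))
  obtain ⟨M0, hM0⟩ := hM B hB τ G h hτ hG hh Z hZo hZ hnull K' hK'c hχB
  obtain ⟨C, hC⟩ := hE χ hχ hχc τ s β A (max M0 0) hs hβ hA0 (le_max_right _ _)
    (fun x hx => ⟨hsβ x hx, hAτ x hx⟩)
  choose g hg1 hg2 hg3 using fun n : ℕ => hM0 ((1 / 2) ^ (2 * n + 3)) (by positivity)
  have hle1 : ∀ n : ℕ, ((1 : ℝ) / 2) ^ (2 * n + 3) ≤ 1 := fun n =>
    pow_le_one₀ (by norm_num) (by norm_num)
  set Sn : ℕ → Set Pl := fun n => {x | 2 * ((1 : ℝ) / 2) ^ (2 * n + 1) ≤ ‖g n x‖} with hSn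
  set En : ℕ → Pl → ℝ := fun n x => χ x ^ 2 * (‖pd 0 (g n) x‖ ^ 2 + ‖pd 1 (g n) x‖ ^ 2) with hEn
  have hEnC : ∀ n, ∫ x in Sn n, En n x ≤ C := by
    intro n
    apply hC (g n) ((1 / 2) ^ (2 * n + 1)) (hg1 n) (by positivity)
    · intro x hx
      have h1 := hg2 n x hx
      have h2 := hAG x hx
      have h3 : ‖g n x‖ ≤ ‖g n x - G x‖ + ‖G x‖ := by
        simpa using norm_add_le (g n x - G x) (G x)
      linarith [hle1 n]
    · intro x hx hge
      apply (hg3 n x hx _).trans (le_max_left _ _)
      have h1 := hg2 n x hx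
      have h3 : ‖g n x‖ ≤ ‖g n x - G x‖ + ‖G x‖ := by
        simpa using norm_add_le (g n x - G x) (G x)
      have h4 : ((1 : ℝ) / 2) ^ (2 * n + 3) * 4 = (1 / 2) ^ (2 * n + 1) := by
        rw [pow_add, pow_add]; ring
      have h5 : (0 : ℝ) < (1 / 2) ^ (2 * n + 3) := by positivity
      linarith
  have hEn0 : ∀ n x, 0 ≤ En n x := fun n x => by positivity
  have hcpd : ∀ n l, Continuous (pd l (g n)) := fun n l => by
    unfold pd
    exact ((hg1 n).continuous_fderiv (by simp)).clm_apply continuous_const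
  have hEnI : ∀ n, Integrable (En n) := by
    intro n
    apply Continuous.integrable_of_hasCompactSupport
    · exact (hχ.continuous.pow 2).mul (((hcpd n 0).norm.pow 2).add ((hcpd n 1).norm.pow 2))
    · refine HasCompactSupport.intro hK'c (fun x hx => ?_)
      have : χ x = 0 := by
        by_contra hne
        exact hx (subset_tsupport _ hne)
      simp [hEn, this]
  have hSnm : ∀ n, MeasurableSet (Sn n) := fun n =>
    (isClosed_le continuous_const (hg1 n).continuous.norm).measurableSet
  obtain ⟨D, hD0, hD⟩ := st_deriv_bound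
  obtain ⟨Φ, hΦ⟩ := hφ.cpt.exists_bound_of_continuous hφ.smooth.continuous
  have hΦ0 : 0 ≤ Φ := (norm_nonneg _).trans (hΦ 0)
  -- annuli
  set δ : ℕ → ℝ := fun j => (1 / 2) ^ j with hδ
  have hδ0 : ∀ j, 0 < δ j := fun j => by positivity
  have hδle : ∀ {i j : ℕ}, i < j → 2 * δ j ≤ δ i := by
    intro i j hij
    have h1 : δ j ≤ δ (i + 1) := pow_le_pow_of_le_one (by norm_num) (by norm_num) hij
    have h2 : δ (i + 1) = δ i / 2 := by simp only [hδ]; rw [pow_succ]; ring
    linarith
  set F : Pl → ℂ := FF τ G h φ with hF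
  have hFI : Integrable F := FF_integrable hB hτ hG hh hφ
  have hF0 : ∀ x, x ∉ K → F x = 0 := fun x hx => FF_off hx
  set θ : ℕ → ℕ → Pl → ℂ := fun n j => th (g n) (δ j) with hθ
  have hθs : ∀ n j, ContDiff ℝ ∞ (θ n j) := fun n j => th_contDiff (hg1 n) _
  set R : ℕ → ℕ → Pl → ℂ := fun n j x => G x * φ x * (pd 1 (θ n j) x - τ x * pd 0 (θ n j) x)
    with hR
  have hFm : ∀ n j x, FF τ G h (fun y => φ y * θ n j y) x = θ n j x * F x + R n j x := by
    intro n j x
    exact FF_mul hB hτ hφ (hθs n j) x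
  have hmI : ∀ n j, Integrable (FF τ G h (fun y => φ y * θ n j y)) := fun n j =>
    FF_integrable hB hτ hG hh (Test_mul hφ (hθs n j))
  have hθn : ∀ n j x, ‖θ n j x‖ ≤ 1 := by
    intro n j x
    obtain ⟨t, h0, h1, ht⟩ := th_range (g n) (δ j) x
    simp only [hθ]
    rw [ht, Complex.norm_real, Real.norm_eq_abs, abs_of_nonneg h0]
    exact h1
  have h1θn : ∀ n j x, ‖1 - θ n j x‖ ≤ 1 := by
    intro n j x
    obtain ⟨t, h0, h1, ht⟩ := th_range (g n) (δ j) x
    simp only [hθ]
    rw [ht, ← Complex.ofReal_one, ← Complex.ofReal_sub, Complex.norm_real, Real.norm_eq_abs,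
      abs_of_nonneg (by linarith)]
    linarith
  have hθFI : ∀ n j, Integrable (fun x => θ n j x * F x) := by
    intro n j
    apply hFI.bdd_mul (c := 1) (hθs n j).continuous.aestronglyMeasurable
    filter_upwards with x using hθn n j x
  have h1θFI : ∀ n j, Integrable (fun x => (1 - θ n j x) * F x) := by
    intro n j
    apply hFI.bdd_mul (c := 1) (continuous_const.sub (hθs n j).continuous).aestronglyMeasurable
    filter_upwards with x using h1θn n j x
  have hRI : ∀ n j, Integrable (R n j) := by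
    intro n j
    have : R n j = fun x => FF τ G h (fun y => φ y * θ n j y) x - θ n j x * F x := by
      ext x; rw [hFm]; ring
    rw [this]
    exact (hmI n j).sub (hθFI n j)
  -- `T (φ θ) = 0`
  have hT0 : ∀ n j, j ≤ 2 * n → ∫ x, (θ n j x * F x + R n j x) = 0 := by
    intro n j hj
    have ht : Test (B \ Z) (fun y => φ y * θ n j y) := by
      refine ⟨(Test_mul hφ (hθs n j)).smooth, (Test_mul hφ (hθs n j)).cpt, ?_⟩
      have hcl : IsClosed (K ∩ {x | δ j ≤ ‖g n x‖}) :=
        (isClosed_tsupport φ).inter (isClosed_le continuous_const (hg1 n).continuous.norm)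
      have hsub : tsupport (fun y => φ y * θ n j y) ⊆ K ∩ {x | δ j ≤ ‖g n x‖} := by
        apply closure_minimal _ hcl
        intro x hx
        rw [Function.mem_support] at hx
        refine ⟨subset_tsupport _ (left_ne_zero_of_mul hx), ?_⟩
        by_contra hlt
        exact right_ne_zero_of_mul hx (th_zero (hδ0 j) (le_of_lt (not_le.1 hlt)))
      intro x hx
      obtain ⟨hxK, hxg⟩ := hsub hx
      refine ⟨hKB hxK, fun hxZ => ?_⟩
      have h0 := hZ x ⟨hKB hxK, hxZ⟩
      have h1 := hg2 n x (hKK' hxK)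
      rw [h0, sub_zero] at h1
      have h2 : ((1 : ℝ) / 2) ^ (2 * n + 3) < δ j :=
        pow_lt_pow_right_of_lt_one₀ (by norm_num) (by norm_num) (by omega)
      have h3 : δ j ≤ ‖g n x‖ := hxg
      linarith
    have := hnull _ ht
    rw [TL_eq] at this
    rw [← this]
    congr 1
    ext x
    rw [hFm]
  have hT1 : ∀ n j, j ≤ 2 * n → ∫ x, F x = (∫ x, (1 - θ n j x) * F x) - ∫ x, R n j x := by
    intro n j hj
    have h0 := hT0 n j hj
    rw [integral_add (hθFI n j) (hRI n j)] at h0
    have h1 : ∫ x, F x = (∫ x, (1 - θ n j x) * F x) + ∫ x, θ n j x * F x := by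
      rw [← integral_add (h1θFI n j) (hθFI n j)]
      congr 1
      ext x; ring
    rw [h1]
    linear_combination h0
  -- the sum of the remainders
  set c : ℝ := 6 * Φ * D * (1 + A) with hc
  have hc0 : 0 ≤ c := by positivity
  have hRb : ∀ n x, ∑ j ∈ Finset.Ioc n (2 * n), ‖R n j x‖ ≤
      c * (K.indicator (fun _ => (1 : ℝ)) x + (Sn n).indicator (En n) x) := by
    intro n x
    by_cases hxK : x ∈ K
    · have hxK' := hKK' hxK
      have hχx : χ x = 1 := hχ1 x hxK
      have hzero : ∀ j, (‖g n x‖ ≤ δ j ∨ 2 * δ j ≤ ‖g n x‖) → ‖R n j x‖ = 0 := by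
        intro j hj
        simp only [hR, hθ]
        rw [pd_th_zero (hg1 n) (hδ0 j) 1 hj, pd_th_zero (hg1 n) (hδ0 j) 0 hj]
        simp
      have hInd0 : 0 ≤ (Sn n).indicator (En n) x := by
        apply indicator_nonneg
        intro y _; exact hEn0 n y
      by_cases hex : ∃ j ∈ Finset.Ioc n (2 * n), δ j < ‖g n x‖ ∧ ‖g n x‖ < 2 * δ j
      · obtain ⟨j, hj, hj1, hj2⟩ := hex
        rw [Finset.sum_eq_single j]
        · rw [Finset.mem_Ioc] at hj
          have hgn : ‖G x‖ ≤ 3 * δ j := by
            have h1 := hg2 n x hxK'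
            have h3 : ‖G x‖ ≤ ‖g n x - G x‖ + ‖g n x‖ := by
              have := norm_sub_le (g n x) (g n x - G x)
              rw [sub_sub_cancel] at this
              linarith
            have h2 : ((1 : ℝ) / 2) ^ (2 * n + 3) < δ j :=
              pow_lt_pow_right_of_lt_one₀ (by norm_num) (by norm_num) (by omega)
            linarith
          have b1 := pd_th_bound (hg1 n) (hδ0 j) hD0 hD 1 (x := x) hj2.le
          have b0 := pd_th_bound (hg1 n) (hδ0 j) hD0 hD 0 (x := x) hj2.le
          have hxS : x ∈ Sn n := by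
            simp only [hSn, mem_setOf_eq]
            have h1 : δ (2 * n) ≤ δ j := pow_le_pow_of_le_one (by norm_num) (by norm_num) hj.2
            have h2 : 2 * ((1 : ℝ) / 2) ^ (2 * n + 1) = δ (2 * n) := by
              simp only [hδ]; rw [pow_succ]; ring
            linarith
          rw [indicator_of_mem hxK, indicator_of_mem hxS]
          simp only [hEn, hχx, one_pow, one_mul]
          set a0 := ‖pd 0 (g n) x‖
          set a1 := ‖pd 1 (g n) x‖
          have ha0 : 0 ≤ a0 := norm_nonneg _
          have ha1 : 0 ≤ a1 := norm_nonneg _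
          have hAx := hAτ x hxK'
          have hΦx := hΦ x
          calc ‖R n j x‖ = ‖G x‖ * ‖φ x‖ * ‖pd 1 (θ n j) x - τ x * pd 0 (θ n j) x‖ := by
                simp only [hR, norm_mul]
            _ ≤ (3 * δ j) * Φ * (‖pd 1 (θ n j) x‖ + A * ‖pd 0 (θ n j) x‖) := by
                gcongr
                refine (norm_sub_le _ _).trans ?_
                rw [norm_mul]
                gcongr
            _ = 3 * Φ * ((δ j * ‖pd 1 (θ n j) x‖) + A * (δ j * ‖pd 0 (θ n j) x‖)) := by ring
            _ ≤ 3 * Φ * ((2 * D * a1) + A * (2 * D * a0)) := by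
                gcongr
            _ ≤ 3 * Φ * (2 * D * (1 + A) * (1 + (a0 ^ 2 + a1 ^ 2))) := by
                gcongr
                have e1 : a1 ≤ 1 + (a0 ^ 2 + a1 ^ 2) := by nlinarith [sq_nonneg (a1 - 1)]
                have e0 : a0 ≤ 1 + (a0 ^ 2 + a1 ^ 2) := by nlinarith [sq_nonneg (a0 - 1)]
                have e1' : (2 * D) * a1 ≤ (2 * D) * (1 + (a0 ^ 2 + a1 ^ 2)) := by gcongr
                have e0' : A * ((2 * D) * a0) ≤ A * ((2 * D) * (1 + (a0 ^ 2 + a1 ^ 2))) := by
                  gcongr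
                linarith
            _ = c * (1 + (a0 ^ 2 + a1 ^ 2)) := by rw [hc]; ring
        · intro i _ hij
          apply hzero
          rcases lt_or_gt_of_ne hij with hlt | hgt
          · left
            have := hδle hlt
            linarith
          · right
            have := hδle hgt
            linarith
        · intro hj'
          exact absurd hj hj'
      · rw [Finset.sum_eq_zero]
        · apply mul_nonneg hc0
          apply add_nonneg _ hInd0
          apply indicator_nonneg
          intro y _; exact zero_le_one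
        · intro j hj
          apply hzero
          by_contra hcon
          rw [not_or, not_le, not_le] at hcon
          exact hex ⟨j, hj, hcon⟩
    · have h0 : φ x = 0 := by
        by_contra hne
        exact hxK (subset_tsupport _ hne)
      rw [Finset.sum_eq_zero]
      · apply mul_nonneg hc0
        apply add_nonneg
        · apply indicator_nonneg
          intro y _; exact zero_le_one
        · apply indicator_nonneg
          intro y _; exact hEn0 n y
      · intro j _
        simp [hR, h0]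
  have hKm : MeasurableSet K := (isClosed_tsupport φ).measurableSet
  have hKI : Integrable (K.indicator (fun _ => (1 : ℝ))) := by
    rw [integrable_indicator_iff hKm]
    exact integrableOn_const hKc.measure_lt_top.ne (by simp)
  have hRsum : ∀ n, ‖∑ j ∈ Finset.Ioc n (2 * n), ∫ x, R n j x‖ ≤
      c * ((∫ x, K.indicator (fun _ => (1 : ℝ)) x) + C) := by
    intro n
    rw [← integral_finsetSum _ (fun j _ => hRI n j)]
    calc ‖∫ x, ∑ j ∈ Finset.Ioc n (2 * n), R n j x‖
        ≤ ∫ x, ‖∑ j ∈ Finset.Ioc n (2 * n), R n j x‖ := norm_integral_le_integral_norm _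
      _ ≤ ∫ x, c * (K.indicator (fun _ => (1 : ℝ)) x + (Sn n).indicator (En n) x) := by
          apply integral_mono
          · exact (integrable_finsetSum _ (fun j _ => hRI n j)).norm
          · exact (hKI.add ((hEnI n).indicator (hSnm n))).const_mul c
          · intro x
            exact (norm_sum_le _ _).trans (hRb n x)
      _ = c * ((∫ x, K.indicator (fun _ => (1 : ℝ)) x) + ∫ x in Sn n, En n x) := by
          rw [integral_const_mul, integral_add hKI ((hEnI n).indicator (hSnm n)),
            integral_indicator (hSnm n)]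
      _ ≤ c * ((∫ x, K.indicator (fun _ => (1 : ℝ)) x) + C) := by
          gcongr
          exact hEnC n
  -- averages
  set w : ℕ → Pl → ℂ := fun n x => (1 / (n : ℂ)) * ∑ j ∈ Finset.Ioc n (2 * n), (1 - θ n j x)
    with hw
  have hcard : ∀ n : ℕ, (Finset.Ioc n (2 * n)).card = n := by
    intro n; rw [Nat.card_Ioc]; omega
  have hwF : ∀ n : ℕ, 1 ≤ n → ∫ x, w n x * F x = (∫ x, F x) +
      (1 / (n : ℂ)) * ∑ j ∈ Finset.Ioc n (2 * n), ∫ x, R n j x := by
    intro n hn
    have hn0 : (n : ℂ) ≠ 0 := by exact_mod_cast (by omega : n ≠ 0)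
    have h1 : ∫ x, w n x * F x =
        (1 / (n : ℂ)) * ∑ j ∈ Finset.Ioc n (2 * n), ∫ x, (1 - θ n j x) * F x := by
      rw [← integral_finsetSum _ (fun j _ => h1θFI n j), ← integral_const_mul]
      congr 1
      ext x
      simp only [hw]
      rw [mul_assoc, Finset.sum_mul]
    have h2 : ∑ j ∈ Finset.Ioc n (2 * n), ∫ x, (1 - θ n j x) * F x =
        ∑ j ∈ Finset.Ioc n (2 * n), ((∫ x, F x) + ∫ x, R n j x) := by
      apply Finset.sum_congr rfl
      intro j hj
      rw [Finset.mem_Ioc] at hj
      rw [hT1 n j hj.2]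
      ring
    rw [h1, h2, Finset.sum_add_distrib, Finset.sum_const, hcard, nsmul_eq_mul, mul_add]
    congr 1
    field_simp
  set c' : ℝ := c * ((∫ x, K.indicator (fun _ => (1 : ℝ)) x) + C) with hc'
  have lim1 : Tendsto (fun n : ℕ => ∫ x, w n x * F x) atTop (𝓝 (∫ x, F x)) := by
    rw [tendsto_iff_norm_sub_tendsto_zero]
    have hz : Tendsto (fun n : ℕ => c' * (1 / (n : ℝ))) atTop (𝓝 0) := by
      have := tendsto_one_div_atTop_nhds_zero_nat (𝕜 := ℝ)
      simpa using this.const_mul c'
    apply squeeze_zero' (Eventually.of_forall fun _ => norm_nonneg _) _ hz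
    filter_upwards [eventually_ge_atTop 1] with n hn
    rw [hwF n hn, add_sub_cancel_left, norm_mul, mul_comm]
    refine mul_le_mul (hRsum n) (le_of_eq ?_) (norm_nonneg _) ((norm_nonneg _).trans (hRsum n))
    rw [norm_div, norm_one, Complex.norm_natCast]
  have lim2 : Tendsto (fun n : ℕ => ∫ x, w n x * F x) atTop
      (𝓝 (∫ x, (if G x = 0 then F x else 0))) := by
    apply tendsto_integral_of_dominated_convergence (fun x => ‖F x‖)
    · intro n
      apply AEStronglyMeasurable.mul _ hFI.aestronglyMeasurable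
      apply Continuous.aestronglyMeasurable
      simp only [hw]
      exact continuous_const.mul (continuous_finsetSum _
        (fun j _ => continuous_const.sub (hθs n j).continuous))
    · exact hFI.norm
    · intro n
      filter_upwards with x
      rw [norm_mul]
      have : ‖w n x‖ ≤ 1 := by
        simp only [hw]
        rw [norm_mul]
        rcases Nat.eq_zero_or_pos n with rfl | hn
        · simp
        · have hn' : (0 : ℝ) < n := by exact_mod_cast hn
          have h1 : ‖∑ j ∈ Finset.Ioc n (2 * n), (1 - θ n j x)‖ ≤ n := by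
            calc ‖∑ j ∈ Finset.Ioc n (2 * n), (1 - θ n j x)‖
                ≤ ∑ j ∈ Finset.Ioc n (2 * n), ‖(1 - θ n j x)‖ := norm_sum_le _ _
              _ ≤ ∑ j ∈ Finset.Ioc n (2 * n), (1 : ℝ) :=
                  Finset.sum_le_sum (fun j _ => h1θn n j x)
              _ = n := by rw [Finset.sum_const, hcard]; simp
          rw [norm_div, norm_one, Complex.norm_natCast]
          rw [div_mul_eq_mul_div, one_mul, div_le_one hn']
          exact h1
      calc ‖w n x‖ * ‖F x‖ ≤ 1 * ‖F x‖ := by gcongr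
        _ = ‖F x‖ := one_mul _
    · filter_upwards with x
      by_cases hxK : x ∈ K
      · have hxK' := hKK' hxK
        by_cases hGx : G x = 0
        · rw [if_pos hGx]
          apply tendsto_const_nhds.congr'
          filter_upwards [eventually_ge_atTop 1] with n hn
          have hn0 : (n : ℂ) ≠ 0 := by exact_mod_cast (by omega : n ≠ 0)
          have : ∀ j ∈ Finset.Ioc n (2 * n), 1 - θ n j x = 1 := by
            intro j hj
            rw [Finset.mem_Ioc] at hj
            have h1 := hg2 n x hxK'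
            rw [hGx, sub_zero] at h1
            have h2 : ((1 : ℝ) / 2) ^ (2 * n + 3) < δ j :=
              pow_lt_pow_right_of_lt_one₀ (by norm_num) (by norm_num) (by omega)
            simp only [hθ]
            rw [th_zero (hδ0 j) (by linarith), sub_zero]
          simp only [hw]
          rw [Finset.sum_congr rfl this, Finset.sum_const, hcard, nsmul_eq_mul, mul_one,
            one_div, inv_mul_cancel₀ hn0, one_mul]
        · rw [if_neg hGx]
          apply tendsto_const_nhds.congr'
          have hpos : 0 < ‖G x‖ := norm_pos_iff.2 hGx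
          have hlim : Tendsto (fun n : ℕ => 2 * ((1 : ℝ) / 2) ^ n) atTop (𝓝 0) := by
            have := tendsto_pow_atTop_nhds_zero_of_lt_one (r := (1 / 2 : ℝ)) (by norm_num)
              (by norm_num)
            simpa using this.const_mul 2
          filter_upwards [hlim.eventually (gt_mem_nhds hpos)] with n hn
          have : ∀ j ∈ Finset.Ioc n (2 * n), 1 - θ n j x = 0 := by
            intro j hj
            rw [Finset.mem_Ioc] at hj
            have h1 := hg2 n x hxK'
            have h3 : ‖G x‖ ≤ ‖g n x - G x‖ + ‖g n x‖ := by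
              have := norm_sub_le (g n x) (g n x - G x)
              rw [sub_sub_cancel] at this
              linarith
            have h2 : 2 * δ j ≤ δ n := hδle hj.1
            have h4 : ((1 : ℝ) / 2) ^ (2 * n + 3) ≤ δ n :=
              pow_le_pow_of_le_one (by norm_num) (by norm_num) (by omega)
            have h5 : 2 * δ n < ‖G x‖ := hn
            simp only [hθ]
            rw [th_one (hδ0 j) (by linarith), sub_self]
          simp only [hw]
          rw [Finset.sum_congr rfl this]
          simp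
      · rw [hF0 x hxK]
        simp
  have heq := tendsto_nhds_unique lim1 lim2
  rw [TL_eq]
  change ∫ x, F x = _
  rw [heq]
  congr 1
  ext x
  by_cases hGx : G x = 0
  · rw [if_pos hGx, if_pos hGx]
    simp only [hF, FF, hGx]
    ring
  · rw [if_neg hGx, if_neg hGx]

end Rad

open Rad in
theorem rad (hE : EnStm) (hM : MolStm) : RadStm := by
  classical
  intro B hB τ G h hτ hsign hG hh Z hZo hZ hnull
  have key : ∀ φ, Test B φ → TL τ G h φ = ∫ x, (if G x = 0 then h x * φ x else 0) := fun φ hφ =>
    step1 hE hM hB hτ hsign hG hh hZo (fun x hx => (hZ x hx).1) hnull hφ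
  set W := B \ Z with hW
  have hWB : W ⊆ B := fun x hx => hx.1
  set s : Set Pl := {x | x ∈ W ∧ G x = 0} with hs
  have hsm : MeasurableSet s := by
    have h1 : IsOpen (W ∩ G ⁻¹' {0}ᶜ) :=
      (hG.mono hWB).isOpen_inter_preimage hZo isOpen_compl_singleton
    have h2 : s = W \ (W ∩ G ⁻¹' {0}ᶜ) := by
      ext x
      simp only [hs, mem_setOf_eq, Set.mem_diff, mem_inter_iff, mem_preimage, mem_compl_iff,
        mem_singleton_iff, not_and, not_not]
      tauto
    rw [h2]
    exact hZo.measurableSet.diff h1.measurableSet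
  have hloc : LocallyIntegrableOn (s.indicator h) W := by
    intro x hx
    have h1 : LocallyIntegrableOn h W := (hh.mono hWB).locallyIntegrableOn hZo.measurableSet
    obtain ⟨t, ht, hti⟩ := h1 x hx
    exact ⟨t, ht, Integrable.indicator hti hsm⟩
  have hae : ∀ᵐ x, x ∈ W → s.indicator h x = 0 := by
    apply hZo.ae_eq_zero_of_integral_contDiff_smul_eq_zero hloc
    intro ψ hψ hψc hψW
    have ht : Test W (fun x => ((ψ x : ℝ) : ℂ)) := by
      refine ⟨Complex.ofRealCLM.contDiff.comp hψ, ?_, ?_⟩
      · exact hψc.comp_left (g := fun t : ℝ => (t : ℂ)) (by simp)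
      · refine (closure_mono ?_).trans hψW
        intro x hx
        rw [Function.mem_support] at hx ⊢
        intro h0
        exact hx (by simp [h0])
    have h1 := hnull _ ht
    have h2 := key _ ⟨ht.smooth, ht.cpt, ht.sub.trans hWB⟩
    rw [h1] at h2
    rw [h2]
    congr 1
    ext x
    by_cases hxW : x ∈ W
    · by_cases hGx : G x = 0
      · rw [if_pos hGx, indicator_of_mem (show x ∈ s from ⟨hxW, hGx⟩)]
        simp [mul_comm]
      · rw [if_neg hGx, indicator_of_notMem (fun hx : x ∈ s => hGx hx.2)]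
        simp
    · have h0 : ψ x = 0 := by
        by_contra hne
        exact hxW (hψW (subset_tsupport _ hne))
      simp [h0]
  intro φ hφ
  rw [key φ hφ]
  apply integral_eq_zero_of_ae
  filter_upwards [hae] with x hx
  by_cases hGx : G x = 0
  · rw [if_pos hGx]
    by_cases hxB : x ∈ B
    · by_cases hxZ : x ∈ Z
      · rw [(hZ x ⟨hxB, hxZ⟩).2]
        simp
      · have hxW : x ∈ W := ⟨hxB, hxZ⟩
        have := hx hxW
        rw [indicator_of_mem (show x ∈ s from ⟨hxW, hGx⟩)] at this
        rw [this]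
        simp
    · have h0 : φ x = 0 := by
        by_contra hne
        exact hxB (hφ.sub (subset_tsupport _ hne))
      simp [h0]
  · rw [if_neg hGx]
    simp

end Pool.Agent.H256.RD
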