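import Pool.Agent.H256.RD.Stm

/-!
# Cutoffs
-/

open MeasureTheory Set Filter Topology
open scoped ContDiff Manifold

noncomputable section

namespace Pool.Agent.H256.RD.Rad

theorem exists_cutoff {K B : Set Pl} (hK : IsCompact K) (hB : IsOpen B) (hKB : K ⊆ B) :
    ∃ χ : Pl → ℝ, ContDiff ℝ ∞ χ ∧ HasCompactSupport χ ∧ tsupport χ ⊆ B ∧ (∀ x ∈ K, χ x = 1) ∧
      (∀ x, 0 ≤ χ x ∧ χ x ≤ 1) := by
  obtain ⟨V, hVo, hKV, hVB, hVc⟩ := exists_open_between_and_isCompact_closure hK hB hKB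
  obtain ⟨f, hf, hr, h0, h1⟩ := exists_contMDiff_zero_iff_one_iff_of_isClosed (n := (⊤ : ℕ∞)) 𝓘(ℝ, Pl)
    (hVo.isClosed_compl) hK.isClosed (by
      rw [Set.disjoint_compl_left_iff_subset]
      exact hKV)
  have hsup : Function.support f ⊆ V := by
    intro x hx
    by_contra hxV
    exact hx ((h0 x).1 hxV)
  have hts : tsupport f ⊆ closure V := closure_mono hsup
  refine ⟨f, hf.contDiff, ?_, hts.trans hVB, fun x hx => (h1 x).1 hx, fun x => ?_⟩
  · exact HasCompactSupport.of_support_subset_isCompact hVc (hsup.trans subset_closure)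
  · have := hr (mem_range_self x)
    exact this

theorem st_deriv_bound : ∃ D : ℝ, 0 ≤ D ∧ ∀ t, |deriv Real.smoothTransition t| ≤ D := by
  have hc : Continuous (deriv Real.smoothTransition) :=
    (Real.smoothTransition.contDiff (n := 1)).continuous_deriv le_rfl
  obtain ⟨D, hD⟩ := (isCompact_Icc (a := (-1 : ℝ)) (b := 2)).exists_bound_of_continuousOn
    hc.continuousOn
  refine ⟨max D 0, le_max_right _ _, fun t => ?_⟩
  by_cases ht : t ∈ Icc (-1 : ℝ) 2
  · exact (hD t ht).trans (le_max_left _ _)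
  · have h0 : deriv Real.smoothTransition t = 0 := by
      rw [mem_Icc, not_and_or, not_le, not_le] at ht
      rcases ht with ht | ht
      · have : Real.smoothTransition =ᶠ[𝓝 t] fun _ => 0 := by
          filter_upwards [gt_mem_nhds (show t < 0 by linarith)] with s hs
          exact Real.smoothTransition.zero_of_nonpos (le_of_lt hs)
        rw [this.deriv_eq]; simp
      · have : Real.smoothTransition =ᶠ[𝓝 t] fun _ => 1 := by
          filter_upwards [lt_mem_nhds (show 1 < t by linarith)] with s hs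
          exact Real.smoothTransition.one_of_one_le (le_of_lt hs)
        rw [this.deriv_eq]; simp
    rw [h0]; simp

theorem st_deriv_zero {t : ℝ} (ht : t ≤ 0 ∨ 1 ≤ t) : deriv Real.smoothTransition t = 0 := by
  have hc : Continuous (deriv Real.smoothTransition) :=
    (Real.smoothTransition.contDiff (n := 1)).continuous_deriv le_rfl
  rcases ht with ht | ht
  · -- closure of Iio 0
    have hcl : Iic (0 : ℝ) ⊆ {s | deriv Real.smoothTransition s = 0} := by
      rw [← closure_Iio]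
      apply closure_minimal _ (isClosed_eq hc continuous_const)
      intro s hs
      have : Real.smoothTransition =ᶠ[𝓝 s] fun _ => 0 := by
        filter_upwards [gt_mem_nhds hs] with u hu
        exact Real.smoothTransition.zero_of_nonpos (le_of_lt hu)
      show deriv Real.smoothTransition s = 0
      rw [this.deriv_eq]; simp
    exact hcl ht
  · have hcl : Ici (1 : ℝ) ⊆ {s | deriv Real.smoothTransition s = 0} := by
      rw [← closure_Ioi]
      apply closure_minimal _ (isClosed_eq hc continuous_const)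
      intro s hs
      have : Real.smoothTransition =ᶠ[𝓝 s] fun _ => 1 := by
        filter_upwards [lt_mem_nhds hs] with u hu
        exact Real.smoothTransition.one_of_one_le (le_of_lt hu)
      show deriv Real.smoothTransition s = 0
      rw [this.deriv_eq]; simp
    exact hcl ht

/-- the cutoff `0` for `‖g‖ ≤ δ`, `1` for `2 δ ≤ ‖g‖`. -/
def th (g : Pl → ℂ) (δ : ℝ) : Pl → ℂ :=
  fun x => ((Real.smoothTransition ((‖g x‖ ^ 2 - δ ^ 2) / (3 * δ ^ 2)) : ℝ) : ℂ)

theorem th_contDiff {g : Pl → ℂ} (hg : ContDiff ℝ ∞ g) (δ : ℝ) : ContDiff ℝ ∞ (th g δ) := by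
  unfold th
  apply Complex.ofRealCLM.contDiff.comp
  apply (Real.smoothTransition.contDiff (n := ⊤)).comp
  exact ((hg.norm_sq ℝ).sub contDiff_const).div_const _

theorem th_zero {g : Pl → ℂ} {δ : ℝ} (hδ : 0 < δ) {x : Pl} (hx : ‖g x‖ ≤ δ) : th g δ x = 0 := by
  unfold th
  rw [Real.smoothTransition.zero_of_nonpos]
  · simp
  · apply div_nonpos_of_nonpos_of_nonneg
    · nlinarith [norm_nonneg (g x)]
    · positivity

theorem th_one {g : Pl → ℂ} {δ : ℝ} (hδ : 0 < δ) {x : Pl} (hx : 2 * δ ≤ ‖g x‖) :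
    th g δ x = 1 := by
  unfold th
  rw [Real.smoothTransition.one_of_one_le]
  · simp
  · rw [le_div_iff₀ (by positivity)]
    nlinarith [norm_nonneg (g x)]

theorem th_range (g : Pl → ℂ) (δ : ℝ) (x : Pl) :
    ∃ t : ℝ, 0 ≤ t ∧ t ≤ 1 ∧ th g δ x = (t : ℂ) :=
  ⟨_, Real.smoothTransition.nonneg _, Real.smoothTransition.le_one _, rfl⟩

theorem fderiv_normsq {g : Pl → ℂ} (hg : ContDiff ℝ ∞ g) (x v : Pl) :
    fderiv ℝ (fun y => ‖g y‖ ^ 2) x v = 2 * (inner ℝ (g x) (fderiv ℝ g x v)) := by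
  have hd : DifferentiableAt ℝ g x := (hg.differentiable (by simp)).differentiableAt
  have := (hd.hasFDerivAt.norm_sq).fderiv
  rw [this]
  simp
  ring

theorem pd_th {g : Pl → ℂ} (hg : ContDiff ℝ ∞ g) (δ : ℝ) (l : Fin 2) (x : Pl) :
    pd l (th g δ) x = ((deriv Real.smoothTransition ((‖g x‖ ^ 2 - δ ^ 2) / (3 * δ ^ 2)) *
      (2 * (inner ℝ (g x) (pd l g x)) / (3 * δ ^ 2)) : ℝ) : ℂ) := by
  unfold pd
  set v : Pl := EuclideanSpace.single l (1 : ℝ)
  set u : Pl → ℝ := fun y => (‖g y‖ ^ 2 - δ ^ 2) / (3 * δ ^ 2) with hu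
  have hn : DifferentiableAt ℝ (fun y => ‖g y‖ ^ 2) x :=
    ((hg.norm_sq ℝ).differentiable (by simp)).differentiableAt
  have hud : HasFDerivAt u ((3 * δ ^ 2)⁻¹ • fderiv ℝ (fun y => ‖g y‖ ^ 2) x) x := by
    have := (hn.hasFDerivAt.sub_const (δ ^ 2)).const_smul ((3 * δ ^ 2)⁻¹)
    refine this.congr_of_eventuallyEq ?_
    filter_upwards with y
    simp [hu, div_eq_inv_mul]
  have hs : HasDerivAt Real.smoothTransition (deriv Real.smoothTransition (u x)) (u x) :=
    ((Real.smoothTransition.contDiff (n := 1)).differentiable (by simp)).differentiableAt.hasDerivAt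
  have h1 : HasFDerivAt (fun y => Real.smoothTransition (u y))
      (deriv Real.smoothTransition (u x) • ((3 * δ ^ 2)⁻¹ • fderiv ℝ (fun y => ‖g y‖ ^ 2) x)) x :=
    hs.comp_hasFDerivAt x hud
  have h2 : HasFDerivAt (th g δ) (Complex.ofRealCLM.comp
      (deriv Real.smoothTransition (u x) • ((3 * δ ^ 2)⁻¹ • fderiv ℝ (fun y => ‖g y‖ ^ 2) x))) x :=
    Complex.ofRealCLM.hasFDerivAt.comp x h1
  rw [h2.fderiv]
  simp only [ContinuousLinearMap.comp_apply, smul_apply, smul_eq_mul]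
  rw [fderiv_normsq hg]
  simp only [Complex.ofRealCLM_apply, hu]
  congr 1
  field_simp

theorem pd_th_zero {g : Pl → ℂ} (hg : ContDiff ℝ ∞ g) {δ : ℝ} (hδ : 0 < δ) (l : Fin 2) {x : Pl}
    (hx : ‖g x‖ ≤ δ ∨ 2 * δ ≤ ‖g x‖) : pd l (th g δ) x = 0 := by
  rw [pd_th hg, st_deriv_zero]
  · simp
  · rcases hx with hx | hx
    · left
      apply div_nonpos_of_nonpos_of_nonneg
      · nlinarith [norm_nonneg (g x)]
      · positivity
    · right
      rw [le_div_iff₀ (by positivity)]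
      nlinarith [norm_nonneg (g x)]

theorem pd_th_bound {g : Pl → ℂ} (hg : ContDiff ℝ ∞ g) {δ D : ℝ} (hδ : 0 < δ) (hD0 : 0 ≤ D)
    (hD : ∀ t, |deriv Real.smoothTransition t| ≤ D) (l : Fin 2) {x : Pl} (hx : ‖g x‖ ≤ 2 * δ) :
    δ * ‖pd l (th g δ) x‖ ≤ 2 * D * ‖pd l g x‖ := by
  rw [pd_th hg, Complex.norm_real, Real.norm_eq_abs, abs_mul]
  have h1 : |(2 * (inner ℝ (g x) (pd l g x)) / (3 * δ ^ 2) : ℝ)| ≤
      2 * ((2 * δ) * ‖pd l g x‖) / (3 * δ ^ 2) := by
    rw [abs_div, abs_mul, abs_of_pos (show (0 : ℝ) < 2 by norm_num),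
      abs_of_pos (show (0 : ℝ) < 3 * δ ^ 2 by positivity)]
    gcongr
    exact (abs_real_inner_le_norm _ _).trans (by gcongr)
  calc δ * (|deriv Real.smoothTransition ((‖g x‖ ^ 2 - δ ^ 2) / (3 * δ ^ 2))| *
        |(2 * (inner ℝ (g x) (pd l g x)) / (3 * δ ^ 2) : ℝ)|)
      ≤ δ * (D * (2 * ((2 * δ) * ‖pd l g x‖) / (3 * δ ^ 2))) := by
        gcongr
        exact hD _
    _ = (4 / 3) * D * ‖pd l g x‖ := by
        field_simp; ring
    _ ≤ 2 * D * ‖pd l g x‖ := by
        gcongr; norm_num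

end Pool.Agent.H256.RD.Rad
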