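import Pool.Agent.H256.RD.Stm

/-!
# Partial integration
-/

open MeasureTheory Set Filter Topology
open scoped ContDiff

noncomputable section

namespace Pool.Agent.H256.RD

/-! ### Regularity -/

theorem pd_contDiffOn {U : Set Pl} (hU : IsOpen U) {n m : ℕ∞ω} (hnm : m + 1 ≤ n) (e : Fin 2)
    {f : Pl → ℂ} (hf : ContDiffOn ℝ n f U) : ContDiffOn ℝ m (pd e f) U :=
  (hf.fderiv_of_isOpen hU hnm).clm_apply contDiffOn_const

theorem pd_iter_contDiffOn {U : Set Pl} (hU : IsOpen U) (e : Fin 2) (k : ℕ) :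
    ∀ (n : ℕ) (f : Pl → ℂ), ContDiffOn ℝ ((n + k : ℕ) : ℕ∞ω) f U →
      ContDiffOn ℝ (n : ℕ∞ω) ((pd e)^[k] f) U := by
  induction k with
  | zero => intro n f hf; simpa using hf
  | succ k ih =>
    intro n f hf
    rw [Function.iterate_succ_apply]
    refine ih n _ (pd_contDiffOn hU ?_ e hf)
    exact_mod_cast (by omega : n + k + 1 ≤ n + (k + 1))

theorem jt_contDiffOn {U : Set Pl} (hU : IsOpen U) (i j n : ℕ) {f : Pl → ℂ}
    (hf : ContDiffOn ℝ ((n + j + i : ℕ) : ℕ∞ω) f U) : ContDiffOn ℝ (n : ℕ∞ω) (jt i j f) U :=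
  pd_iter_contDiffOn hU 1 j n _ (pd_iter_contDiffOn hU 0 i (n + j) f hf)

theorem jt_continuousOn {U : Set Pl} (hU : IsOpen U) {p i j : ℕ} {f : Pl → ℂ}
    (hf : ContDiffOn ℝ (p - 1 : ℕ) f U) (hij : i + j < p) : ContinuousOn (jt i j f) U :=
  (jt_contDiffOn hU i j 0 (hf.of_le (by exact_mod_cast (by omega : 0 + j + i ≤ p - 1)))).continuousOn

theorem Test.contDiffOn {U : Set Pl} {φ : Pl → ℂ} (h : Test U φ) (V : Set Pl) :
    ContDiffOn ℝ ∞ φ V := h.smooth.contDiffOn

theorem Test.pd {U : Set Pl} {φ : Pl → ℂ} (h : Test U φ) (e : Fin 2) : Test U (pd e φ) where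
  smooth := (h.smooth.fderiv_right (m := ∞) le_rfl).clm_apply contDiff_const
  cpt := h.cpt.fderiv_apply ℝ _
  sub := (tsupport_fderiv_apply_subset ℝ _).trans h.sub

theorem Test.iter {U : Set Pl} (e : Fin 2) (k : ℕ) :
    ∀ {φ : Pl → ℂ}, Test U φ → Test U ((RD.pd e)^[k] φ) := by
  induction k with
  | zero => intro φ h; simpa using h
  | succ k ih => intro φ h; rw [Function.iterate_succ_apply]; exact ih (h.pd e)

theorem Test.dd {U : Set Pl} {φ : Pl → ℂ} (h : Test U φ) (i j : ℕ) : Test U (dd i j φ) :=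
  (h.iter 1 j).iter 0 i

theorem Test.off {U : Set Pl} {φ : Pl → ℂ} (h : Test U φ) {x : Pl} (hx : x ∉ U) : φ x = 0 :=
  image_eq_zero_of_notMem_tsupport fun hx' => hx (h.sub hx')

/-- a function which is nice on an open set times a function with compact support there -/
theorem mul_contDiff {U : Set Pl} (hU : IsOpen U) {n : ℕ∞ω} {g φ : Pl → ℂ}
    (hg : ContDiffOn ℝ n g U) (hφ : ContDiff ℝ n φ) (hs : tsupport φ ⊆ U) :
    ContDiff ℝ n (fun x => g x * φ x) := by
  rw [contDiff_iff_contDiffAt]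
  intro x
  by_cases hx : x ∈ U
  · exact (hg.contDiffAt (hU.mem_nhds hx)).mul hφ.contDiffAt
  · have h1 : x ∈ (tsupport φ)ᶜ := fun h => hx (hs h)
    have h2 : (fun x => g x * φ x) =ᶠ[𝓝 x] fun _ => 0 := by
      filter_upwards [(isClosed_tsupport φ).isOpen_compl.mem_nhds h1] with y hy
      rw [image_eq_zero_of_notMem_tsupport hy, mul_zero]
    exact contDiffAt_const.congr_of_eventuallyEq h2

theorem mul_tsupport (g φ : Pl → ℂ) : tsupport (fun x => g x * φ x) ⊆ tsupport φ :=
  closure_mono fun x hx => fun h => hx (by simp only [h, mul_zero])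

theorem Test.mul {U : Set Pl} (hU : IsOpen U) {g φ : Pl → ℂ} (hg : ContDiffOn ℝ ∞ g U)
    (h : Test U φ) : Test U (fun x => g x * φ x) where
  smooth := mul_contDiff hU hg h.smooth h.sub
  cpt := h.cpt.mul_left
  sub := (mul_tsupport g φ).trans h.sub

theorem mul_integrable_rep {U : Set Pl} (hU : IsOpen U) {g φ : Pl → ℂ} (hg : ContinuousOn g U)
    (hφ : Continuous φ) (hc : HasCompactSupport φ) (hs : tsupport φ ⊆ U) :
    Integrable (fun x => g x * φ x) := by
  refine Continuous.integrable_of_hasCompactSupport ?_ hc.mul_left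
  exact (mul_contDiff hU (contDiffOn_zero.2 hg) (contDiff_zero.2 hφ) hs).continuous

theorem Test.integrable {U : Set Pl} (hU : IsOpen U) {g φ : Pl → ℂ} (hg : ContinuousOn g U)
    (h : Test U φ) : Integrable (fun x => g x * φ x) :=
  mul_integrable_rep hU hg h.smooth.continuous h.cpt h.sub

/-! ### Partial integration -/

theorem ibp {U : Set Pl} (hU : IsOpen U) {g φ : Pl → ℂ} (hg : ContDiffOn ℝ 1 g U)
    (h : Test U φ) (e : Fin 2) : ∫ x, g x * pd e φ x = -∫ x, pd e g x * φ x := by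
  refine integral_mul_fderiv_eq_neg_fderiv_mul_of_integrable ?_ ?_ ?_ ?_ ?_
  · exact h.integrable hU (pd_contDiffOn hU (m := 0) (by simp) e hg).continuousOn
  · exact (h.pd e).integrable hU hg.continuousOn
  · exact h.integrable hU hg.continuousOn
  · intro x hx
    exact (hg.contDiffAt (hU.mem_nhds (h.sub hx))).differentiableAt (by simp)
  · intro x _
    exact h.smooth.contDiffAt.differentiableAt (by simp)

theorem ibp_iter {U : Set Pl} (hU : IsOpen U) (e : Fin 2) (k : ℕ) :
    ∀ (g φ : Pl → ℂ), ContDiffOn ℝ (k : ℕ∞ω) g U → Test U φ →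
      ∫ x, g x * (pd e)^[k] φ x = (-1) ^ k * ∫ x, (pd e)^[k] g x * φ x := by
  induction k with
  | zero => intro g φ _ _; simp
  | succ k ih =>
    intro g φ hg h
    have h1 : ∀ x, (pd e)^[k + 1] φ x = pd e ((pd e)^[k] φ) x := fun x => by
      rw [Function.iterate_succ_apply']
    have h2 : ∀ x, (pd e)^[k + 1] g x = (pd e)^[k] (pd e g) x := fun x => by
      rw [Function.iterate_succ_apply]
    simp only [h1, h2]
    rw [ibp hU (hg.of_le (by exact_mod_cast (by omega : 1 ≤ k + 1))) (h.iter e k) e,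
      ih (pd e g) φ (pd_contDiffOn hU (by exact_mod_cast le_rfl) e hg) h]
    ring

theorem ibp_dd {U : Set Pl} (hU : IsOpen U) (i j : ℕ) {f φ : Pl → ℂ}
    (hf : ContDiffOn ℝ ((j + i : ℕ) : ℕ∞ω) f U) (h : Test U φ) :
    ∫ x, f x * dd i j φ x = (-1) ^ (i + j) * ∫ x, jt i j f x * φ x := by
  unfold dd
  rw [ibp_iter hU 0 i f _ (hf.of_le (by exact_mod_cast (by omega : i ≤ j + i))) (h.iter 1 j),
    ibp_iter hU 1 j _ φ (pd_iter_contDiffOn hU 0 i j f hf) h]
  unfold jt
  ring

theorem pd_comm {φ : Pl → ℂ} (h : ContDiff ℝ ∞ φ) : pd 0 (pd 1 φ) = pd 1 (pd 0 φ) := by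
  funext x
  have hd : DifferentiableAt ℝ (fderiv ℝ φ) x :=
    (h.fderiv_right (m := ∞) le_rfl).differentiable (by simp) x
  have hs : IsSymmSndFDerivAt ℝ φ x :=
    ContDiffAt.isSymmSndFDerivAt (n := ∞) h.contDiffAt
      (by simp; exact WithTop.coe_le_coe.2 le_top)
  have key : ∀ v w : Pl, fderiv ℝ (fun y => fderiv ℝ φ y v) x w = fderiv ℝ (fderiv ℝ φ) x w v := by
    intro v w
    rw [fderiv_clm_apply hd (differentiableAt_const v)]
    simp
  unfold pd
  rw [key, key]
  exact hs _ _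

theorem pd_iter_comm {U : Set Pl} (k : ℕ) : ∀ {φ : Pl → ℂ}, Test U φ →
    pd 0 ((pd 1)^[k] φ) = (pd 1)^[k] (pd 0 φ) := by
  induction k with
  | zero => intro φ _; rfl
  | succ k ih =>
    intro φ h
    rw [Function.iterate_succ_apply, Function.iterate_succ_apply, ih (h.pd 1), pd_comm h.smooth]

theorem dd_succ_right {φ : Pl → ℂ} (i j : ℕ) : dd i (j + 1) φ = dd i j (pd 1 φ) := by
  unfold dd
  rw [Function.iterate_succ_apply]

theorem dd_succ_left {U : Set Pl} {φ : Pl → ℂ} (h : Test U φ) (i j : ℕ) :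
    dd (i + 1) j φ = dd i j (pd 0 φ) := by
  unfold dd
  rw [Function.iterate_succ_apply, pd_iter_comm j h]

theorem pd_mul {x : Pl} (e : Fin 2) {g φ : Pl → ℂ} (hg : DifferentiableAt ℝ g x)
    (hφ : DifferentiableAt ℝ φ x) :
    pd e (fun y => g y * φ y) x = pd e g x * φ x + g x * pd e φ x := by
  unfold pd
  rw [fderiv_fun_mul hg hφ]
  simp only [ContinuousLinearMap.add_apply, ContinuousLinearMap.smul_apply, smul_eq_mul]
  ring

theorem pd_sub {U : Set Pl} (e : Fin 2) {u v : Pl → ℂ} (hu : Test U u) (hv : Test U v) :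
    pd e (fun y => u y - v y) = fun y => pd e u y - pd e v y := by
  funext x
  unfold pd
  rw [fderiv_fun_sub (hu.smooth.contDiffAt.differentiableAt (by simp))
    (hv.smooth.contDiffAt.differentiableAt (by simp))]
  rfl

theorem iter_sub {U : Set Pl} (e : Fin 2) (k : ℕ) : ∀ {u v : Pl → ℂ}, Test U u → Test U v →
    (pd e)^[k] (fun y => u y - v y) = fun y => (pd e)^[k] u y - (pd e)^[k] v y := by
  induction k with
  | zero => intro u v _ _; rfl
  | succ k ih =>
    intro u v hu hv
    simp only [Function.iterate_succ_apply]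
    rw [pd_sub e hu hv, ih (hu.pd e) (hv.pd e)]

theorem dd_sub {U : Set Pl} (i j : ℕ) {u v : Pl → ℂ} (hu : Test U u) (hv : Test U v) :
    dd i j (fun y => u y - v y) = fun y => dd i j u y - dd i j v y := by
  unfold dd
  rw [iter_sub 1 j hu hv, iter_sub 0 i (hu.iter 1 j) (hv.iter 1 j)]

/-! ### Top order terms -/

section top
variable {U : Set Pl} {p : ℕ} {f φ : Pl → ℂ}

theorem top_right (hU : IsOpen U) (hf : ContDiffOn ℝ (p - 1 : ℕ) f U) (h : Test U φ) {i j : ℕ}
    (hij : i + j + 1 = p) :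
    ∫ x, f x * dd i (j + 1) φ x = (-1) ^ (p - 1) * ∫ x, jt i j f x * pd 1 φ x := by
  rw [dd_succ_right, ibp_dd hU i j (hf.of_le (by exact_mod_cast (by omega : j + i ≤ p - 1)))
    (h.pd 1), show i + j = p - 1 by omega]

theorem top_left (hU : IsOpen U) (hf : ContDiffOn ℝ (p - 1 : ℕ) f U) (h : Test U φ) {i j : ℕ}
    (hij : i + j + 1 = p) :
    ∫ x, f x * dd (i + 1) j φ x = (-1) ^ (p - 1) * ∫ x, jt i j f x * pd 0 φ x := by
  rw [dd_succ_left h, ibp_dd hU i j (hf.of_le (by exact_mod_cast (by omega : j + i ≤ p - 1)))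
    (h.pd 0), show i + j = p - 1 by omega]

theorem low_term (hU : IsOpen U) (hf : ContDiffOn ℝ (p - 1 : ℕ) f U) (h : Test U φ) {i j : ℕ}
    (hij : i + j < p) :
    ∫ x, f x * dd i j φ x = (-1) ^ (i + j) * ∫ x, jt i j f x * φ x :=
  ibp_dd hU i j (hf.of_le (by exact_mod_cast (by omega : j + i ≤ p - 1))) h

end top

/-! ### First order functionals -/

theorem TT_eq {U : Set Pl} (hU : IsOpen U) {G0 G1 h φ : Pl → ℂ} (h0 : ContinuousOn G0 U)
    (h1 : ContinuousOn G1 U) (hh : ContinuousOn h U) (hφ : Test U φ) :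
    TT G0 G1 h φ = (∫ x, G0 x * pd 0 φ x) + (∫ x, G1 x * pd 1 φ x) + (∫ x, h x * φ x) := by
  unfold TT
  have a0 : Integrable fun x => G0 x * pd 0 φ x := (hφ.pd 0).integrable hU h0
  have a1 : Integrable fun x => G1 x * pd 1 φ x := (hφ.pd 1).integrable hU h1
  have a2 : Integrable fun x => h x * φ x := hφ.integrable hU hh
  have a3 : Integrable fun x => G0 x * pd 0 φ x + G1 x * pd 1 φ x := a0.add a1
  rw [integral_add a3 a2, integral_add a0 a1]

/-- representable by a first order functional -/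
def IsTT (U : Set Pl) (L : (Pl → ℂ) → ℂ) : Prop :=
  ∃ G0 G1 h : Pl → ℂ, ContinuousOn G0 U ∧ ContinuousOn G1 U ∧ ContinuousOn h U ∧
    ∀ φ, Test U φ → L φ = TT G0 G1 h φ

theorem IsTT.zero (U : Set Pl) : IsTT U fun _ => 0 :=
  ⟨fun _ => 0, fun _ => 0, fun _ => 0, continuousOn_const, continuousOn_const, continuousOn_const,
    fun φ _ => by simp [TT]⟩

theorem IsTT.add {U : Set Pl} (hU : IsOpen U) {L M : (Pl → ℂ) → ℂ} (hL : IsTT U L)
    (hM : IsTT U M) : IsTT U fun φ => L φ + M φ := by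
  obtain ⟨G0, G1, h, c0, c1, ch, e⟩ := hL
  obtain ⟨G0', G1', h', c0', c1', ch', e'⟩ := hM
  refine ⟨fun x => G0 x + G0' x, fun x => G1 x + G1' x, fun x => h x + h' x, c0.add c0', c1.add c1',
    ch.add ch', fun φ hφ => ?_⟩
  show L φ + M φ = _
  rw [e φ hφ, e' φ hφ, TT_eq hU c0 c1 ch hφ, TT_eq hU c0' c1' ch' hφ,
    TT_eq (G0 := fun x => G0 x + G0' x) (G1 := fun x => G1 x + G1' x) (h := fun x => h x + h' x)
      hU (c0.add c0') (c1.add c1') (ch.add ch') hφ]
  simp only [add_mul]
  rw [integral_add ((hφ.pd 0).integrable hU c0) ((hφ.pd 0).integrable hU c0'),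
    integral_add ((hφ.pd 1).integrable hU c1) ((hφ.pd 1).integrable hU c1'),
    integral_add (hφ.integrable hU ch) (hφ.integrable hU ch')]
  ring

theorem IsTT.smul {U : Set Pl} {L : (Pl → ℂ) → ℂ} (hL : IsTT U L) (c : ℂ) :
    IsTT U fun φ => c * L φ := by
  obtain ⟨G0, G1, h, c0, c1, ch, e⟩ := hL
  refine ⟨fun x => c * G0 x, fun x => c * G1 x, fun x => c * h x, continuousOn_const.mul c0,
    continuousOn_const.mul c1, continuousOn_const.mul ch, fun φ hφ => ?_⟩
  show c * L φ = _
  rw [e φ hφ]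
  unfold TT
  rw [← integral_const_mul]
  congr 1; funext x; ring

theorem IsTT.sum {U : Set Pl} (hU : IsOpen U) {ι : Type*} (s : Finset ι)
    {L : ι → (Pl → ℂ) → ℂ} (hL : ∀ i ∈ s, IsTT U (L i)) : IsTT U fun φ => ∑ i ∈ s, L i φ := by
  classical
  induction s using Finset.induction_on with
  | empty => simpa using IsTT.zero U
  | insert i s hi ih =>
    simp only [Finset.sum_insert hi]
    exact (hL i (Finset.mem_insert_self i s)).add hU
      (ih fun j hj => hL j (Finset.mem_insert_of_mem hj))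

theorem IsTT.congr {U : Set Pl} {L M : (Pl → ℂ) → ℂ} (hL : IsTT U L)
    (h : ∀ φ, Test U φ → M φ = L φ) : IsTT U M := by
  obtain ⟨G0, G1, h', c0, c1, ch, e⟩ := hL
  exact ⟨G0, G1, h', c0, c1, ch, fun φ hφ => (h φ hφ).trans (e φ hφ)⟩

theorem isTT_zero_order {U : Set Pl} {h : Pl → ℂ} (hh : ContinuousOn h U) :
    IsTT U fun φ => ∫ x, h x * φ x :=
  ⟨fun _ => 0, fun _ => 0, h, continuousOn_const, continuousOn_const, hh,
    fun φ _ => by simp [TT]⟩

theorem isTT_first {U : Set Pl} {G : Pl → ℂ} (hG : ContinuousOn G U) (e : Fin 2) :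
    IsTT U fun φ => ∫ x, G x * pd e φ x := by
  fin_cases e
  · exact ⟨G, fun _ => 0, fun _ => 0, hG, continuousOn_const, continuousOn_const,
      fun φ _ => by simp [TT]⟩
  · exact ⟨fun _ => 0, G, fun _ => 0, continuousOn_const, hG, continuousOn_const,
      fun φ _ => by simp [TT]⟩

/-- one derivative on `a φ` -/
theorem pd_mul_test {U : Set Pl} (hU : IsOpen U) {a φ : Pl → ℂ} (ha : ContDiffOn ℝ ∞ a U)
    (h : Test U φ) (e : Fin 2) (G : Pl → ℂ) (hG : ContinuousOn G U) :
    ∫ x, G x * pd e (fun y => a y * φ y) x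
      = (∫ x, (G x * pd e a x) * φ x) + (∫ x, (G x * a x) * pd e φ x) := by
  have ha' : ContinuousOn (pd e a) U := (pd_contDiffOn hU (m := 0) (by simp) e ha).continuousOn
  have i1 : Integrable fun x => (G x * pd e a x) * φ x := h.integrable hU (hG.mul ha')
  have i2 : Integrable fun x => (G x * a x) * pd e φ x :=
    (h.pd e).integrable hU (hG.mul ha.continuousOn)
  rw [← integral_add i1 i2]
  congr 1; funext x
  by_cases hx : x ∈ U
  · rw [pd_mul e ((ha.contDiffAt (hU.mem_nhds hx)).differentiableAt (by simp))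
      (h.smooth.contDiffAt.differentiableAt (by simp))]
    ring
  · rw [((h.mul hU ha).pd e).off hx, h.off hx, (h.pd e).off hx]
    ring

theorem int_Pt {U : Set Pl} (hU : IsOpen U) {p : ℕ} {f : Pl → ℂ} (hf : ContinuousOn f U)
    {a : ℕ → ℕ → Pl → ℂ} (ha : ∀ i j, ContDiffOn ℝ ∞ (a i j) U) {φ : Pl → ℂ} (h : Test U φ) :
    ∫ x, f x * Pt p a φ x = ∑ k ∈ Finset.range (p + 1),
      ∑ q ∈ Finset.HasAntidiagonal.antidiagonal k,
        Complex.I ^ k * ∫ x, f x * dd q.1 q.2 (fun y => a q.1 q.2 y * φ y) x := by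
  have hi : ∀ (k : ℕ) (q : ℕ × ℕ), Integrable fun x =>
      Complex.I ^ k * (f x * dd q.1 q.2 (fun y => a q.1 q.2 y * φ y) x) := fun k q =>
    (((h.mul hU (ha q.1 q.2)).dd q.1 q.2).integrable hU hf).const_mul _
  have e : (fun x => f x * Pt p a φ x) = fun x => ∑ k ∈ Finset.range (p + 1),
      ∑ q ∈ Finset.HasAntidiagonal.antidiagonal k,
        Complex.I ^ k * (f x * dd q.1 q.2 (fun y => a q.1 q.2 y * φ y) x) := by
    funext x
    unfold Pt
    rw [Finset.mul_sum]
    refine Finset.sum_congr rfl fun k _ => ?_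
    rw [Finset.mul_sum]
    refine Finset.sum_congr rfl fun q _ => ?_
    ring
  rw [e, integral_finsetSum _ fun k _ => integrable_finsetSum _ fun q _ => hi k q]
  refine Finset.sum_congr rfl fun k _ => ?_
  rw [integral_finsetSum _ fun q _ => hi k q]
  refine Finset.sum_congr rfl fun q _ => ?_
  rw [integral_const_mul]

theorem rep : RepStm := by
  intro p hp O hO f hf a ha
  refine IsTT.congr (L := fun φ => ∑ k ∈ Finset.range (p + 1),
      ∑ q ∈ Finset.HasAntidiagonal.antidiagonal k,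
        Complex.I ^ k * ∫ x, f x * dd q.1 q.2 (fun y => a q.1 q.2 y * φ y) x) ?_
    fun φ hφ => int_Pt hO hf.continuousOn ha hφ
  refine IsTT.sum hO _ fun k hk => IsTT.sum hO _ fun q hq => IsTT.smul ?_ _
  obtain ⟨i, j⟩ := q
  rw [Finset.HasAntidiagonal.mem_antidiagonal] at hq
  rw [Finset.mem_range] at hk
  simp only at hq ⊢
  rcases Nat.lt_or_ge k p with hkp | hkp
  · have hc := jt_continuousOn hO hf (by omega : i + j < p)
    refine IsTT.congr ((isTT_zero_order (hc.mul (ha i j).continuousOn)).smul ((-1) ^ (i + j)))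
      fun φ hφ => ?_
    rw [low_term hO hf (hφ.mul hO (ha i j)) (by omega)]
    congr 2; funext x
    simp only [Pi.mul_apply]; ring
  · rcases j with _ | j
    · obtain ⟨i, rfl⟩ : ∃ i', i = i' + 1 := ⟨i - 1, by omega⟩
      have hc := jt_continuousOn hO hf (by omega : i + 0 < p)
      have ha' : ContinuousOn (pd 0 (a (i + 1) 0)) O :=
        (pd_contDiffOn hO (m := 0) (by simp) 0 (ha _ _)).continuousOn
      refine IsTT.congr (((isTT_zero_order (hc.mul ha')).add hO
        (isTT_first (hc.mul (ha (i + 1) 0).continuousOn) 0)).smul ((-1) ^ (p - 1))) fun φ hφ => ?_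
      rw [top_left hO hf (hφ.mul hO (ha _ _)) (by omega),
        pd_mul_test hO (ha _ _) hφ 0 _ hc]
      simp only [Pi.mul_apply]
    · have hc := jt_continuousOn hO hf (by omega : i + j < p)
      have ha' : ContinuousOn (pd 1 (a i (j + 1))) O :=
        (pd_contDiffOn hO (m := 0) (by simp) 1 (ha _ _)).continuousOn
      refine IsTT.congr (((isTT_zero_order (hc.mul ha')).add hO
        (isTT_first (hc.mul (ha i (j + 1)).continuousOn) 1)).smul ((-1) ^ (p - 1))) fun φ hφ => ?_
      rw [top_right hO hf (hφ.mul hO (ha _ _)) (by omega),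
        pd_mul_test hO (ha _ _) hφ 1 _ hc]
      simp only [Pi.mul_apply]

/-! ### The second representation -/

/-- functionals of order zero with the vanishing property -/
def IsH (U : Set Pl) (p : ℕ) (f : Pl → ℂ) (L : (Pl → ℂ) → ℂ) : Prop :=
  ∃ h : Pl → ℂ, ContinuousOn h U ∧
    (∀ x ∈ U, (∀ i j, i + j < p → jt i j f x = 0) → h x = 0) ∧
    ∀ φ, Test U φ → L φ = ∫ x, h x * φ x

section isH
variable {U : Set Pl} {p : ℕ} {f : Pl → ℂ}

theorem IsH.zero : IsH U p f fun _ => 0 :=
  ⟨fun _ => 0, continuousOn_const, fun _ _ _ => rfl, fun φ _ => by simp⟩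

theorem IsH.add (hU : IsOpen U) {L M : (Pl → ℂ) → ℂ} (hL : IsH U p f L)
    (hM : IsH U p f M) : IsH U p f fun φ => L φ + M φ := by
  obtain ⟨h, ch, vh, e⟩ := hL
  obtain ⟨h', ch', vh', e'⟩ := hM
  refine ⟨fun x => h x + h' x, ch.add ch', fun x hx hj => ?_, fun φ hφ => ?_⟩
  · show h x + h' x = 0
    rw [vh x hx hj, vh' x hx hj, add_zero]
  · show L φ + M φ = _
    rw [e φ hφ, e' φ hφ]
    simp only [add_mul]
    rw [integral_add (hφ.integrable hU ch) (hφ.integrable hU ch')]

theorem IsH.smul {L : (Pl → ℂ) → ℂ} (hL : IsH U p f L) (c : ℂ) :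
    IsH U p f fun φ => c * L φ := by
  obtain ⟨h, ch, vh, e⟩ := hL
  refine ⟨fun x => c * h x, continuousOn_const.mul ch, fun x hx hj => ?_, fun φ hφ => ?_⟩
  · show c * h x = 0
    rw [vh x hx hj, mul_zero]
  · show c * L φ = _
    rw [e φ hφ, ← integral_const_mul]
    congr 1; funext x; ring

theorem IsH.sum (hU : IsOpen U) {ι : Type*} (s : Finset ι)
    {L : ι → (Pl → ℂ) → ℂ} (hL : ∀ i ∈ s, IsH U p f (L i)) :
    IsH U p f fun φ => ∑ i ∈ s, L i φ := by
  classical
  induction s using Finset.induction_on with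
  | empty => simpa using IsH.zero
  | insert i s hi ih =>
    simp only [Finset.sum_insert hi]
    exact (hL i (Finset.mem_insert_self i s)).add hU
      (ih fun j hj => hL j (Finset.mem_insert_of_mem hj))

theorem IsH.congr {L M : (Pl → ℂ) → ℂ} (hL : IsH U p f L)
    (h : ∀ φ, Test U φ → M φ = L φ) : IsH U p f M := by
  obtain ⟨h', ch, vh, e⟩ := hL
  exact ⟨h', ch, vh, fun φ hφ => (h φ hφ).trans (e φ hφ)⟩

theorem isH_term (hU : IsOpen U) (hf : ContDiffOn ℝ (p - 1 : ℕ) f U) {i j : ℕ} (hij : i + j < p)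
    {g : Pl → ℂ} (hg : ContinuousOn g U) :
    IsH U p f fun φ => ∫ x, (jt i j f x * g x) * φ x :=
  ⟨fun x => jt i j f x * g x, (jt_continuousOn hU hf hij).mul hg,
    fun x _ hj => by show jt i j f x * g x = 0; rw [hj i j hij, zero_mul], fun φ _ => rfl⟩

end isH

theorem dd_zero (i j : ℕ) : dd i j (fun _ => (0 : ℂ)) = fun _ => 0 := by
  have h : ∀ e : Fin 2, pd e (fun _ => (0 : ℂ)) = fun _ => 0 := by
    intro e; funext x; simp [pd]
  have h2 : ∀ (e : Fin 2) (k : ℕ), (pd e)^[k] (fun _ => (0 : ℂ)) = fun _ => 0 := by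
    intro e k
    induction k with
    | zero => rfl
    | succ k ih => rw [Function.iterate_succ_apply, h, ih]
  unfold dd
  rw [h2, h2]

theorem rep2 : Rep2Stm := by
  intro p hp B hB f hf a ha τ q hτ hq hfac
  have hfc := hf.continuousOn
  -- lower order terms
  have hlow : IsH B p f fun φ => ∑ k ∈ Finset.range p,
      ∑ r ∈ Finset.HasAntidiagonal.antidiagonal k,
        Complex.I ^ k * ∫ x, f x * dd r.1 r.2 (fun y => a r.1 r.2 y * φ y) x := by
    refine IsH.sum hB _ fun k hk => IsH.sum hB _ fun r hr => IsH.smul ?_ _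
    obtain ⟨i, j⟩ := r
    rw [Finset.HasAntidiagonal.mem_antidiagonal] at hr
    rw [Finset.mem_range] at hk
    simp only at hr ⊢
    refine IsH.congr ((isH_term hB hf (by omega : i + j < p) (ha i j).continuousOn).smul
      ((-1) ^ (i + j))) fun φ hφ => ?_
    rw [low_term hB hf (hφ.mul hB (ha i j)) (by omega)]
    congr 2; funext x
    ring
  -- zero order part of the top order terms
  have hpq : ∀ j, ContinuousOn (fun x => pd 1 (q j) x - τ x * pd 0 (q j) x) B := fun j =>
    (pd_contDiffOn hB (m := 0) (by simp) 1 (hq j)).continuousOn.sub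
      (hτ.continuousOn.mul (pd_contDiffOn hB (m := 0) (by simp) 0 (hq j)).continuousOn)
  have htop : IsH B p f fun φ => ∑ j ∈ Finset.range p,
      ∫ x, (jt (p - 1 - j) j f x * (pd 1 (q j) x - τ x * pd 0 (q j) x)) * φ x :=
    IsH.sum hB _ fun j hj => isH_term hB hf (by rw [Finset.mem_range] at hj; omega) (hpq j)
  obtain ⟨h, ch, vh, eh⟩ := hlow.add hB (htop.smul (Complex.I ^ p * (-1) ^ (p - 1)))
  refine ⟨h, ch, vh, fun φ hφ => ?_⟩
  rw [int_Pt hB hfc ha hφ, Finset.sum_range_succ]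
  -- the top order terms
  have hD : Test B fun x => pd 1 φ x - pd 0 (fun y => τ y * φ y) x := by
    have h1 := hφ.pd 1
    have h2 := (hφ.mul hB hτ).pd 0
    exact ⟨h1.smooth.sub h2.smooth, h1.cpt.sub h2.cpt, fun x hx => by
      by_contra hc
      have h3 : x ∉ tsupport (pd 1 φ) := fun h => hc (h1.sub h)
      have h4 : x ∉ tsupport (pd 0 fun y => τ y * φ y) := fun h => hc (h2.sub h)
      have h5 : (fun x => pd 1 φ x - pd 0 (fun y => τ y * φ y) x) =ᶠ[𝓝 x] fun _ => 0 := by
        filter_upwards [(isClosed_tsupport _).isOpen_compl.mem_nhds h3,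
          (isClosed_tsupport _).isOpen_compl.mem_nhds h4] with y hy1 hy2
        rw [image_eq_zero_of_notMem_tsupport hy1, image_eq_zero_of_notMem_tsupport hy2, sub_zero]
      exact (notMem_tsupport_iff_eventuallyEq.2 h5) hx⟩
  have hjc : ∀ j, j < p → ContinuousOn (jt (p - 1 - j) j f) B := fun j hj =>
    jt_continuousOn hB hf (by omega)
  have topsum : ∑ r ∈ Finset.HasAntidiagonal.antidiagonal p,
        Complex.I ^ p * ∫ x, f x * dd r.1 r.2 (fun y => a r.1 r.2 y * φ y) x
      = (Complex.I ^ p * (-1) ^ (p - 1)) * ∑ j ∈ Finset.range p,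
        ((∫ x, jt (p - 1 - j) j f x * pd 1 (fun y => q j y * φ y) x)
          - ∫ x, jt (p - 1 - j) j f x * pd 0 (fun y => τ y * (q j y * φ y)) x) := by
    set T : ℕ → ℂ := fun j => ∫ x, f x * dd (p - j) j (fun y => τ y * (q j y * φ y)) x with hT
    set S : ℕ → ℂ := fun j => ∫ x, f x * dd (p - 1 - j) (j + 1) (fun y => q j y * φ y) x with hS
    have t1 : ∀ j, j < p → T j = (-1) ^ (p - 1) *
        ∫ x, jt (p - 1 - j) j f x * pd 0 (fun y => τ y * (q j y * φ y)) x := by
      intro j hj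
      have := top_left hB hf ((hφ.mul hB (hq j)).mul hB hτ) (by omega : (p - 1 - j) + j + 1 = p)
      rw [show p - 1 - j + 1 = p - j by omega] at this
      exact this
    have t2 : T p = 0 := by
      have : (fun y => τ y * (q p y * φ y)) = fun _ => 0 := by
        funext y
        by_cases hy : y ∈ B
        · rw [(hfac y hy).2.1]; ring
        · rw [hφ.off hy]; ring
      simp only [hT]
      rw [this, dd_zero]
      simp
    have s1 : ∀ j, j < p → S j = (-1) ^ (p - 1) *
        ∫ x, jt (p - 1 - j) j f x * pd 1 (fun y => q j y * φ y) x := fun j hj =>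
      top_right hB hf (hφ.mul hB (hq j)) (by omega)
    have x0 : ∫ x, f x * dd p 0 (fun y => a p 0 y * φ y) x = - T 0 := by
      have : (fun y => a p 0 y * φ y) = fun y => (fun _ => (0 : ℂ)) y - τ y * (q 0 y * φ y) := by
        funext y
        by_cases hy : y ∈ B
        · rw [(hfac y hy).1]; ring
        · rw [hφ.off hy]; ring
      have hz : Test B fun _ => (0 : ℂ) :=
        ⟨contDiff_const, HasCompactSupport.zero, by
          rw [show tsupport (fun _ : Pl => (0 : ℂ)) = ∅ by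
            rw [tsupport_eq_empty_iff]; rfl]
          exact empty_subset _⟩
      rw [this, dd_sub p 0 hz ((hφ.mul hB (hq 0)).mul hB hτ), dd_zero]
      simp only [zero_sub, mul_neg, integral_neg, hT, Nat.sub_zero]
    have x1 : ∀ j, j < p → ∫ x, f x * dd (p - (j + 1)) (j + 1) (fun y => a (p - (j + 1)) (j + 1) y * φ y) x
        = S j - T (j + 1) := by
      intro j hj
      have e1 : p - (j + 1) = p - 1 - j := by omega
      have : (fun y => a (p - (j + 1)) (j + 1) y * φ y)
          = fun y => q j y * φ y - τ y * (q (j + 1) y * φ y) := by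
        funext y
        by_cases hy : y ∈ B
        · rw [e1, (hfac y hy).2.2 j hj]; ring
        · rw [hφ.off hy]; ring
      have u1 := hφ.mul hB (hq j)
      have u2 := (hφ.mul hB (hq (j + 1))).mul hB hτ
      rw [this, dd_sub _ _ u1 u2]
      simp only [mul_sub]
      have i1 : Integrable fun x => f x * dd (p - (j + 1)) (j + 1) (fun y => q j y * φ y) x :=
        (u1.dd _ _).integrable hB hfc
      have i2 : Integrable fun x => f x * dd (p - (j + 1)) (j + 1)
          (fun y => τ y * (q (j + 1) y * φ y)) x := (u2.dd _ _).integrable hB hfc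
      rw [integral_sub i1 i2]
      simp only [hS, hT, e1]
    rw [← Finset.mul_sum, ← Finset.Nat.sum_antidiagonal_swap,
      Finset.Nat.sum_antidiagonal_eq_sum_range_succ_mk]
    simp only [Prod.swap_prod_mk, Prod.fst_swap, Prod.snd_swap]
    rw [Nat.succ_eq_add_one, Finset.sum_range_succ']
    simp only [Nat.sub_zero]
    rw [x0, Finset.sum_congr rfl fun j hj => x1 j (Finset.mem_range.1 hj), Finset.sum_sub_distrib]
    have shift : ∑ j ∈ Finset.range p, T (j + 1) + T 0 = ∑ j ∈ Finset.range p, T j := by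
      rw [← Finset.sum_range_succ' T p, Finset.sum_range_succ, t2, add_zero]
    have fin1 : ∑ j ∈ Finset.range p, S j - ∑ j ∈ Finset.range p, T (j + 1) + -T 0
        = ∑ j ∈ Finset.range p, (S j - T j) := by
      rw [Finset.sum_sub_distrib, ← shift]; ring
    rw [fin1, mul_assoc, Finset.mul_sum (a := (-1 : ℂ) ^ (p - 1))]
    congr 1
    refine Finset.sum_congr rfl fun j hj => ?_
    rw [s1 j (Finset.mem_range.1 hj), t1 j (Finset.mem_range.1 hj)]
    ring
  have each : ∀ j ∈ Finset.range p,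
      (∫ x, jt (p - 1 - j) j f x * pd 1 (fun y => q j y * φ y) x)
          - ∫ x, jt (p - 1 - j) j f x * pd 0 (fun y => τ y * (q j y * φ y)) x
      = (∫ x, (q j x * jt (p - 1 - j) j f x) * (pd 1 φ x - pd 0 (fun y => τ y * φ y) x))
        + ∫ x, (jt (p - 1 - j) j f x * (pd 1 (q j) x - τ x * pd 0 (q j) x)) * φ x := by
    intro j hj
    rw [Finset.mem_range] at hj
    have u1 := hφ.mul hB (hq j)
    have u2 := u1.mul hB hτ
    have i1 : Integrable fun x => jt (p - 1 - j) j f x * pd 1 (fun y => q j y * φ y) x :=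
      (u1.pd 1).integrable hB (hjc j hj)
    have i2 : Integrable fun x => jt (p - 1 - j) j f x * pd 0 (fun y => τ y * (q j y * φ y)) x :=
      (u2.pd 0).integrable hB (hjc j hj)
    have i3 : Integrable fun x => (q j x * jt (p - 1 - j) j f x)
        * (pd 1 φ x - pd 0 (fun y => τ y * φ y) x) :=
      hD.integrable hB ((hq j).continuousOn.mul (hjc j hj))
    have i4 : Integrable fun x => (jt (p - 1 - j) j f x * (pd 1 (q j) x - τ x * pd 0 (q j) x)) * φ x :=
      hφ.integrable hB ((hjc j hj).mul (hpq j))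
    rw [← integral_sub i1 i2, ← integral_add i3 i4]
    congr 1; funext x
    by_cases hx : x ∈ B
    · have dq : DifferentiableAt ℝ (q j) x :=
        ((hq j).contDiffAt (hB.mem_nhds hx)).differentiableAt (by simp)
      have dφ : DifferentiableAt ℝ φ x := hφ.smooth.contDiffAt.differentiableAt (by simp)
      have dt : DifferentiableAt ℝ (fun y => τ y * φ y) x :=
        (hφ.mul hB hτ).smooth.contDiffAt.differentiableAt (by simp)
      have e2 : (fun y => τ y * (q j y * φ y)) = fun y => q j y * (τ y * φ y) := by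
        funext y; ring
      rw [e2, pd_mul 1 dq dφ, pd_mul 0 dq dt]
      ring
    · rw [(u1.pd 1).off hx, (u2.pd 0).off hx, hφ.off hx, hD.off hx]
      ring
  rw [topsum, Finset.sum_congr rfl each, Finset.sum_add_distrib, mul_add, ← add_assoc,
    add_right_comm]
  have eh' := eh φ hφ
  simp only at eh'
  rw [eh']
  -- the right-hand side
  have hG : ContinuousOn (fun x => Complex.I ^ p * (-1) ^ (p - 1) *
      ∑ j ∈ Finset.range p, q j x * jt (p - 1 - j) j f x) B :=
    continuousOn_const.mul (continuousOn_finsetSum _ fun j hj =>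
      (hq j).continuousOn.mul (hjc j (Finset.mem_range.1 hj)))
  unfold TL
  have j1 : Integrable fun x => (Complex.I ^ p * (-1) ^ (p - 1) *
      ∑ j ∈ Finset.range p, q j x * jt (p - 1 - j) j f x) *
        (pd 1 φ x - pd 0 (fun y => τ y * φ y) x) := hD.integrable hB hG
  have j2 : Integrable fun x => h x * φ x := hφ.integrable hB ch
  rw [integral_add j1 j2, add_comm]
  congr 1
  rw [Finset.mul_sum]
  have j3 : ∀ j ∈ Finset.range p, Integrable fun x => (Complex.I ^ p * (-1) ^ (p - 1)) *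
      ((q j x * jt (p - 1 - j) j f x) * (pd 1 φ x - pd 0 (fun y => τ y * φ y) x)) := fun j hj =>
    (hD.integrable hB ((hq j).continuousOn.mul (hjc j (Finset.mem_range.1 hj)))).const_mul _
  rw [Finset.sum_congr rfl fun j _ => (integral_const_mul (Complex.I ^ p * (-1) ^ (p - 1))
    (fun x => (q j x * jt (p - 1 - j) j f x) * (pd 1 φ x - pd 0 (fun y => τ y * φ y) x))).symm,
    ← integral_finsetSum _ j3]
  congr 1; funext x
  rw [← Finset.mul_sum, ← Finset.sum_mul]
  ring

end Pool.Agent.H256.RD
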