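import Pool.Agent.H256.RD.Stm

/-!
# A smooth root of the principal symbol
-/

open MeasureTheory Set Filter Topology
open scoped ContDiff

noncomputable section

namespace Pool.Agent.H256.RD

namespace Rt

/-- The principal symbol in the direction `(1, t)`. -/
def PP (p : ℕ) (a : ℕ → ℕ → Pl → ℂ) (x : Pl) : Polynomial ℂ :=
  ∑ j ∈ Finset.range (p + 1), Polynomial.C (a (p - j) j x) * Polynomial.X ^ j

variable {p : ℕ} {a : ℕ → ℕ → Pl → ℂ} {x : Pl}

theorem coeff_PP (n : ℕ) : (PP p a x).coeff n = if n < p + 1 then a (p - n) n x else 0 := by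
  unfold PP
  simp only [Polynomial.finsetSum_coeff, Polynomial.coeff_C_mul, Polynomial.coeff_X_pow]
  by_cases hn : n < p + 1
  · rw [Finset.sum_eq_single n]
    · simp [hn]
    · intro b _ hb
      simp [hb.symm]
    · intro h
      exact absurd (Finset.mem_range.2 hn) h
  · rw [if_neg hn]
    apply Finset.sum_eq_zero
    intro b hb
    have : n ≠ b := by
      have := Finset.mem_range.1 hb
      omega
    simp [this]

theorem eval_PP (t : ℂ) :
    (PP p a x).eval t = ∑ j ∈ Finset.range (p + 1), a (p - j) j x * t ^ j := by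
  unfold PP
  simp [Polynomial.eval_finsetSum]

theorem natDegree_PP (h : a 0 p x ≠ 0) : (PP p a x).natDegree = p := by
  apply le_antisymm
  · rw [Polynomial.natDegree_le_iff_coeff_eq_zero]
    intro n hn
    rw [coeff_PP, if_neg (by omega)]
  · apply Polynomial.le_natDegree_of_ne_zero
    rw [coeff_PP, if_pos (by omega)]
    simpa using h

theorem leadingCoeff_PP (h : a 0 p x ≠ 0) : (PP p a x).leadingCoeff = a 0 p x := by
  rw [Polynomial.leadingCoeff, natDegree_PP h, coeff_PP, if_pos (by omega)]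
  simp

theorem eval_iter (k : ℕ) (t : ℂ) :
    (Polynomial.derivative^[k] (PP p a x)).eval t =
      ∑ j ∈ Finset.range (p + 1), a (p - j) j x * ((Nat.descFactorial j k : ℂ) * t ^ (j - k)) := by
  unfold PP
  rw [Polynomial.iterate_derivative_sum]
  rw [Polynomial.eval_finsetSum]
  apply Finset.sum_congr rfl
  intro j _
  rw [Polynomial.iterate_derivative_C_mul, Polynomial.iterate_derivative_X_pow_eq_natCast_mul]
  simp

theorem prod_bound (t0 : ℂ) (ε : ℝ) (hε : 0 ≤ ε) (s : Multiset ℂ) (h : ∀ r ∈ s, ε ≤ ‖t0 - r‖) :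
    ε ^ Multiset.card s ≤ ‖(s.map (fun r => t0 - r)).prod‖ := by
  induction s using Multiset.induction_on with
  | empty => simp
  | cons r s ih =>
    rw [Multiset.card_cons, Multiset.map_cons, Multiset.prod_cons, norm_mul, pow_succ, mul_comm]
    apply mul_le_mul
    · exact h r (Multiset.mem_cons_self r s)
    · exact ih (fun r' hr' => h r' (Multiset.mem_cons_of_mem hr'))
    · positivity
    · positivity

/-- a root near a point where the value is small -/
theorem near_root (P : Polynomial ℂ) (t0 : ℂ) (ε : ℝ) (hε : 0 < ε)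
    (h : ‖P.eval t0‖ < ‖P.leadingCoeff‖ * ε ^ P.natDegree) : ∃ t, P.IsRoot t ∧ ‖t - t0‖ < ε := by
  by_contra hcon
  push Not at hcon
  have hs := IsAlgClosed.splits P
  have h1 : P.eval t0 = P.leadingCoeff * (P.roots.map (fun r => t0 - r)).prod := by
    conv_lhs => rw [hs.eq_prod_roots]
    simp [Polynomial.eval_mul, Polynomial.eval_multiset_prod, Multiset.map_map]
  have h2 : ε ^ Multiset.card P.roots ≤ ‖(P.roots.map (fun r => t0 - r)).prod‖ := by
    apply prod_bound t0 ε hε.le
    intro r hr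
    rw [norm_sub_rev]
    exact hcon r (Polynomial.isRoot_of_mem_roots hr)
  have h3 : Multiset.card P.roots = P.natDegree := hs.natDegree_eq_card_roots.symm
  rw [h1, norm_mul] at h
  rw [h3] at h2
  exact absurd (lt_of_mul_lt_mul_left h (norm_nonneg _)) (not_lt.2 h2)

theorem sum_anti (f : ℕ × ℕ → ℂ) (p : ℕ) :
    ∑ q ∈ Finset.HasAntidiagonal.antidiagonal p, f q = ∑ j ∈ Finset.range (p + 1), f (p - j, j) := by
  rw [Finset.Nat.antidiagonal_eq_map', Finset.sum_map]
  rfl

theorem lead_ne {X : Set Pl} (hell : Elliptic p a X) (hx : x ∈ X) : a 0 p x ≠ 0 := by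
  have h := hell x hx (EuclideanSpace.single 1 (1 : ℝ)) (by
    intro h
    have := congrFun (congrArg (fun v : Pl => (v : Fin 2 → ℝ)) h) 1
    simp at this)
  rw [sum_anti, Finset.sum_eq_single p] at h
  · simpa using h
  · intro b hb hbp
    have : p - b ≠ 0 := by
      have := Finset.mem_range.1 hb
      omega
    simp [this]
  · intro h
    simp at h

theorem real_ne {X : Set Pl} (hell : Elliptic p a X) (hx : x ∈ X) (s : ℝ) :
    (PP p a x).eval (s : ℂ) ≠ 0 := by
  have h := hell x hx (!₂[(1 : ℝ), s]) (by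
    intro h
    have := congrFun (congrArg (fun v : Pl => (v : Fin 2 → ℝ)) h) 0
    simp at this)
  rw [sum_anti] at h
  rw [eval_PP]
  simpa using h

/-- the derivatives of `t ↦ PP x t` -/
def RR (p : ℕ) (a : ℕ → ℕ → Pl → ℂ) (k : ℕ) (v : Pl × ℂ) : ℂ :=
  (Polynomial.derivative^[k] (PP p a v.1)).eval v.2

theorem contDiffAt_RR (k : ℕ) (x : Pl) (t : ℂ) (ha : ∀ i j, AnalyticAt ℝ (a i j) x) :
    ContDiffAt ℝ ω (RR p a k) (x, t) := by
  have h : RR p a k = fun v : Pl × ℂ => ∑ j ∈ Finset.range (p + 1),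
      a (p - j) j v.1 * ((Nat.descFactorial j k : ℂ) * v.2 ^ (j - k)) := by
    funext v
    exact eval_iter k v.2
  rw [h]
  apply ContDiffAt.sum
  intro j _
  have h1 : ContDiffAt ℝ ω (fun v : Pl × ℂ => a (p - j) j v.1) (x, t) :=
    ContDiffAt.comp (x, t) (f := Prod.fst) (g := a (p - j) j) ((ha (p - j) j).contDiffAt)
      contDiffAt_fst
  have h2 : ContDiffAt ℝ ω (fun v : Pl × ℂ => v.2 ^ (j - k)) (x, t) :=
    contDiffAt_snd.pow _
  exact h1.mul (contDiffAt_const.mul h2)

theorem analyticAt_RR_comp (k : ℕ) (x : Pl) (τ : Pl → ℂ) (ha : ∀ i j, AnalyticAt ℝ (a i j) x)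
    (hτ : AnalyticAt ℝ τ x) : AnalyticAt ℝ (fun y => RR p a k (y, τ y)) x := by
  have h := contDiffAt_RR (p := p) k x (τ x) ha
  have h2 : ContDiffAt ℝ ω (fun y : Pl => (y, τ y)) x := contDiffAt_id.prodMk hτ.contDiffAt
  exact (ContDiffAt.comp x h h2).analyticAt

theorem invertible_RR (k : ℕ) (x : Pl) (t : ℂ) (ha : ∀ i j, AnalyticAt ℝ (a i j) x)
    (hne : RR p a (k + 1) (x, t) ≠ 0) :
    (fderiv ℝ (RR p a k) (x, t) ∘L .inr ℝ Pl ℂ).IsInvertible := by
  set c : ℂ := RR p a (k + 1) (x, t) with hc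
  have h0 : HasFDerivAt (RR p a k) (fderiv ℝ (RR p a k) (x, t)) (x, t) :=
    ((contDiffAt_RR k x t ha).differentiableAt (by simp)).hasFDerivAt
  have h1 : HasFDerivAt (fun s : ℂ => (x, s)) (ContinuousLinearMap.inr ℝ Pl ℂ) t :=
    hasFDerivAt_prodMk_right x t
  have h2 : HasFDerivAt (fun s : ℂ => RR p a k (x, s))
      (fderiv ℝ (RR p a k) (x, t) ∘L .inr ℝ Pl ℂ) t := HasFDerivAt.comp t h0 h1
  have h3 : HasDerivAt (fun s : ℂ => RR p a k (x, s)) c t := by
    have := (Polynomial.derivative^[k] (PP p a x)).hasDerivAt t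
    rw [← Function.iterate_succ_apply' Polynomial.derivative k] at this
    exact this
  have h4 := h3.hasFDerivAt.restrictScalars ℝ
  have h5 := h2.unique h4
  rw [h5]
  refine ⟨(ContinuousLinearEquiv.unitsEquivAut ℂ (Units.mk0 c hne)).restrictScalars ℝ, ?_⟩
  ext s
  simp

end Rt

open Rt

theorem root : RootStm := by
  intro p hp X hX a ha hell S hSne hSX hH
  -- a root of minimal multiplicity
  obtain ⟨x0, hx0, t0, ht0, hmin⟩ : ∃ x0 ∈ S, ∃ t0, (PP p a x0).IsRoot t0 ∧
      ∀ x ∈ S, ∀ t, (PP p a x).IsRoot t →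
        (PP p a x0).rootMultiplicity t0 ≤ (PP p a x).rootMultiplicity t := by
    let Q : ℕ → Prop := fun n => ∃ x ∈ S, ∃ t, (PP p a x).IsRoot t ∧
      (PP p a x).rootMultiplicity t = n
    have hQ : ∃ n, Q n := by
      obtain ⟨x, hx⟩ := hSne
      have hd : (PP p a x).degree ≠ 0 := by
        have h1 := natDegree_PP (p := p) (lead_ne hell (hSX hx))
        intro h
        have := Polynomial.natDegree_eq_of_degree_eq_some (n := 0) (by simpa using h)
        omega
      obtain ⟨t, ht⟩ := IsAlgClosed.exists_root _ hd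
      exact ⟨_, x, hx, t, ht, rfl⟩
    classical
    obtain ⟨x0, hx0, t0, ht0, hm⟩ := Nat.find_spec hQ
    refine ⟨x0, hx0, t0, ht0, ?_⟩
    intro x hx t ht
    rw [hm]
    exact Nat.find_min' hQ ⟨x, hx, t, ht, rfl⟩
  have hX0 : x0 ∈ X := hSX hx0
  have ha0 : ∀ i j, AnalyticAt ℝ (a i j) x0 := fun i j => ha i j x0 hX0
  have hPne : ∀ x ∈ X, PP p a x ≠ 0 := by
    intro x hx h
    have h1 := natDegree_PP (p := p) (lead_ne hell hx)
    rw [h] at h1
    simp at h1
    omega
  obtain ⟨k, hk⟩ : ∃ k, (PP p a x0).rootMultiplicity t0 = k + 1 := by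
    have := (Polynomial.rootMultiplicity_pos (hPne x0 hX0)).2 ht0
    exact ⟨(PP p a x0).rootMultiplicity t0 - 1, by omega⟩
  -- `R = RR k`
  have hR0 : RR p a k (x0, t0) = 0 := by
    have h : k < (PP p a x0).rootMultiplicity t0 := by omega
    exact Polynomial.isRoot_iterate_derivative_of_lt_rootMultiplicity h
  have hR1 : RR p a (k + 1) (x0, t0) ≠ 0 := by
    intro h
    have := (Polynomial.lt_rootMultiplicity_iff_isRoot_iterate_derivative (n := k + 1)
      (t := t0) (hPne x0 hX0)).2 (by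
        intro m hm
        rcases Nat.lt_or_eq_of_le hm with h' | h'
        · exact Polynomial.isRoot_iterate_derivative_of_lt_rootMultiplicity (by omega)
        · rw [h']
          exact h)
    omega
  have hcd := contDiffAt_RR (p := p) k x0 t0 ha0
  have hinv := invertible_RR (p := p) k x0 t0 ha0 hR1
  set τ : Pl → ℂ := hcd.implicitFunction (by simp) hinv with hτ
  have hτ0 : τ x0 = t0 := hcd.implicitFunction_apply_self (by simp) hinv
  have hτan : AnalyticAt ℝ τ x0 := (hcd.contDiffAt_implicitFunction (by simp) hinv).analyticAt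
  have hiff := hcd.eventually_apply_eq_iff_implicitFunction (by simp) hinv
  -- the root of `P x` near `t0`
  have hroot : ∀ ε : ℝ, 0 < ε → ∀ᶠ x in 𝓝 x0, x ∈ X → ∃ t, (PP p a x).IsRoot t ∧ ‖t - t0‖ < ε := by
    intro ε hε
    have hc1 : ContinuousAt (fun x => ‖RR p a 0 (x, t0)‖) x0 := by
      have := (analyticAt_RR_comp (p := p) 0 x0 (fun _ => t0) ha0 analyticAt_const).continuousAt
      exact this.norm
    have hc2 : ContinuousAt (fun x => ‖a 0 p x‖ * ε ^ p) x0 :=
      ((ha0 0 p).continuousAt.norm).mul continuousAt_const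
    have hlt : ‖RR p a 0 (x0, t0)‖ < ‖a 0 p x0‖ * ε ^ p := by
      have h1 : RR p a 0 (x0, t0) = 0 := ht0
      have h2 : 0 < ‖a 0 p x0‖ := norm_pos_iff.2 (lead_ne hell hX0)
      rw [h1, norm_zero]
      positivity
    filter_upwards [hc1.eventually_lt hc2 hlt] with x hx hxX
    apply near_root _ t0 ε hε
    rw [leadingCoeff_PP (lead_ne hell hxX), natDegree_PP (lead_ne hell hxX)]
    exact hx
  -- `d = P x (τ x)`
  have hd : ∀ᶠ x in 𝓝 x0, RR p a 0 (x, τ x) = 0 := by
    apply hH x0 hx0 _ (analyticAt_RR_comp (p := p) 0 x0 τ ha0 hτan)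
    obtain ⟨ε, hε, hball⟩ := Metric.eventually_nhds_iff.1 hiff
    filter_upwards [hroot ε hε, Metric.ball_mem_nhds x0 hε] with x hx hxb hxS
    obtain ⟨t, ht, htd⟩ := hx (hSX hxS)
    have hm : (PP p a x0).rootMultiplicity t0 ≤ (PP p a x).rootMultiplicity t := hmin x hxS t ht
    have h1 : RR p a k (x, t) = 0 := by
      have h : k < (PP p a x).rootMultiplicity t := by omega
      exact Polynomial.isRoot_iterate_derivative_of_lt_rootMultiplicity h
    have h2 : dist (x, t) (x0, t0) < ε := by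
      rw [Prod.dist_eq]
      apply max_lt
      · exact hxb
      · rw [dist_eq_norm]
        exact htd
    have h3 := (hball h2).1 (by rw [h1, hR0])
    have h4 : τ x = t := h3
    rw [h4]
    exact ht
  -- the ball
  have him : (τ x0).im ≠ 0 := by
    intro h
    have h1 : τ x0 = ((τ x0).re : ℂ) := by
      apply Complex.ext <;> simp [h]
    have h2 := real_ne (p := p) hell hX0 (τ x0).re
    rw [← h1, hτ0] at h2
    exact h2 ht0
  have hcont : ContinuousAt (fun x => (τ x).im) x0 :=
    Complex.continuous_im.continuousAt.comp hτan.continuousAt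
  have hsign : (∀ᶠ x in 𝓝 x0, 0 < (τ x).im) ∨ (∀ᶠ x in 𝓝 x0, (τ x).im < 0) := by
    rcases lt_or_gt_of_ne him with h | h
    · right
      exact hcont.eventually_lt continuousAt_const h
    · left
      exact continuousAt_const.eventually_lt hcont h
  have hev : ∃ r : ℝ, 0 < r ∧ ∀ x ∈ Metric.ball x0 r, (x ∈ X ∧ AnalyticAt ℝ τ x ∧
      RR p a 0 (x, τ x) = 0) := by
    have h1 : ∀ᶠ x in 𝓝 x0, (x ∈ X ∧ AnalyticAt ℝ τ x ∧ RR p a 0 (x, τ x) = 0) := by
      filter_upwards [hX.mem_nhds hX0, hτan.eventually_analyticAt, hd] with x h1 h2 h3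
      exact ⟨h1, h2, h3⟩
    obtain ⟨r, hr, h⟩ := Metric.eventually_nhds_iff_ball.1 h1
    exact ⟨r, hr, h⟩
  obtain ⟨r1, hr1, hb1⟩ := hev
  obtain ⟨r2, hr2, hb2⟩ : ∃ r : ℝ, 0 < r ∧ ((∀ x ∈ Metric.ball x0 r, 0 < (τ x).im) ∨
      (∀ x ∈ Metric.ball x0 r, (τ x).im < 0)) := by
    rcases hsign with h | h
    · obtain ⟨r, hr, h⟩ := Metric.eventually_nhds_iff_ball.1 h
      exact ⟨r, hr, Or.inl h⟩
    · obtain ⟨r, hr, h⟩ := Metric.eventually_nhds_iff_ball.1 h
      exact ⟨r, hr, Or.inr h⟩
  have hsub1 : Metric.ball x0 (min r1 r2) ⊆ Metric.ball x0 r1 :=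
    Metric.ball_subset_ball (min_le_left _ _)
  have hsub2 : Metric.ball x0 (min r1 r2) ⊆ Metric.ball x0 r2 :=
    Metric.ball_subset_ball (min_le_right _ _)
  have hτC : ∀ x ∈ Metric.ball x0 (min r1 r2), ContDiffAt ℝ ∞ τ x := by
    intro x hx
    exact (hb1 x (hsub1 hx)).2.1.contDiffAt
  have haC : ∀ i j, ∀ x ∈ Metric.ball x0 (min r1 r2), ContDiffAt ℝ ∞ (a i j) x := by
    intro i j x hx
    exact (ha i j x (hb1 x (hsub1 hx)).1).contDiffAt
  refine ⟨x0, hx0, min r1 r2, lt_min hr1 hr2, fun x hx => (hb1 x (hsub1 hx)).1, τ,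
    fun j x => ∑ l ∈ Finset.Ioc j p, a (p - l) l x * τ x ^ (l - j - 1), ?_, ?_, ?_, ?_⟩
  · intro x hx
    exact (hτC x hx).contDiffWithinAt
  · intro j x hx
    apply ContDiffAt.contDiffWithinAt
    apply ContDiffAt.sum
    intro l _
    exact (haC _ _ x hx).mul ((hτC x hx).pow _)
  · rcases hb2 with h | h
    · left
      exact fun x hx => h x (hsub2 hx)
    · right
      exact fun x hx => h x (hsub2 hx)
  · intro x hx
    refine ⟨?_, ?_, ?_⟩
    · have h1 : RR p a 0 (x, τ x) = 0 := (hb1 x (hsub1 hx)).2.2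
      have h2 : (PP p a x).eval (τ x) = 0 := h1
      rw [eval_PP, Finset.sum_range_succ'] at h2
      simp only [Nat.sub_zero, pow_zero, mul_one] at h2
      have h3 : (τ x * ∑ l ∈ Finset.Ioc 0 p, a (p - l) l x * τ x ^ (l - 0 - 1)) =
          ∑ k ∈ Finset.range p, a (p - (k + 1)) (k + 1) x * τ x ^ (k + 1) := by
        rw [Finset.mul_sum]
        have h4 : Finset.Ioc 0 p = (Finset.range p).map ⟨fun k => k + 1, fun a b h => by simpa using h⟩ := by
          ext l
          simp only [Finset.mem_Ioc, Finset.mem_map, Finset.mem_range,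
            Function.Embedding.coeFn_mk]
          constructor
          · rintro ⟨h1, h2⟩
            exact ⟨l - 1, by omega, by omega⟩
          · rintro ⟨k, h1, rfl⟩
            omega
        rw [h4, Finset.sum_map]
        apply Finset.sum_congr rfl
        intro k _
        simp only [Function.Embedding.coeFn_mk]
        have : k + 1 - 0 - 1 = k := by omega
        rw [this, pow_succ]
        ring
      rw [h3]
      linear_combination h2
    · simp
    · intro j hj
      have h5 : Finset.Ioc j p = insert (j + 1) (Finset.Ioc (j + 1) p) := by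
        ext l
        simp only [Finset.mem_Ioc, Finset.mem_insert]
        omega
      show a (p - 1 - j) (j + 1) x = (∑ l ∈ Finset.Ioc j p, a (p - l) l x * τ x ^ (l - j - 1)) -
        τ x * (∑ l ∈ Finset.Ioc (j + 1) p, a (p - l) l x * τ x ^ (l - (j + 1) - 1))
      rw [h5, Finset.sum_insert (by simp), Finset.mul_sum]
      have h6 : ∑ l ∈ Finset.Ioc (j + 1) p, a (p - l) l x * τ x ^ (l - j - 1) =
          ∑ l ∈ Finset.Ioc (j + 1) p, τ x * (a (p - l) l x * τ x ^ (l - (j + 1) - 1)) := by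
        apply Finset.sum_congr rfl
        intro l hl
        have hl' := Finset.mem_Ioc.1 hl
        have : l - j - 1 = (l - (j + 1) - 1) + 1 := by omega
        rw [this, pow_succ]
        ring
      rw [h6]
      have h7 : p - (j + 1) = p - 1 - j := by omega
      have h8 : j + 1 - j - 1 = 0 := by omega
      rw [h7, h8]
      ring

end Pool.Agent.H256.RD
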