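import Pool.Agent.H256.RD.Def

/-!
# Statements of the steps
-/

open MeasureTheory Set Filter Topology
open scoped ContDiff

noncomputable section

namespace Pool.Agent.H256.RD

/-- `∂₁^j ∂₀^i f` (the order in which the derivatives fall on `f` in the partial integrations). -/
def jt (i j : ℕ) (f : Pl → ℂ) : Pl → ℂ := (pd 1)^[j] ((pd 0)^[i] f)

/-- `T = 0` on `C_c^∞(U)`. -/
def Null (T : (Pl → ℂ) → ℂ) (U : Set Pl) : Prop := ∀ φ, Test U φ → T φ = 0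

/-- `x` is in the support of `T`. -/
def Sp (T : (Pl → ℂ) → ℂ) (x : Pl) : Prop := ∀ U : Set Pl, IsOpen U → x ∈ U → ¬ Null T U

/-- first order functional with continuous coefficients -/
def TT (G0 G1 h : Pl → ℂ) (φ : Pl → ℂ) : ℂ :=
  ∫ x, (G0 x * pd 0 φ x + G1 x * pd 1 φ x + h x * φ x)

/-- the functional `φ ↦ ∫ G (∂₁φ - ∂₀(τ φ)) + h φ` -/
def TL (τ G h : Pl → ℂ) (φ : Pl → ℂ) : ℂ :=
  ∫ x, (G x * (pd 1 φ x - pd 0 (fun y => τ y * φ y) x) + h x * φ x)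

/-- Localization. -/
def LocStm : Prop :=
  ∀ (G0 G1 h : Pl → ℂ) (U : Set Pl), IsOpen U → ContinuousOn G0 U → ContinuousOn G1 U →
    ContinuousOn h U →
    (∀ x ∈ U, ∃ V : Set Pl, IsOpen V ∧ x ∈ V ∧ Null (TT G0 G1 h) (V ∩ U)) →
      Null (TT G0 G1 h) U

/-- `C¹` test functions. -/
def C1Stm : Prop :=
  ∀ (G0 G1 h : Pl → ℂ) (U : Set Pl), IsOpen U → ContinuousOn G0 U → ContinuousOn G1 U →
    ContinuousOn h U → Null (TT G0 G1 h) U →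
      ∀ ψ : Pl → ℂ, ContDiff ℝ 1 ψ → HasCompactSupport ψ → tsupport ψ ⊆ U → TT G0 G1 h ψ = 0

/-- A `C¹` curve is removable. -/
def HypStm : Prop :=
  ∀ (G0 G1 h : Pl → ℂ) (U : Set Pl), IsOpen U → ContinuousOn G0 U → ContinuousOn G1 U →
    ContinuousOn h U → ∀ g : Pl → ℝ, ContDiffOn ℝ 1 g U → ∀ x0 ∈ U, fderiv ℝ g x0 ≠ 0 →
      Null (TT G0 G1 h) (U ∩ {x | g x ≠ 0}) →
        ∃ V : Set Pl, IsOpen V ∧ x0 ∈ V ∧ V ⊆ U ∧ Null (TT G0 G1 h) V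

/-- If the support of `T` in `U` lies in `{d = 0}` and `d` vanishes to finite order at its points,
then `T = 0` on `U`. -/
def OrdStm : Prop :=
  ∀ (G0 G1 h : Pl → ℂ) (U : Set Pl), IsOpen U → ContinuousOn G0 U → ContinuousOn G1 U →
    ContinuousOn h U → ∀ (m : ℕ∞) (d : Pl → ℂ), ContDiffOn ℝ m d U →
      (∀ x ∈ U, Sp (TT G0 G1 h) x → d x = 0) →
      (∀ x ∈ U, Sp (TT G0 G1 h) x → ∃ i j : ℕ, ((i + j : ℕ) : ℕ∞) ≤ m ∧ jt i j d x ≠ 0) →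
        Null (TT G0 G1 h) U

/-- A real analytic function which is not locally zero vanishes to finite order nearby. -/
def AnaStm : Prop :=
  ∀ (d : Pl → ℂ) (x0 : Pl), AnalyticAt ℝ d x0 → (¬ ∀ᶠ x in 𝓝 x0, d x = 0) →
    ∃ U : Set Pl, IsOpen U ∧ x0 ∈ U ∧ ContDiffOn ℝ ∞ d U ∧ ∀ x ∈ U, ∃ i j : ℕ, jt i j d x ≠ 0

/-- Energy estimate. -/
def EnStm : Prop :=
  ∀ (χ : Pl → ℝ), ContDiff ℝ ∞ χ → HasCompactSupport χ → ∀ (τ : Pl → ℂ) (s β A M : ℝ),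
    (s = 1 ∨ s = -1) → 0 < β → 0 ≤ A → 0 ≤ M →
    (∀ x ∈ tsupport χ, β ≤ s * (τ x).im ∧ ‖τ x‖ ≤ A) →
    ∃ C : ℝ, ∀ (g : Pl → ℂ) (ε : ℝ), ContDiff ℝ ∞ g → 0 < ε →
      (∀ x ∈ tsupport χ, ‖g x‖ ≤ A) →
      (∀ x ∈ tsupport χ, ε ≤ ‖g x‖ → ‖pd 1 g x - τ x * pd 0 g x‖ ≤ M) →
        ∫ x in {x | 2 * ε ≤ ‖g x‖}, χ x ^ 2 * (‖pd 0 g x‖ ^ 2 + ‖pd 1 g x‖ ^ 2) ≤ C

/-- Mollification. -/
def MolStm : Prop :=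
  ∀ (B : Set Pl), IsOpen B → ∀ (τ G h : Pl → ℂ), ContDiffOn ℝ ∞ τ B → ContinuousOn G B →
    ContinuousOn h B → ∀ Z : Set Pl, IsOpen (B \ Z) → (∀ x ∈ B ∩ Z, G x = 0) →
    Null (TL τ G h) (B \ Z) → ∀ K : Set Pl, IsCompact K → K ⊆ B →
      ∃ M : ℝ, ∀ ε : ℝ, 0 < ε → ∃ g : Pl → ℂ, ContDiff ℝ ∞ g ∧ (∀ x ∈ K, ‖g x - G x‖ ≤ ε) ∧
        (∀ x ∈ K, ε ≤ ‖G x‖ → ‖pd 1 g x - τ x * pd 0 g x‖ ≤ M)

/-- Radó's theorem for `∂₁ - τ ∂₀` with a bounded right hand side. -/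
def RadStm : Prop :=
  ∀ (B : Set Pl), IsOpen B → ∀ (τ G h : Pl → ℂ), ContDiffOn ℝ ∞ τ B →
    ((∀ x ∈ B, 0 < (τ x).im) ∨ (∀ x ∈ B, (τ x).im < 0)) → ContinuousOn G B →
    ContinuousOn h B → ∀ Z : Set Pl, IsOpen (B \ Z) → (∀ x ∈ B ∩ Z, G x = 0 ∧ h x = 0) →
    Null (TL τ G h) (B \ Z) → Null (TL τ G h) B

/-- Partial integration: `⟨Pf, φ⟩` is a first order functional. -/
def RepStm : Prop :=
  ∀ (p : ℕ), 1 ≤ p → ∀ (O : Set Pl), IsOpen O → ∀ f : Pl → ℂ, ContDiffOn ℝ (p - 1 : ℕ) f O →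
    ∀ a : ℕ → ℕ → Pl → ℂ, (∀ i j, ContDiffOn ℝ ∞ (a i j) O) →
      ∃ G0 G1 h : Pl → ℂ, ContinuousOn G0 O ∧ ContinuousOn G1 O ∧ ContinuousOn h O ∧
        ∀ φ, Test O φ → ∫ x, f x * Pt p a φ x = TT G0 G1 h φ

/-- Partial integration when the principal symbol has the factor `ξ₁ - τ ξ₀`. -/
def Rep2Stm : Prop :=
  ∀ (p : ℕ), 1 ≤ p → ∀ (B : Set Pl), IsOpen B → ∀ f : Pl → ℂ, ContDiffOn ℝ (p - 1 : ℕ) f B →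
    ∀ a : ℕ → ℕ → Pl → ℂ, (∀ i j, ContDiffOn ℝ ∞ (a i j) B) →
    ∀ (τ : Pl → ℂ) (q : ℕ → Pl → ℂ), ContDiffOn ℝ ∞ τ B → (∀ j, ContDiffOn ℝ ∞ (q j) B) →
    (∀ x ∈ B, a p 0 x = -(τ x * q 0 x) ∧ q p x = 0 ∧
      ∀ j < p, a (p - 1 - j) (j + 1) x = q j x - τ x * q (j + 1) x) →
      ∃ h : Pl → ℂ, ContinuousOn h B ∧
        (∀ x ∈ B, (∀ i j, i + j < p → jt i j f x = 0) → h x = 0) ∧
        ∀ φ, Test B φ → ∫ x, f x * Pt p a φ x =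
          TL τ (fun x => Complex.I ^ p * (-1) ^ (p - 1) *
            ∑ j ∈ Finset.range p, q j x * jt (p - 1 - j) j f x) h φ

/-- A smooth root of the principal symbol near some point of `S`. -/
def RootStm : Prop :=
  ∀ (p : ℕ), 1 ≤ p → ∀ (X : Set Pl), IsOpen X → ∀ (a : ℕ → ℕ → Pl → ℂ),
    (∀ i j, AnalyticOnNhd ℝ (a i j) X) → Elliptic p a X → ∀ S : Set Pl, S.Nonempty → S ⊆ X →
    (∀ x0 ∈ S, ∀ d : Pl → ℂ, AnalyticAt ℝ d x0 → (∀ᶠ x in 𝓝 x0, x ∈ S → d x = 0) →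
      ∀ᶠ x in 𝓝 x0, d x = 0) →
    ∃ x0 ∈ S, ∃ r : ℝ, 0 < r ∧ Metric.ball x0 r ⊆ X ∧ ∃ (τ : Pl → ℂ) (q : ℕ → Pl → ℂ),
      ContDiffOn ℝ ∞ τ (Metric.ball x0 r) ∧ (∀ j, ContDiffOn ℝ ∞ (q j) (Metric.ball x0 r)) ∧
      ((∀ x ∈ Metric.ball x0 r, 0 < (τ x).im) ∨ (∀ x ∈ Metric.ball x0 r, (τ x).im < 0)) ∧
      ∀ x ∈ Metric.ball x0 r, a p 0 x = -(τ x * q 0 x) ∧ q p x = 0 ∧
        ∀ j < p, a (p - 1 - j) (j + 1) x = q j x - τ x * q (j + 1) x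

end Pool.Agent.H256.RD
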